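import Pool.Agent.Lib.MP_5d9fac_lc.Defs

/-!
Topological notions inside a structure `(M, E)` for the language of set theory.
Every notion quantifies only over elements of `M` and uses only `E` and equality.
-/

namespace Pool.Agent.Lib.MP_db8568_gt

open Pool.Agent.Lib.MP_5d9fac_lc

universe u

variable {M : Type u} (E : M → M → Prop)

/-- `A` and `B` have no common element. -/
def Disj (A B : M) : Prop := ∀ x, E x A → ¬ E x B

/-- `T` is a topology on `X`. -/
def IsTop (X T : M) : Prop :=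
  (∀ U, E U T → Sub E U X) ∧ E X T ∧
  (∀ U V W, E U T → E V T → (∀ x, E x W ↔ E x U ∧ E x V) → E W T) ∧
  ∀ S W, Sub E S T → (∀ x, E x W ↔ ∃ U, E U S ∧ E x U) → E W T

/-- `(X, T)` is Hausdorff. -/
def IsT2 (X T : M) : Prop :=
  ∀ x y, E x X → E y X → x ≠ y → ∃ U V, E U T ∧ E V T ∧ E x U ∧ E y V ∧ Disj E U V

/-- `(L, R)` is the real line: a nonempty strict linear order without endpoints which is Dedekind
complete and has a countable order-dense subset.  `App E R a b` reads `a < b`. -/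
def IsLine (L R : M) : Prop :=
  (∀ a b, App E R a b → E a L ∧ E b L ∧ a ≠ b) ∧
  (∀ a b c, App E R a b → App E R b c → App E R a c) ∧
  (∀ a b, E a L → E b L → App E R a b ∨ a = b ∨ App E R b a) ∧
  (∃ a, E a L) ∧ (∀ a, E a L → ∃ b c, App E R b a ∧ App E R a c) ∧
  (∀ S, Sub E S L → (∃ s, E s S) → (∃ u, E u L ∧ ∀ s, E s S → ¬ App E R u s) →
    ∃ t, E t L ∧ (∀ s, E s S → ¬ App E R t s) ∧ ∀ u, App E R u t → ∃ s, E s S ∧ App E R u s) ∧
  ∃ w f, IsOmega E w ∧ IsFun E f w L ∧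
    ∀ a b, App E R a b → ∃ n d, App E f n d ∧ App E R a d ∧ App E R d b

/-- `a < f y < b` and `c < g y < d`. -/
def InBox (R f g a b c d y : M) : Prop :=
  ∃ s t, App E f y s ∧ App E g y t ∧ App E R a s ∧ App E R s b ∧ App E R c t ∧ App E R t d

/-- Every point has an open neighbourhood `U` homeomorphic to the plane `L × L`, by
`y ↦ (f y, g y)`. -/
def LocPlane (X T L R : M) : Prop :=
  ∀ x, E x X → ∃ U f g, E U T ∧ E x U ∧ IsFun E f U L ∧ IsFun E g U L ∧
    (∀ s t, E s L → E t L → ∃! y, App E f y s ∧ App E g y t) ∧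
    ∀ V, Sub E V U → (E V T ↔ ∀ y, E y V → ∃ a b c d, InBox E R f g a b c d y ∧
      ∀ z, InBox E R f g a b c d z → E z V)

/-- `A` is closed in `(X, T)`. -/
def Closed (X T A : M) : Prop := ∃ V, E V T ∧ ∀ x, E x A ↔ E x X ∧ ¬ E x V

/-- `(X, T)` is normal. -/
def Normal (X T : M) : Prop :=
  ∀ A B, Closed E X T A → Closed E X T B → Disj E A B →
    ∃ U V, E U T ∧ E V T ∧ Sub E A U ∧ Sub E B V ∧ Disj E U V

/-- Every subspace of `(X, T)` is normal. -/
def HerNormal (X T : M) : Prop :=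
  ∀ Y S, Sub E Y X → (∀ W, E W S ↔ ∃ U, E U T ∧ ∀ x, E x W ↔ E x U ∧ E x Y) → Normal E Y S

/-- Every open cover indexed by `ω` has a locally finite open refinement. -/
def CtblyParacompact (X T : M) : Prop :=
  ∀ w c, IsOmega E w → IsFun E c w T → (∀ x, E x X → ∃ n U, App E c n U ∧ E x U) →
    ∃ S, Sub E S T ∧ (∀ x, E x X → ∃ V, E V S ∧ E x V) ∧
      (∀ V, E V S → ∃ n U, App E c n U ∧ Sub E V U) ∧
      ∀ x, E x X → ∃ N m g, E N T ∧ E x N ∧ E m w ∧ IsFun E g m T ∧
        ∀ V, E V S → Disj E V N ∨ ∃ j, App E g j V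

end Pool.Agent.Lib.MP_db8568_gt
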