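import Pool.Agent.Lib.MP_5d9fac_lc.Funcs
import Pool.Agent.Lib.MP_5d9fac_lc.MA
import Pool.Agent.Lib.MP_db8568_gt.Defs

/-!
Names for ground model objects, and forcing with a preorder.
-/

namespace Pool.Agent.Lib.MP_db8568_gt

open Pool.Agent.Lib.MP_5d9fac_lc

section Names

variable {B : Type} [CompleteBooleanAlgebra B]

instance (x y : Name B) : Clopen fun U => Disj (Mem U) (cl U x) (cl U y) := by
  unfold Disj; infer_instance
instance (R f g a b c d y : Name B) : Clopen fun U => InBox (Mem U) (cl U R) (cl U f) (cl U g)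
    (cl U a) (cl U b) (cl U c) (cl U d) (cl U y) := by
  unfold InBox; infer_instance

/-- an injective code of ground elements -/
noncomputable def chk {α : Type} (a : α) : Name B := ordN (embeddingToCardinal a).ord

theorem chk_inj {α : Type} {a b : α} {U : Ult B} (h : cl U (chk a) = cl U (chk b)) : a = b :=
  embeddingToCardinal.injective (Cardinal.ord_injective (ordN_inj h))

/-- the set with given weights -/
noncomputable def wN {α : Type} (v : α → B) : Name B := Name.mk α chk v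

theorem mem_wN {α : Type} {v : α → B} {U : Ult B} {a : α} :
    Mem U (cl U (chk a)) (cl U (wN v)) ↔ U.In (v a) := by
  refine ⟨fun h => ?_, fun h => mem_mk (A := chk) a h⟩
  refine mem_mk_ind (fun _ => True) (fun U z => z = cl U (chk a) → U.In (v a)) trivial ?_ _ h rfl
  intro j W _ hj hij
  rwa [← chk_inj hij]

/-- a ground set -/
noncomputable def gs {α : Type} (S : Set α) : Name B := wN fun a => bv fun _ => a ∈ S

theorem mem_gs {α : Type} {S : Set α} {U : Ult B} {a : α} :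
    Mem U (cl U (chk a)) (cl U (gs S)) ↔ a ∈ S := mem_wN.trans (in_bv _ U)

theorem gs_ind (P : Ult B → Prop) [Clopen P] (Q : ∀ U : Ult B, Mod U → Prop)
    [∀ n : Name B, Clopen fun U => Q U (cl U n)] {α : Type} {S : Set α} {U : Ult B}
    (hp : P U) (H : ∀ a ∈ S, ∀ W : Ult B, P W → Q W (cl W (chk a))) :
    ∀ z, Mem U z (cl U (gs S)) → Q U z :=
  mem_mk_ind P Q hp fun a W hW ha => H a ((in_bv _ W).1 ha) W hW

theorem gs_sub {α : Type} {S S' : Set α} (h : S ⊆ S') (U : Ult B) :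
    Sub (Mem U) (cl U (gs S)) (cl U (gs S')) :=
  gs_ind (fun _ => True) (fun U z => Mem U z (cl U (gs S'))) trivial fun _ ha _ _ =>
    mem_gs.2 (h ha)

theorem gs_inter {α : Type} (S S' : Set α) (U : Ult B) : ∀ z, Mem U z (cl U (gs S)) →
    Mem U z (cl U (gs S')) → Mem U z (cl U (gs (S ∩ S'))) :=
  gs_ind (fun _ => True) (fun U z => Mem U z (cl U (gs S')) → Mem U z (cl U (gs (S ∩ S'))))
    trivial fun _ ha _ _ hb => mem_gs.2 ⟨ha, mem_gs.1 hb⟩

theorem gs_disj {α : Type} {S S' : Set α} (h : Disjoint S S') (U : Ult B) :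
    Disj (Mem U) (cl U (gs S)) (cl U (gs S')) :=
  gs_ind (fun _ => True) (fun U z => ¬ Mem U z (cl U (gs S'))) trivial fun _ ha _ _ hb =>
    Set.disjoint_left.1 h ha (mem_gs.1 hb)

/-- a ground relation -/
def grN {I : Type} (x y : I → Name B) : Name B :=
  Name.mk I (fun i => opairN (x i) (y i)) fun _ => ⊤

section Gr

variable {I : Type} {x y : I → Name B}

theorem app_grN (U : Ult B) (i : I) : App (Mem U) (cl U (grN x y)) (cl U (x i)) (cl U (y i)) :=
  ⟨_, isOPair_opairN U _ _, mem_mk (A := fun i => opairN (x i) (y i)) i U.top⟩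

theorem grN_ind (P : Ult B → Prop) [Clopen P] (Q : ∀ U : Ult B, Mod U → Mod U → Prop)
    [∀ n m : Name B, Clopen fun U => Q U (cl U n) (cl U m)] {U : Ult B} (hp : P U)
    (H : ∀ i (W : Ult B), P W → Q W (cl W (x i)) (cl W (y i))) :
    ∀ a b, App (Mem U) (cl U (grN x y)) a b → Q U a b := by
  rintro a b ⟨p, hp1, hp2⟩
  refine mem_mk_ind P (fun U p => ∀ a b, IsOPair (Mem U) p a b → Q U a b) hp ?_ p hp2 a b hp1
  intro i W hW _ a b hab
  obtain ⟨rfl, rfl⟩ := opair_inj hab (isOPair_opairN W _ _)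
  exact H i W hW

theorem app_grN_iff (hx : ∀ (W : Ult B) i j, cl W (x i) = cl W (x j) → i = j) {U : Ult B} {i : I}
    {b : Mod U} : App (Mem U) (cl U (grN x y)) (cl U (x i)) b ↔ b = cl U (y i) := by
  refine ⟨fun h => ?_, fun h => h ▸ app_grN U i⟩
  refine grN_ind (fun _ => True) (fun U a b => a = cl U (x i) → b = cl U (y i)) trivial ?_ _ _ h rfl
  intro j W _ h
  rw [hx W _ _ h]

theorem isFun_grN (hx : ∀ (W : Ult B) i j, cl W (x i) = cl W (x j) → i = j) (P : Ult B → Prop)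
    [Clopen P] {X Y : Name B} {U : Ult B} (hp : P U)
    (h1 : ∀ i (W : Ult B), P W → Mem W (cl W (x i)) (cl W X) ∧ Mem W (cl W (y i)) (cl W Y))
    (h2 : ∀ a, Mem U a (cl U X) → ∃ b, App (Mem U) (cl U (grN x y)) a b) :
    IsFun (Mem U) (cl U (grN x y)) (cl U X) (cl U Y) := by
  refine ⟨?_, fun a ha => existsUnique_of_exists_of_unique (h2 a ha) fun b b' hb hb' => ?_⟩
  · refine mem_mk_ind P (fun U p => ∃ a b, Mem U a (cl U X) ∧ Mem U b (cl U Y) ∧
      IsOPair (Mem U) p a b) hp ?_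
    intro i W hW _
    exact ⟨_, _, (h1 i W hW).1, (h1 i W hW).2, isOPair_opairN W _ _⟩
  · refine grN_ind (fun _ => True) (fun U a b => ∀ b', App (Mem U) (cl U (grN x y)) a b' →
      b = b') trivial ?_ a b hb b' hb'
    intro i W _ b' h
    exact ((app_grN_iff hx).1 h).symm

end Gr

/-- the natural numbers -/
noncomputable def natN (n : ℕ) : Name B := ordN (n : Ordinal.{0})

theorem natN_inj (W : Ult B) (i j : ℕ) (h : cl W (natN i) = cl W (natN j)) : i = j := by
  exact_mod_cast ordN_inj h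

theorem natN_mem (W : Ult B) (i : ℕ) : Mem W (cl W (natN i)) (cl W (ordN Ordinal.omega0)) :=
  ordN_mem (Ordinal.natCast_lt_omega0 i) W

theorem nat_ind (P : Ult B → Prop) [Clopen P] (Q : ∀ U : Ult B, Mod U → Prop)
    [∀ n : Name B, Clopen fun U => Q U (cl U n)] {U : Ult B}
    (hp : P U) (H : ∀ n : ℕ, ∀ W : Ult B, P W → Q W (cl W (natN n))) :
    ∀ z, Mem U z (cl U (ordN Ordinal.omega0)) → Q U z := by
  refine ord_ind P Q hp fun a ha W hW => ?_
  obtain ⟨n, rfl⟩ := Ordinal.lt_omega0.1 ha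
  exact H n W hW

theorem omega_unique {U : Ult B} {w : Mod U} (h : IsOmega (Mem U) w) :
    w = cl U (ordN Ordinal.omega0) :=
  mod_ext U _ _ fun x => ⟨h.2 _ (isInd_omega U) x, (isOmega_omega U).2 _ h.1 x⟩

end Names

section Forcing

variable {C : Type} [Preorder C]

/-- `r` forces a property of ultrafilters -/
def Frc (r : C) (P : Ult (RO C) → Prop) : Prop := ∀ W : Ult (RO C), W.In (RO.emb r) → P W

theorem Frc.mono {r r' : C} {P : Ult (RO C) → Prop} (h : Frc r P) (hr : r' ≤ r) : Frc r' P :=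
  fun W hW => h W (W.mono (RO.emb_mono hr) hW)

theorem ult_of (r : C) : ∃ W : Ult (RO C), W.In (RO.emb r) :=
  Ult.exists_of_ne_bot (RO.emb_ne_bot r)

theorem in_mono {r r' : C} (h : r' ≤ r) {W : Ult (RO C)} (hW : W.In (RO.emb r')) :
    W.In (RO.emb r) := W.mono (RO.emb_mono h) hW

theorem ext1 (P : Ult (RO C) → Prop) [Clopen P] {r : C} {W : Ult (RO C)} (hr : W.In (RO.emb r))
    (hP : P W) : ∃ r', r' ≤ r ∧ Frc r' P := by
  obtain ⟨s, hs⟩ := RO.exists_emb_le (W.ne_bot (W.inf hr ((in_bv P W).2 hP)))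
  obtain ⟨t, h1, h2⟩ := RO.exists_of_emb_le (hs.trans inf_le_left)
  exact ⟨t, h2, fun V hV => (in_bv P V).1 (V.mono ((RO.emb_mono h1).trans
    (hs.trans inf_le_right)) hV)⟩

theorem ext2 (P : Ult (RO C) → Prop) [Clopen P] {r p : C} {W : Ult (RO C)} (hr : W.In (RO.emb r))
    (hp : W.In (RO.emb p)) (hP : P W) : ∃ r', r' ≤ r ∧ r' ≤ p ∧ Frc r' P := by
  obtain ⟨s, h1, h2⟩ := ext1 (fun W => W.In (RO.emb p) ∧ P W) hr ⟨hp, hP⟩
  obtain ⟨t, h3, h4⟩ := RO.exists_of_emb_le (Ult.le_of fun V hV => (h2 V hV).1)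
  exact ⟨t, h3.trans h1, h4, fun V hV => (h2 V (in_mono h3 hV)).2⟩

theorem dense0 (P Q : Ult (RO C) → Prop) [Clopen P] [Clopen Q] {U : Ult (RO C)} (hP : P U)
    (H : ∀ r, Frc r P → ∃ W : Ult (RO C), W.In (RO.emb r) ∧ Q W) : Q U := by
  refine dense_elim Q ((in_bv P U).2 hP) fun q hq hq0 => ?_
  obtain ⟨r, hr⟩ := RO.exists_emb_le hq0
  obtain ⟨W, h1, h2⟩ := H r fun V hV => (in_bv P V).1 (V.mono (hr.trans hq) hV)
  exact ⟨W, W.mono hr h1, h2⟩

theorem dense1 (P Q : Ult (RO C) → Prop) [Clopen P] [Clopen Q] {U : Ult (RO C)} {p : C}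
    (hp : U.In (RO.emb p)) (hP : P U)
    (H : ∀ r, r ≤ p → Frc r P → ∃ W : Ult (RO C), W.In (RO.emb r) ∧ Q W) : Q U := by
  refine dense0 (fun U => U.In (RO.emb p) ∧ P U) Q ⟨hp, hP⟩ fun r hr => ?_
  obtain ⟨t, h3, h4⟩ := RO.exists_of_emb_le (Ult.le_of fun V hV => (hr V hV).1)
  obtain ⟨W, h1, h2⟩ := H t h4 fun V hV => (hr V (in_mono h3 hV)).2
  exact ⟨W, in_mono h3 h1, h2⟩

end Forcing

end Pool.Agent.Lib.MP_db8568_gt
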