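import Pool.Agent.Lib.MP_db8568_gt.Cond

/-!
The combinatorial core: separated sets are forced to have disjoint neighbourhoods, and the
levels give a countable open cover without point-finite refinement.
-/

namespace Pool.Agent.Lib.MP_db8568_gt

open Set Topology Metric

namespace Cnd

/-- `S` is an open part of the chart of `p` -/
def Op (p : Cnd) (S : Set Om) : Prop := S ⊆ range p.ψ ∧ IsOpen (p.ψ ⁻¹' S)

theorem pre_eq {q p : Cnd} {e : E2 → E2} (he : ∀ x, q.ψ (e x) = p.ψ x) {S : Set Om}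
    (hS : S ⊆ range p.ψ) : q.ψ ⁻¹' S = e '' (p.ψ ⁻¹' S) := by
  ext x
  constructor
  · intro hx
    obtain ⟨y, hy⟩ := hS hx
    exact ⟨y, by simpa [hy] using hx, q.inj (by rw [he, hy])⟩
  · rintro ⟨y, hy, rfl⟩
    simpa [he] using hy

theorem Op.mono {q p : Cnd} {S : Set Om} (h : Op p S) (hq : q ≤ p) : Op q S := by
  obtain ⟨e, h1, h2⟩ := emb hq
  exact ⟨h.1.trans (range_mono hq), pre_eq h2 h.1 ▸ h1.isOpenMap _ h.2⟩

theorem Op.pull {q p : Cnd} {S : Set Om} (h : Op q S) (hq : q ≤ p) : IsOpen (p.ψ ⁻¹' S) := by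
  obtain ⟨e, h1, h2⟩ := emb hq
  have : p.ψ ⁻¹' S = e ⁻¹' (q.ψ ⁻¹' S) := by
    ext x
    simp [h2]
  rw [this]
  exact h.2.preimage h1.continuous

theorem op_image (p : Cnd) {O : Set E2} (h : IsOpen O) : Op p (p.ψ '' O) :=
  ⟨image_subset_range _ _, by rwa [p.inj.preimage_image]⟩

theorem Op.inter {p : Cnd} {S S' : Set Om} (h : Op p S) (h' : Op p S') : Op p (S ∩ S') :=
  ⟨inter_subset_left.trans h.1, h.2.inter h'.2⟩

/-- a monotone family of forced points -/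
def Mon (F : Cnd → Om → Prop) : Prop := ∀ r r' a, r' ≤ r → F r a → F r' a

/-- points of `F` are forced to have neighbourhoods missing `G` -/
def Sep (p : Cnd) (F G : Cnd → Om → Prop) : Prop :=
  ∀ r, r ≤ p → ∀ a, F r a → ∃ r', r' ≤ r ∧ ∃ S, Op r' S ∧ a ∈ S ∧
    ∀ r'', r'' ≤ r' → ∀ b ∈ S, ¬ G r'' b

theorem Sep.mono {p q : Cnd} {F G : Cnd → Om → Prop} (h : Sep p F G) (hq : q ≤ p) : Sep q F G :=
  fun r hr => h r (hr.trans hq)

theorem Sep.not_closure {p q r : Cnd} {F G : Cnd → Om → Prop} (h : Sep p F G) (hG : Mon G)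
    (hp : r ≤ p) (hq : r ≤ q) {x : E2} (hx : F r (q.ψ x)) :
    x ∉ closure {y | G r (q.ψ y)} := by
  intro hc
  obtain ⟨r', h1, S, h2, h3, h4⟩ := h r hp _ hx
  obtain ⟨y, h5, h6⟩ := mem_closure_iff.1 hc _ (h2.pull (h1.trans hq)) h3
  exact h4 r' le_rfl _ h5 (hG _ _ _ h1 h6)

theorem diag {p : Cnd} (R : ℕ → Cnd → Cnd → Prop) (h : ∀ n q, q ≤ p → ∃ r, r ≤ q ∧ R n q r) :
    ∃ s : ℕ → Cnd, s 0 = p ∧ ∀ n, s (n + 1) ≤ s n ∧ R n (s n) (s (n + 1)) := by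
  choose f hf1 hf2 using h
  let s : ℕ → {q // q ≤ p} := fun n => Nat.rec ⟨p, le_rfl⟩
    (fun n q => ⟨f n q.1 q.2, (hf1 n q.1 q.2).trans q.2⟩) n
  exact ⟨fun n => (s n).1, rfl, fun n => ⟨hf1 n _ (s n).2, hf2 n _ (s n).2⟩⟩

theorem meet {p : Cnd} (D : ℕ → Cnd → Prop) (h : ∀ n q, q ≤ p → ∃ r, r ≤ q ∧ D n r) :
    ∃ q, q ≤ p ∧ ∀ n, ∃ r, q ≤ r ∧ r ≤ p ∧ D n r := by
  obtain ⟨s, h0, hs⟩ := diag (fun n _ r => D n r) h
  obtain ⟨q, hq⟩ := chain s fun n => (hs n).1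
  have hanti : Antitone s := antitone_nat_of_succ_le fun n => (hs n).1
  exact ⟨q, h0 ▸ hq 0, fun n => ⟨_, hq (n + 1), h0 ▸ hanti (Nat.zero_le _), (hs n).2⟩⟩

/-- all points of `F` are forced into the chart of `q` -/
def Bdd (q : Cnd) (F : Cnd → Om → Prop) : Prop := ∀ r, r ≤ q → ∀ a, F r a → a ∈ range q.ψ

/-- new points of `F` of level `k` appear densely -/
def Unb (q : Cnd) (F : Cnd → Om → Prop) (k : ℕ) : Prop :=
  ∀ q', q' ≤ q → ∃ r, r ≤ q' ∧ ∃ x, F r (r.ψ x) ∧ r.ψ x ∉ range q'.ψ ∧ (r.ψ x).1 = k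

theorem bdd_or_unb {p : Cnd} {F : Cnd → Om → Prop} (hF : Mon F)
    (h0 : ∀ r, r ≤ p → ∀ a, F r a → ∃ r', r' ≤ r ∧ a ∈ range r'.ψ) :
    ∃ q, q ≤ p ∧ (Bdd q F ∨ ∃ k, Unb q F k) := by
  by_contra hc
  push Not at hc
  obtain ⟨q, h1, h2⟩ := meet (p := p) (fun k q' => ∀ r, r ≤ q' → ∀ x, F r (r.ψ x) →
      r.ψ x ∉ range q'.ψ → (r.ψ x).1 ≠ k) (fun k q hq => by
    have := (hc q hq).2 k
    unfold Unb at this
    push Not at this
    exact this)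
  refine (hc q h1).1 fun r hr a ha => ?_
  by_contra h3
  obtain ⟨r', h4, x, rfl⟩ := h0 r (hr.trans h1) a ha
  obtain ⟨s, h5, -, h6⟩ := h2 (r'.ψ x).1
  exact h6 r' ((h4.trans hr).trans h5) x (hF _ _ _ h4 ha) (fun h => h3 (range_mono h5 h)) rfl

theorem Unb.pos {p : Cnd} {F : Cnd → Om → Prop} (hF : Mon F) {k : ℕ} (h : Unb p F k) :
    ∃ q, q ≤ p ∧ ∀ r, r ≤ q → ∀ x, r.ψ x ∉ range q.ψ → k ≤ (r.ψ x).1 →
      x ∈ closure {y | F r (r.ψ y)} := by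
  obtain ⟨s, h0, hs⟩ := diag (p := p) (fun _ q' r => ∃ x, F r (r.ψ x) ∧ r.ψ x ∉ range q'.ψ ∧
    (r.ψ x).1 = k) fun _ => h
  obtain ⟨q, h1, h2⟩ := chain_pos s (fun n => (hs n).1) {a | ∃ n, F (s n) a} k fun m => by
    obtain ⟨x, h3, h4, h5⟩ := (hs m).2
    exact ⟨_, ⟨_, h3⟩, ⟨x, rfl⟩, h4, h5⟩
  refine ⟨q, h0 ▸ h1 0, fun r hr x hx hk => closure_mono ?_ (h2 r hr x hx hk)⟩
  rintro y ⟨n, hn⟩
  exact hF _ _ _ (hr.trans (h1 n)) hn

theorem Unb.not_sep {p : Cnd} {F G : Cnd → Om → Prop} (hF : Mon F) {k l : ℕ} (h : Unb p F k)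
    (h' : Unb p G l) (hkl : k ≤ l) (hs : Sep p G F) : False := by
  obtain ⟨q, h1, h2⟩ := h.pos hF
  obtain ⟨r, h3, x, h4, h5, h6⟩ := h' q h1
  exact hs.not_closure hF (h3.trans h1) le_rfl h4 (h2 r h3 x h5 (by omega))

theorem decide_dense (p : Cnd) {F : Cnd → Om → Prop} (hF : Mon F) :
    ∃ q, q ≤ p ∧ ∀ r, r ≤ q → ∀ x, F r (p.ψ x) → x ∈ closure {y | F q (p.ψ y)} := by
  obtain ⟨b, hb⟩ : ∃ b : ℕ → Set E2, TopologicalSpace.IsTopologicalBasis (range b) := by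
    obtain ⟨b, h1, -, h2⟩ := TopologicalSpace.exists_countable_basis E2
    obtain ⟨f, hf⟩ := h1.exists_eq_range (by
      obtain ⟨t, ht, -⟩ := h2.exists_subset_of_mem_open (mem_univ (0 : E2)) isOpen_univ
      exact ⟨t, ht⟩)
    exact ⟨f, hf ▸ h2⟩
  obtain ⟨q, h1, h2⟩ := meet (p := p) (fun n q' => (∃ y ∈ b n, F q' (p.ψ y)) ∨
      ∀ r, r ≤ q' → ∀ y ∈ b n, ¬ F r (p.ψ y)) (fun n q _ => by
    by_cases h : ∀ r, r ≤ q → ∀ y ∈ b n, ¬ F r (p.ψ y)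
    · exact ⟨q, le_rfl, Or.inr h⟩
    · push Not at h
      obtain ⟨r, h3, h4⟩ := h
      exact ⟨r, h3, Or.inl h4⟩)
  refine ⟨q, h1, fun r hr x hx => hb.mem_closure_iff.2 ?_⟩
  rintro _ ⟨n, rfl⟩ hxn
  obtain ⟨s, h3, -, ⟨y, h4, h5⟩ | h4⟩ := h2 n
  · exact ⟨y, h4, hF _ _ _ h3 h5⟩
  · exact (h4 r (hr.trans h3) x hxn hx).elim

theorem Pos.mono {q q' : Cnd} {A : Set Om} {k : ℕ} (h : Pos q A k) (hq : q' ≤ q) : Pos q' A k :=
  fun r hr x hx => h r (hr.trans hq) x fun h' => hx (range_mono hq h')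

theorem Small.mono {q q' : Cnd} {A : Set Om} {k : ℕ} (h : Small q A k) (hq : q' ≤ q) :
    Small q' A k := by
  obtain ⟨W, h1, h2, h3⟩ := h
  have h4 := (op_image q h1).mono hq
  have h5 : q'.ψ '' (q'.ψ ⁻¹' (q.ψ '' W)) = q.ψ '' W := image_preimage_eq_of_subset h4.1
  refine ⟨_, h4.2, h5.symm ▸ h2, fun r hr x hx => ?_⟩
  rw [h5]
  exact h3 r (hr.trans hq) x fun h' => hx (range_mono hq h')

/-- the conclusion of the separation argument -/
def Good (q : Cnd) (F G : Cnd → Om → Prop) : Prop :=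
  ∃ S, Op q S ∧ (∀ r, r ≤ q → ∀ a, F r a → a ∈ S) ∧
    ∀ r, r ≤ q → ∀ b, G r b → ∃ r', r' ≤ r ∧ ∃ S', Op r' S' ∧ b ∈ S' ∧ Disjoint S' S

theorem good_of_bdd {p : Cnd} {F G : Cnd → Om → Prop} (hF : Mon F) (hG : Mon G)
    (hFG : Sep p F G) (hGF : Sep p G F) (hb : Bdd p F) : ∃ q, q ≤ p ∧ Good q F G := by
  obtain ⟨q1, h1, h2⟩ := decide_dense p hF
  set D := {y | F q1 (p.ψ y)} with hD
  obtain ⟨q2, h3, h4⟩ := meet (p := q1) (fun k q => Pos q (p.ψ '' closure D) k ∨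
      Small q (p.ψ '' closure D) k) fun k q hq =>
    dichotomy q ((image_subset_range _ _).trans (range_mono (hq.trans h1))) k
  have hcl : ∀ r, r ≤ q1 → r.ψ ⁻¹' (p.ψ '' closure D) ⊆ closure {y | F q1 (r.ψ y)} := by
    intro r hr
    obtain ⟨e, h5, h6⟩ := emb (hr.trans h1)
    rw [pre_eq h6 (image_subset_range _ _), p.inj.preimage_image]
    refine (image_closure_subset_closure_image h5.continuous).trans (closure_mono ?_)
    rintro _ ⟨y, hy, rfl⟩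
    show F q1 (r.ψ (e y))
    rw [h6]
    exact hy
  have h5 : ∀ k, ∃ W : Set E2, IsOpen W ∧ p.ψ '' closure D ⊆ q2.ψ '' W ∧ ∀ r, r ≤ q2 → ∀ x,
      r.ψ x ∉ range q2.ψ → (r.ψ x).1 = k → G r (r.ψ x) →
        x ∉ closure (r.ψ ⁻¹' (q2.ψ '' W)) := by
    intro k
    obtain ⟨s, h6, -, h7 | h7⟩ := h4 k
    · refine ⟨univ, isOpen_univ, ?_, fun r hr x hx hk hg => ?_⟩
      · rw [image_univ]
        exact (image_subset_range _ _).trans (range_mono (h3.trans h1))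
      · refine (hGF.not_closure hF ((hr.trans h3).trans h1) le_rfl hg ?_).elim
        have := closure_mono (hcl r (hr.trans h3)) (h7.mono h6 r hr x hx hk.ge)
        rw [closure_closure] at this
        exact closure_mono (fun y hy => hF _ _ _ (hr.trans h3) hy) this
    · obtain ⟨W, h8, h9, h10⟩ := h7.mono h6
      exact ⟨W, h8, h9, fun r hr x hx hk _ => h10 r hr x hx hk⟩
  choose W hW1 hW2 hW3 using h5
  let W2 : Set E2 := ⋃ i : ℕ, ball 0 i ∩ ⋂ k ∈ Finset.range i, W k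
  have hW2o : IsOpen W2 :=
    isOpen_iUnion fun i => isOpen_ball.inter (isOpen_biInter_finset fun k _ => hW1 k)
  have hW2s : ∀ k, W2 ⊆ W k ∪ closedBall 0 k := by
    intro k x hx
    obtain ⟨i, h6, h7⟩ := mem_iUnion.1 hx
    by_cases h : k < i
    · exact Or.inl (mem_iInter₂.1 h7 k (Finset.mem_range.2 h))
    · exact Or.inr (closedBall_subset_closedBall (by exact_mod_cast not_lt.1 h)
        (ball_subset_closedBall h6))
  obtain ⟨q3, h6, h7⟩ := decide_dense q2 hG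
  set DA := {y | F q1 (q2.ψ y)}
  set DB := {y | G q3 (q2.ψ y)}
  obtain ⟨U, V, hU, hV, hU2, hV2, hUV⟩ := CompletelyNormalSpace.completely_normal
    (s := closure DA \ closure DB) (t := closure DB \ closure DA)
    (disjoint_left.2 fun x hx hx' => hx'.2 (by
      simpa using closure_mono (sdiff_subset (t := closure DB)) hx))
    (disjoint_left.2 fun x hx hx' => hx.2 (by
      simpa using closure_mono (sdiff_subset (t := closure DA)) hx'))
    |> separatedNhds_iff_disjoint.2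
  have h32 : q3 ≤ p := (h6.trans h3).trans h1
  refine ⟨q3, h32, q2.ψ '' (W2 ∩ U), (op_image q2 (hW2o.inter hU)).mono h6,
    fun r hr a ha => ?_, fun r hr b hb' => ?_⟩
  · obtain ⟨x, rfl⟩ := hb r (hr.trans h32) a ha
    have h8 : p.ψ x ∈ p.ψ '' closure D := ⟨x, h2 r ((hr.trans h6).trans h3) x ha, rfl⟩
    obtain ⟨y, hy⟩ := range_mono (h3.trans h1) ⟨x, rfl⟩
    refine ⟨y, ⟨?_, hU2 ⟨hcl q2 h3 (by simpa [hy] using h8), fun hc => ?_⟩⟩, hy⟩
    · obtain ⟨i, hi⟩ := exists_nat_gt (dist y 0)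
      refine mem_iUnion.2 ⟨i, hi, mem_iInter₂.2 fun k _ => ?_⟩
      have := hW2 k h8
      rwa [← hy, q2.inj.mem_set_image] at this
    · exact hFG.not_closure hG (hr.trans h32) (hr.trans h6) (hy ▸ ha)
        (closure_mono (fun z hz => hG _ _ _ hr hz) hc)
  · by_cases hold : b ∈ range q2.ψ
    · obtain ⟨y, rfl⟩ := hold
      refine ⟨r, le_rfl, q2.ψ '' V, (op_image q2 hV).mono (hr.trans h6),
        ⟨y, hV2 ⟨h7 r hr y hb', fun hc => ?_⟩, rfl⟩, ?_⟩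
      · exact hGF.not_closure hF (hr.trans h32) (hr.trans h6) hb'
          (closure_mono (fun z hz => hF _ _ _ ((hr.trans h6).trans h3) hz) hc)
      · rw [disjoint_image_iff q2.inj]
        exact hUV.symm.mono_right inter_subset_right
    · obtain ⟨r', h8, S, h9, h10, -⟩ := hGF r (hr.trans h32) b hb'
      obtain ⟨x, rfl⟩ := h9.1 h10
      have h11 : r' ≤ q2 := (h8.trans hr).trans h6
      refine ⟨r', h8, r'.ψ '' (closure (r'.ψ ⁻¹' (q2.ψ '' W2)))ᶜ,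
        op_image r' isClosed_closure.isOpen_compl, ⟨x, fun hc => ?_, rfl⟩, ?_⟩
      · obtain ⟨e, h12, h13⟩ := emb h11
        have h14 := closure_mono (preimage_mono (image_mono (hW2s (r'.ψ x).1))) hc
        rw [image_union, preimage_union, closure_union] at h14
        rcases h14 with h14 | h14
        · exact hW3 _ r' h11 x hold rfl (hG _ _ _ h8 hb') h14
        · rw [pre_eq h13 (image_subset_range _ _), q2.inj.preimage_image,
            ((isCompact_closedBall _ _).image h12.continuous).isClosed.closure_eq] at h14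
          obtain ⟨z, -, rfl⟩ := h14
          exact hold ⟨z, (h13 z).symm⟩
      · rw [disjoint_left]
        rintro _ ⟨z, hz, rfl⟩ hz'
        exact hz (subset_closure (image_mono inter_subset_left hz'))

theorem Sep.inX {p : Cnd} {F G : Cnd → Om → Prop} (h : Sep p F G) :
    ∀ r, r ≤ p → ∀ a, F r a → ∃ r', r' ≤ r ∧ a ∈ range r'.ψ := fun r hr a ha => by
  obtain ⟨r', h1, S, h2, h3, -⟩ := h r hr a ha
  exact ⟨r', h1, h2.1 h3⟩

theorem core_normal {p : Cnd} {F G : Cnd → Om → Prop} (hF : Mon F) (hG : Mon G)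
    (hFG : Sep p F G) (hGF : Sep p G F) : ∃ q, q ≤ p ∧ (Good q F G ∨ Good q G F) := by
  obtain ⟨q, h1, h2 | ⟨k, h2⟩⟩ := bdd_or_unb hF hFG.inX
  · obtain ⟨r, h3, h4⟩ := good_of_bdd hF hG (hFG.mono h1) (hGF.mono h1) h2
    exact ⟨r, h3.trans h1, Or.inl h4⟩
  obtain ⟨q', h3, h4 | ⟨l, h4⟩⟩ := bdd_or_unb hG (hGF.mono h1).inX
  · obtain ⟨r, h5, h6⟩ := good_of_bdd hG hF (hGF.mono (h3.trans h1)) (hFG.mono (h3.trans h1)) h4
    exact ⟨r, (h5.trans h3).trans h1, Or.inr h6⟩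
  have h5 : Unb q' F k := fun r hr => h2 r (hr.trans h3)
  rcases le_total k l with h | h
  · exact (h5.not_sep hF h4 h (hGF.mono (h3.trans h1))).elim
  · exact (h4.not_sep hG h5 h (hFG.mono (h3.trans h1))).elim

theorem core_cover {p : Cnd} {F : ℕ → Cnd → Om → Prop} (hF : ∀ n, Mon (F n))
    (h0 : ∀ n r, r ≤ p → ∀ a, F n r a → ∃ r', r' ≤ r ∧ a ∈ range r'.ψ)
    (h1 : ∀ n, Sep p (fun r a => a ∈ range r.ψ ∧ n < a.1) (F n))
    (h2 : ∀ r, r ≤ p → ∀ x, ∃ r', r' ≤ r ∧ ∃ n, F n r' (r.ψ x)) : False := by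
  obtain ⟨q, h3, h4⟩ := meet (p := p) (fun n q => Bdd q (F n)) fun n q hq => by
    obtain ⟨r, h5, h6 | ⟨k, h6⟩⟩ := bdd_or_unb (hF n) fun r hr => h0 n r (hr.trans hq)
    · exact ⟨r, h5, h6⟩
    · refine (h6.not_sep (hF n) (l := max k (n + 1)) (fun s _ => ?_) (le_max_left _ _)
        ((h1 n).mono (h5.trans hq))).elim
      obtain ⟨t, h7, x, h8, h9⟩ := new_point s (max k (n + 1))
      exact ⟨t, h7, x, ⟨⟨x, rfl⟩, by omega⟩, h9, h8⟩
  obtain ⟨r, h5, x, -, h6⟩ := new_point q 0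
  obtain ⟨r', h7, n, h8⟩ := h2 r (h5.trans h3) x
  obtain ⟨s, h9, -, h10⟩ := h4 n
  exact h6 (range_mono h9 (h10 r' ((h7.trans h5).trans h9) _ h8))

end Cnd

end Pool.Agent.Lib.MP_db8568_gt
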