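import Pool.Agent.Lib.MP_db8568_gt.Fuse

/-!
The forcing conditions.
-/

namespace Pool.Agent.Lib.MP_db8568_gt

open Set Topology Metric

/-- potential points of the manifold; the first coordinate is the level -/
abbrev Om : Type := ℕ × ℝ × E2

/-- conditions -/
structure Cnd where
  ψ : E2 → Om
  D : CI → Set E2
  t : CI → ℕ
  A : Set (Set Om × ℕ)
  inj : Function.Injective ψ
  supp : (range fun x => (ψ x).2.1).Countable
  valid : (Pic.mk (fun x => (ψ x).1) D t).Valid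
  cntA : A.Countable
  top : (univ, 0) ∈ A
  pos : ∀ a ∈ A, ∀ K, IsCompact K →
    ∃ x, ψ x ∈ a.1 ∧ x ∉ K ∧ x ∉ (Pic.mk (fun x => (ψ x).1) D t).H (a.2 + 1)

namespace Cnd

/-- the picture of a condition -/
def pic (p : Cnd) : Pic := ⟨fun x => (p.ψ x).1, p.D, p.t⟩

/-- extension along a given map -/
structure Le (q p : Cnd) (e : E2 → E2) : Prop where
  eq : ∀ x, q.ψ (e x) = p.ψ x
  ext : Ext p.pic q.pic e
  sub : p.A ⊆ q.A
  acc : ∀ a ∈ p.A, ∀ x, x ∉ range e → a.2 ≤ (q.ψ x).1 → x ∈ closure (q.ψ ⁻¹' a.1)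

theorem Le.refl (p : Cnd) : Le p p id :=
  ⟨fun _ => rfl, Ext.refl _, subset_rfl, fun _ _ x hx => (hx ⟨x, rfl⟩).elim⟩

theorem Le.mem_closure {q p : Cnd} {e : E2 → E2} (h : Le q p e) {S : Set Om} {x : E2}
    (hx : x ∈ closure (p.ψ ⁻¹' S)) : e x ∈ closure (q.ψ ⁻¹' S) :=
  closure_mono (by rintro _ ⟨y, hy, rfl⟩; simpa [h.eq] using hy)
    (image_closure_subset_closure_image h.ext.loc.emb.continuous ⟨x, hx, rfl⟩)

theorem Le.trans {r q p : Cnd} {e e' : E2 → E2} (h' : Le r q e') (h : Le q p e) :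
    Le r p (e' ∘ e) := by
  refine ⟨fun x => by simp [h'.eq, h.eq], h.ext.trans h'.ext, h.sub.trans h'.sub,
    fun a ha x hx hl => ?_⟩
  by_cases hr : x ∈ range e'
  · obtain ⟨y, rfl⟩ := hr
    exact h'.mem_closure (h.acc a ha y (fun ⟨z, hz⟩ => hx ⟨z, by simp [hz]⟩)
      (by rwa [h'.eq] at hl))
  · exact h'.acc a (h.sub ha) x hr hl

instance : Preorder Cnd where
  le q p := ∃ e, Le q p e
  le_refl p := ⟨id, Le.refl p⟩
  le_trans _ _ _ := fun ⟨_, h'⟩ ⟨_, h⟩ => ⟨_, h'.trans h⟩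

theorem Le.range_iff {q p : Cnd} {e : E2 → E2} (h : Le q p e) {x : E2} :
    x ∈ range e ↔ q.ψ x ∈ range p.ψ := by
  constructor
  · rintro ⟨y, rfl⟩
    exact ⟨y, (h.eq y).symm⟩
  · rintro ⟨y, hy⟩
    exact ⟨y, q.inj (by rw [h.eq, hy])⟩

theorem Le.preimage {q p : Cnd} {e : E2 → E2} (h : Le q p e) {W : Set E2} :
    q.ψ ⁻¹' (p.ψ '' W) = e '' W := by
  ext x
  constructor
  · rintro ⟨y, hy, hyx⟩
    exact ⟨y, hy, q.inj (by rw [h.eq, hyx])⟩
  · rintro ⟨y, hy, rfl⟩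
    exact ⟨y, hy, (h.eq y).symm⟩

instance : Nonempty Cnd := ⟨{
  ψ := fun x => (0, 0, x)
  D := fun _ => ∅
  t := fun _ => 0
  A := {(univ, 0)}
  inj := fun x y h => by simpa using h
  supp := (countable_singleton (0 : ℝ)).mono (by rintro _ ⟨x, rfl⟩; rfl)
  valid := ⟨fun _ => Cell.empty, fun _ _ _ => by simp, fun x => ⟨univ, by simp, by simp⟩,
    by simp, fun j => (isClosed_const : IsClosed {_x : E2 | j ≤ 0}), fun x hx => by simp at hx⟩
  cntA := countable_singleton _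
  top := rfl
  pos := by
    rintro _ rfl K hK
    obtain ⟨x, hx⟩ := (ne_univ_iff_exists_notMem K).1 hK.ne_univ
    exact ⟨x, trivial, hx, by simp [Pic.H]⟩ }⟩

theorem fusion (p : ℕ → Cnd) (hp : ∀ n, p (n + 1) ≤ p n) (n0 : ℕ) (B : Set (Set Om × ℕ))
    (hB : B.Countable) (hB2 : ∀ a ∈ B, ∀ m, ∃ x, (p (m + 1)).ψ x ∈ a.1 ∧
      (p (m + 1)).ψ x ∉ range (p m).ψ ∧ ((p (m + 1)).ψ x).1 ≤ a.2) :
    ∃ q : Cnd, (∀ n, q ≤ p n) ∧ B ⊆ q.A ∧ (∃ x, (q.ψ x).1 = n0 ∧ ∀ n, q.ψ x ∉ range (p n).ψ) ∧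
      ∀ j, 1 ≤ j → ∃ K, IsCompact K ∧
        q.ψ ⁻¹' ((p 0).ψ '' (p 0).pic.H j) ⊆ interior (q.pic.H j) ∪ K := by
  classical
  have hanti : Antitone p := antitone_nat_of_succ_le hp
  have hex : ∀ i m, ∃ e, i ≤ m → Le (p m) (p i) e := fun i m => by
    by_cases h : i ≤ m
    · obtain ⟨e, he⟩ := hanti h
      exact ⟨e, fun _ => he⟩
    · exact ⟨id, fun h' => (h h').elim⟩
  choose e he using hex
  have hid : ∀ i x, e i i x = x := fun i x => (p i).inj ((he i i le_rfl).eq x)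
  have hcomp : ∀ i m m' x, i ≤ m → m ≤ m' → e m m' (e i m x) = e i m' x :=
    fun i m m' x h1 h2 => (p m').inj (by
      rw [(he m m' h2).eq, (he i m h1).eq, (he i m' (h1.trans h2)).eq])
  let AA : Set (Set Om × ℕ) := (⋃ n, (p n).A) ∪ B
  have hAA : AA.Countable := (countable_iUnion fun n => (p n).cntA).union hB
  let ok : (Set Om × ℕ) → ℕ → Prop := fun a m => ∀ K, IsCompact K →
    ∃ x ∈ (p (m + 1)).ψ ⁻¹' a.1, x ∉ e m (m + 1) '' K ∧
      x ∉ Yset (p m).pic (p (m + 1)).pic (e m (m + 1)) (a.2 + 1)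
  have hok1 : ∀ m, ∀ a ∈ (p m).A, ok a m := by
    intro m a ha K hK
    have h1 := he m (m + 1) (Nat.le_succ m)
    obtain ⟨x, h2, h3, h4⟩ := (p m).pos a ha K hK
    refine ⟨e m (m + 1) x, by simpa [h1.eq] using h2, ?_,
      fun hc => h4 (Yset_mem (p m).valid h1.ext (by omega) hc)⟩
    rwa [h1.ext.loc.emb.injective.mem_set_image]
  have hok : ∀ a ∈ AA, ∃ N, ∀ m, N ≤ m → ok a m := by
    rintro a (ha | ha)
    · obtain ⟨n, hn⟩ := mem_iUnion.1 ha
      exact ⟨n, fun m hm => hok1 m a ((he n m hm).sub hn)⟩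
    · refine ⟨0, fun m _ K _ => ?_⟩
      have h1 := he m (m + 1) (Nat.le_succ m)
      obtain ⟨x, h2, h3, h4⟩ := hB2 a ha m
      have h5 : x ∉ range (e m (m + 1)) := fun h => h3 (h1.range_iff.1 h)
      refine ⟨x, h2, fun h => h5 (image_subset_range _ _ h), ?_⟩
      rintro (h | h)
      · exact h5 (image_subset_range _ _ h)
      · have : a.2 + 1 ≤ ((p (m + 1)).ψ x).1 := h
        omega
  let Tk : Set ((Set Om × ℕ) × Option ℚ) := {τ | τ.1 ∈ AA ∧
    ∀ s, τ.2 = some s → s ≤ 0 ∧ (s < 0 → τ.1.2 = 0) ∧ (s = 0 → τ.1.2 ≤ n0)}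
  have hTk : Tk.Countable :=
    (hAA.prod (countable_univ (α := Option ℚ))).mono fun τ h => mem_prod.2 ⟨h.1, mem_univ _⟩
  have hTk0 : (((univ, 0), none) : (Set Om × ℕ) × Option ℚ) ∈ Tk :=
    ⟨Or.inl (mem_iUnion.2 ⟨0, (p 0).top⟩), fun s h => by simp at h⟩
  have := hTk.to_subtype
  have : Nonempty Tk := ⟨⟨_, hTk0⟩⟩
  obtain ⟨σ, hσ⟩ := exists_surjective_nat (Tk × ℕ)
  let task : ℕ → (Set Om × ℕ) × Option ℚ := fun m =>
    if ok (σ m).1.1.1 m then (σ m).1.1 else ((univ, 0), none)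
  have htask1 : ∀ m, task m ∈ Tk ∧ ok (task m).1 m := by
    intro m
    simp only [task]
    split_ifs with h
    · exact ⟨(σ m).1.2, h⟩
    · exact ⟨hTk0, hok1 m _ (p m).top⟩
  have htask2 : ∀ τ ∈ Tk, ∀ M : ℕ, ∃ m, M ≤ m ∧ task m = τ := by
    intro τ hτ M
    obtain ⟨N, hN⟩ := hok τ.1 hτ.1
    have h1 : {m | (σ m).1 = ⟨τ, hτ⟩}.Infinite := by
      choose s hs using hσ
      refine infinite_of_injective_forall_mem (f := fun n : ℕ => s (⟨τ, hτ⟩, n)) ?_ ?_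
      · intro a b hab
        have := congrArg σ hab
        simpa [hs] using this
      · intro n
        simp [hs]
    obtain ⟨m, hm, hm2⟩ := h1.exists_gt (max M N)
    refine ⟨m, (le_max_left _ _).trans hm2.le, ?_⟩
    have h2 : (σ m).1.1 = τ := congrArg Subtype.val hm
    simp only [task]
    rw [h2, if_pos (hN m ((le_max_right _ _).trans hm2.le))]
  obtain ⟨Q, f, hQ, hf, hfc, hfr, hQ0, hQr, hint, htest⟩ := fuse (P := fun m => (p m).pic)
    (fun m => (p m).valid) (e := e) (fun i m h => (he i m h).ext) hid hcomp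
    (by
      obtain ⟨x, -, -, hx⟩ := (p 0).pos _ (p 0).top ∅ isCompact_empty
      exact ⟨x, hx⟩) n0 (T := fun m => (p (m + 1)).ψ ⁻¹' (task m).1.1)
    (k := fun m => (task m).1.2) (md := fun m => (task m).2.map ((↑) : ℚ → ℝ))
    (fun m s hs => by
      obtain ⟨s', h1, rfl⟩ := Option.map_eq_some_iff.1 hs
      obtain ⟨h2, h3, h4⟩ := (htask1 m).1.2 s' h1
      exact ⟨by exact_mod_cast h2, fun h => h3 (by exact_mod_cast h),
        fun h => h4 (by exact_mod_cast h)⟩)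
    (fun m => (htask1 m).2)
  obtain ⟨c, hc⟩ := ((countable_iUnion fun n => (p n).supp).dense_compl ℝ).nonempty
  have hc' : ∀ n x, ((p n).ψ x).2.1 ≠ c := fun n x h => hc (mem_iUnion.2 ⟨n, x, h⟩)
  have hwd : ∀ i x j y, f i x = f j y ↔ (p i).ψ x = (p j).ψ y := by
    intro i x j y
    rw [← hfc i (max i j) x (le_max_left _ _), ← hfc j (max i j) y (le_max_right _ _),
      ← (he i _ (le_max_left i j)).eq, ← (he j _ (le_max_right i j)).eq,
      (hf _).loc.emb.injective.eq_iff, (p _).inj.eq_iff]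
  let ψ : E2 → Om := fun z =>
    if h : ∃ a : ℕ × E2, f a.1 a.2 = z then (p h.choose.1).ψ h.choose.2 else (Q.lv z, c, z)
  have hψ1 : ∀ i x, ψ (f i x) = (p i).ψ x := by
    intro i x
    have h : ∃ a : ℕ × E2, f a.1 a.2 = f i x := ⟨(i, x), rfl⟩
    simp only [ψ, dif_pos h]
    exact (hwd _ _ _ _).1 h.choose_spec
  have hψ2 : ∀ z ∈ ray, ψ z = (Q.lv z, c, z) := by
    intro z hz
    have h : ¬ ∃ a : ℕ × E2, f a.1 a.2 = z := fun ⟨a, ha⟩ => (hfr z).2 ⟨_, _, ha⟩ hz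
    simp only [ψ, dif_neg h]
  have hcases : ∀ z : E2, z ∈ ray ∨ ∃ i x, f i x = z := fun z => by
    by_cases h : z ∈ ray
    · exact Or.inl h
    · exact Or.inr ((hfr z).1 h)
  have hlv : ∀ z, (ψ z).1 = Q.lv z := by
    intro z
    rcases hcases z with h | ⟨i, x, rfl⟩
    · rw [hψ2 z h]
    · rw [hψ1, (hf i).lv]
      rfl
  have hpic : Pic.mk (fun z => (ψ z).1) Q.D Q.t = Q := by
    rw [funext hlv]
  have hnear : ∀ a ∈ AA, ∀ s : ℚ, s ≤ 0 → (s < 0 → a.2 = 0) → (s = 0 → a.2 ≤ n0) →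
      ((0, (s : ℝ)) : E2) ∈ closure (ψ ⁻¹' a.1) := by
    intro a ha s h1 h2 h3
    rw [Metric.mem_closure_iff]
    intro ε hε
    obtain ⟨M, hM⟩ := exists_nat_gt (max (-(s : ℝ)) ((|(s : ℝ)| + 1) / ε))
    obtain ⟨m, hm, hm2⟩ := htask2 (a, some s) ⟨ha, fun s' hs' => by
      obtain rfl := Option.some.inj hs'
      exact ⟨h1, h2, h3⟩⟩ M
    obtain ⟨x, hx, -, hx2⟩ := htest m
    have hMm : (M : ℝ) ≤ m := by exact_mod_cast hm
    have h4 := hx2 s (by simp [hm2]) (by linarith [le_max_left (-(s : ℝ)) ((|(s : ℝ)| + 1) / ε)])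
    refine ⟨f (m + 1) x, by simpa [hψ1, hm2] using hx, ?_⟩
    rw [dist_comm]
    refine h4.trans_lt ?_
    have h5 := le_max_right (-(s : ℝ)) ((|(s : ℝ)| + 1) / ε)
    have h6 : (|(s : ℝ)| + 1) / ε < m + 1 := by linarith
    rw [div_lt_iff₀ hε] at h6
    rw [div_lt_iff₀ (by positivity)]
    linarith
  let q : Cnd := {
    ψ := ψ
    D := Q.D
    t := Q.t
    A := AA
    inj := by
      intro z w hzw
      rcases hcases z with h | ⟨i, x, rfl⟩ <;> rcases hcases w with h' | ⟨j, y, rfl⟩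
      · rw [hψ2 z h, hψ2 w h'] at hzw
        exact congrArg (fun a : Om => a.2.2) hzw
      · rw [hψ2 z h, hψ1] at hzw
        exact (hc' j y (congrArg (fun a : Om => a.2.1) hzw).symm).elim
      · rw [hψ2 w h', hψ1] at hzw
        exact (hc' i x (congrArg (fun a : Om => a.2.1) hzw)).elim
      · rw [hψ1, hψ1] at hzw
        exact (hwd _ _ _ _).2 hzw
    supp := by
      refine ((countable_iUnion fun n => (p n).supp).insert c).mono ?_
      rintro _ ⟨z, rfl⟩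
      rcases hcases z with h | ⟨i, x, rfl⟩
      · left
        simp only [hψ2 z h]
      · exact Or.inr (mem_iUnion.2 ⟨i, x, by simp only [hψ1]⟩)
    valid := hpic.symm ▸ hQ
    cntA := hAA
    top := hTk0.1
    pos := by
      intro a ha K hK
      obtain ⟨r, hr⟩ := hK.isBounded.subset_closedBall 0
      obtain ⟨M, hM⟩ := exists_nat_gt r
      obtain ⟨m, hm, hm2⟩ := htask2 (a, none) ⟨ha, fun s h => by simp at h⟩ M
      obtain ⟨x, hx, hx2, -⟩ := htest m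
      obtain ⟨h1, h2⟩ := hx2 (by simp [hm2])
      refine ⟨f (m + 1) x, by simpa [hψ1, hm2] using hx, fun h => ?_, ?_⟩
      · have h3 := (le_abs_self _).trans
          ((norm_snd_le _).trans (mem_closedBall_zero_iff.1 (hr h)))
        have hMm : (M : ℝ) ≤ m := by exact_mod_cast hm
        linarith
      · rw [hpic]
        simpa [hm2] using h1 }
  have hqpic : q.pic = Q := hpic
  have hle : ∀ n, Le q (p n) (f n) := by
    intro n
    refine ⟨hψ1 n, hqpic.symm ▸ hf n, fun a ha => Or.inl (mem_iUnion.2 ⟨n, ha⟩),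
      fun a ha z hz hl => ?_⟩
    have haA : a ∈ AA := Or.inl (mem_iUnion.2 ⟨n, ha⟩)
    rcases hcases z with h | ⟨i, x, rfl⟩
    · have hl' : a.2 ≤ Q.lv z := hlv z ▸ hl
      by_cases h0 : z = 0
      · subst h0
        have := hnear a haA 0 le_rfl (fun h => (lt_irrefl _ h).elim) fun _ => hQ0 ▸ hl'
        have h0 : ((0, ((0 : ℚ) : ℝ)) : E2) = 0 := by simp
        exact h0 ▸ this
      · rw [hQr z h h0] at hl'
        have h1 : z.2 < 0 := lt_of_le_of_ne h.2 fun h' => h0 (Prod.ext h.1 h')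
        rw [← closure_closure, Metric.mem_closure_iff]
        intro ε hε
        obtain ⟨s, hs1, hs2⟩ := exists_rat_btwn (by linarith : z.2 - ε < z.2)
        have hs0 : s < 0 := by exact_mod_cast hs2.trans h1
        refine ⟨_, hnear a haA s hs0.le (fun _ => by omega) (fun h => (hs0.ne h).elim), ?_⟩
        rw [Prod.dist_eq, max_lt_iff, Real.dist_eq, Real.dist_eq, h.1]
        refine ⟨by simpa using hε, ?_⟩
        rw [abs_lt]
        constructor <;> linarith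
    · rw [← hfc i (max i n) x (le_max_left _ _)] at hz hl ⊢
      set m := max i n
      set y := e i m x
      have h1 := he n m (le_max_right _ _)
      have h2 := h1.acc a ha y (fun ⟨w, hw⟩ => hz ⟨w, by
        rw [← hw, hfc n m w (le_max_right _ _)]⟩) (by rw [← hψ1]; exact hl)
      exact closure_mono (by rintro _ ⟨w, hw, rfl⟩; simpa [q, hψ1] using hw)
        (image_closure_subset_closure_image (hf m).loc.emb.continuous ⟨y, h2, rfl⟩)
  refine ⟨q, fun n => ⟨_, hle n⟩, subset_union_right, ⟨0, (hlv 0).trans hQ0, fun n h => ?_⟩,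
    fun j hj => ?_⟩
  · obtain ⟨x, hx⟩ := (hle n).range_iff.2 h
    exact (hfr 0).2 ⟨n, x, hx⟩ ⟨rfl, le_rfl⟩
  · rw [(hle 0).preimage, hqpic]
    exact hint 0 j hj

/-- all later points of level at least `k` are limits of `A` -/
def Pos (q : Cnd) (A : Set Om) (k : ℕ) : Prop :=
  ∀ r, r ≤ q → ∀ x, r.ψ x ∉ range q.ψ → k ≤ (r.ψ x).1 → x ∈ closure (r.ψ ⁻¹' A)

/-- `A` has a neighbourhood without later limit points of level `k` -/
def Small (q : Cnd) (A : Set Om) (k : ℕ) : Prop :=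
  ∃ W : Set E2, IsOpen W ∧ A ⊆ q.ψ '' W ∧
    ∀ r, r ≤ q → ∀ x, r.ψ x ∉ range q.ψ → (r.ψ x).1 = k → x ∉ closure (r.ψ ⁻¹' (q.ψ '' W))

theorem pos_of_mem {q : Cnd} {A : Set Om} {k : ℕ} (h : (A, k) ∈ q.A) : Pos q A k :=
  fun _ ⟨_, he⟩ x hx hl => he.acc _ h x (fun h' => hx (he.range_iff.1 h')) hl

theorem emb {q p : Cnd} (h : q ≤ p) : ∃ e, IsOpenEmbedding e ∧ ∀ x, q.ψ (e x) = p.ψ x := by
  obtain ⟨e, he⟩ := h
  exact ⟨e, he.ext.loc.emb, he.eq⟩

theorem range_mono {q p : Cnd} (h : q ≤ p) : range p.ψ ⊆ range q.ψ := by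
  obtain ⟨e, -, he⟩ := emb h
  rintro _ ⟨x, rfl⟩
  exact ⟨e x, he x⟩

theorem chain (p : ℕ → Cnd) (hp : ∀ n, p (n + 1) ≤ p n) : ∃ q : Cnd, ∀ n, q ≤ p n := by
  obtain ⟨q, h, -⟩ := fusion p hp 0 ∅ countable_empty (by simp)
  exact ⟨q, h⟩

theorem new_point (p : Cnd) (n : ℕ) : ∃ q, q ≤ p ∧ ∃ x, (q.ψ x).1 = n ∧ q.ψ x ∉ range p.ψ := by
  obtain ⟨q, h, -, ⟨x, h1, h2⟩, -⟩ := fusion (fun _ => p) (fun _ => le_rfl) n ∅ countable_empty
    (by simp)
  exact ⟨q, h 0, x, h1, h2 0⟩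

theorem chain_pos (p : ℕ → Cnd) (hp : ∀ n, p (n + 1) ≤ p n) (C : Set Om) (k : ℕ)
    (h : ∀ m, ∃ c ∈ C, c ∈ range (p (m + 1)).ψ ∧ c ∉ range (p m).ψ ∧ c.1 = k) :
    ∃ q : Cnd, (∀ n, q ≤ p n) ∧ Pos q C k := by
  obtain ⟨q, h1, h2, -⟩ := fusion p hp 0 {(C, k)} (countable_singleton _) (by
    rintro _ rfl m
    obtain ⟨_, hc, ⟨x, rfl⟩, h3, h4⟩ := h m
    exact ⟨x, hc, h3, h4.le⟩)
  exact ⟨q, h1, pos_of_mem (h2 rfl)⟩

theorem closed_lev (p : Cnd) (j : ℕ) : IsClosed {x | j ≤ (p.ψ x).1} := p.valid.cl j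

theorem dichotomy (p : Cnd) {A : Set Om} (hA : A ⊆ range p.ψ) (k : ℕ) :
    ∃ q, q ≤ p ∧ (Pos q A k ∨ Small q A k) := by
  by_cases h : ∀ K, IsCompact K → ∃ x, p.ψ x ∈ A ∧ x ∉ K ∧ x ∉ p.pic.H (k + 1)
  · let q : Cnd := { p with
      A := insert (A, k) p.A
      cntA := p.cntA.insert _
      top := Or.inr p.top
      pos := by
        rintro a (rfl | ha)
        · exact h
        · exact p.pos a ha }
    exact ⟨q, ⟨id, fun _ => rfl, Ext.refl _, subset_insert _ _,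
      fun _ _ x hx => (hx ⟨x, rfl⟩).elim⟩, Or.inl (pos_of_mem (Or.inl rfl))⟩
  · push Not at h
    obtain ⟨K, hK, h⟩ := h
    obtain ⟨q, h1, -, -, h2⟩ := fusion (fun _ => p) (fun _ => le_rfl) 0 ∅ countable_empty
      (by simp)
    obtain ⟨K', hK', h3⟩ := h2 (k + 1) (by omega)
    obtain ⟨e, he⟩ := h1 0
    obtain ⟨R, hR⟩ := ((hK.image he.ext.loc.emb.continuous).union hK').isBounded.subset_ball 0
    refine ⟨q, ⟨e, he⟩, Or.inr ⟨interior (q.pic.H (k + 1)) ∪ ball 0 R,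
      isOpen_interior.union isOpen_ball, fun a ha => ?_, ?_⟩⟩
    · obtain ⟨x, rfl⟩ := hA ha
      refine ⟨e x, ?_, he.eq x⟩
      by_cases hx : x ∈ K
      · exact Or.inr (hR (Or.inl ⟨x, hx, rfl⟩))
      · rcases h3 (show e x ∈ _ from ⟨x, h x ha hx, (he.eq x).symm⟩) with h4 | h4
        · exact Or.inl h4
        · exact Or.inr (hR (Or.inr h4))
    · rintro r ⟨e', he'⟩ x hx hl hc
      have hx' : x ∉ range e' := fun h' => hx (he'.range_iff.1 h')
      rw [he'.preimage, image_union, closure_union] at hc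
      rcases hc with hc | hc
      · exact he'.ext.new (k + 1) (by omega) x hx' (by show (r.ψ x).1 < k + 1; omega)
          (closure_mono (image_mono interior_subset) hc)
      · have := closure_mono (image_mono (f := e') ball_subset_closedBall) hc
        rw [((isCompact_closedBall 0 R).image he'.ext.loc.emb.continuous).isClosed.closure_eq]
          at this
        exact hx' (image_subset_range _ _ this)

end Cnd

end Pool.Agent.Lib.MP_db8568_gt
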