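import Pool.Agent.Lib.MP_db8568_gt.Step

/-!
Fusion of a chain of pictures, adding a new ray.
-/

namespace Pool.Agent.Lib.MP_db8568_gt

open Set Topology Metric

theorem fib_homeo {F : E2 → ℝ} (hc : Continuous F) (hm : ∀ x, StrictMono fun y => F (x, y))
    (hs : ∀ x, Function.Surjective fun y => F (x, y)) :
    ∃ h : E2 ≃ₜ E2, ∀ z, h z = (z.1, F z) := by
  choose G hG using hs
  have hG' : ∀ x w, F (x, G x w) = w := hG
  have hGc : Continuous fun z : E2 => G z.1 z.2 := by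
    rw [OrderTopology.continuous_iff]
    intro b
    constructor
    · have : (fun z : E2 => G z.1 z.2) ⁻¹' Ioi b = {z : E2 | F (z.1, b) < z.2} := by
        ext z
        simp only [mem_preimage, mem_Ioi, mem_ofPred_eq]
        rw [← (hm z.1).lt_iff_lt]
        simp only [hG']
      rw [this]
      exact isOpen_lt (by fun_prop) continuous_snd
    · have : (fun z : E2 => G z.1 z.2) ⁻¹' Iio b = {z : E2 | z.2 < F (z.1, b)} := by
        ext z
        simp only [mem_preimage, mem_Iio, mem_ofPred_eq]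
        rw [← (hm z.1).lt_iff_lt]
        simp only [hG']
      rw [this]
      exact isOpen_lt continuous_snd (by fun_prop)
  refine ⟨⟨⟨fun z => (z.1, F z), fun z => (z.1, G z.1 z.2), fun z => ?_, fun z => ?_⟩,
    by fun_prop, continuous_fst.prodMk hGc⟩, fun _ => rfl⟩
  · exact Prod.ext rfl ((hm z.1).injective (hG' _ _))
  · exact Prod.ext rfl (hG' _ _)

/-- the slit map -/
noncomputable def th (z : E2) : E2 := (z.1, Real.exp z.2 + |z.1| * z.2)

/-- the ray -/
def ray : Set E2 := {z | z.1 = 0 ∧ z.2 ≤ 0}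

theorem surj_aux {f : ℝ → ℝ} (hc : Continuous f) (h1 : ∀ w, ∃ y, f y ≤ w)
    (h2 : ∀ w, ∃ y, w ≤ f y) : Function.Surjective f := fun w =>
  mem_range_of_exists_le_of_exists_ge hc (h1 w) (h2 w)

theorem th_loc : LocExt th := by
  intro K hK
  obtain ⟨R, hR0, hR⟩ := hK.isBounded.subset_closedBall_lt 0 0
  obtain ⟨h, hh⟩ := fib_homeo (F := fun z => Real.exp z.2 + |z.1| * z.2 + min (z.2 + R) 0)
    (by fun_prop)
    (fun x a b hab => by
      have h1 := Real.exp_lt_exp.2 hab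
      have h2 := mul_le_mul_of_nonneg_left hab.le (abs_nonneg x)
      have h3 : min (a + R) 0 ≤ min (b + R) 0 := min_le_min_right _ (by linarith)
      simp only
      linarith)
    (fun x => surj_aux (by fun_prop)
      (fun w => ⟨min (w - R - 1) 0, by
        have h1 : Real.exp (min (w - R - 1) 0) ≤ 1 := Real.exp_le_one_iff.2 (min_le_right _ _)
        have h2 : |x| * min (w - R - 1) 0 ≤ 0 :=
          mul_nonpos_of_nonneg_of_nonpos (abs_nonneg x) (min_le_right _ _)
        have h3 := min_le_left (min (w - R - 1) 0 + R) 0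
        have h4 := min_le_left (w - R - 1) 0
        simp only
        linarith⟩)
      (fun w => ⟨max w 0, by
        have h1 := Real.add_one_le_exp (max w 0)
        have h2 : 0 ≤ |x| * max w 0 := mul_nonneg (abs_nonneg x) (le_max_right _ _)
        have h3 := le_max_left w 0
        have h4 := le_max_right w 0
        simp only
        rw [min_eq_right (by linarith)]
        linarith⟩))
  refine ⟨h, fun z hz => ?_⟩
  have h1 : |z.2| ≤ R := (norm_snd_le z).trans (mem_closedBall_zero_iff.1 (hR hz))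
  rw [hh, min_eq_right (by linarith [(abs_le.1 h1).1]), add_zero]
  rfl

theorem range_th : range th = rayᶜ := by
  ext z
  constructor
  · rintro ⟨w, rfl⟩ ⟨h1, h2⟩
    simp only [th] at h1 h2
    rw [h1] at h2
    have := Real.exp_pos w.2
    simp at h2
    linarith
  · intro hz
    by_cases h : z.1 = 0
    · have h2 : 0 < z.2 := not_le.1 fun h' => hz ⟨h, h'⟩
      refine ⟨(0, Real.log z.2), Prod.ext h.symm ?_⟩
      simp [th, Real.exp_log h2]
    · have h0 : 0 < |z.1| := abs_pos.2 h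
      obtain ⟨y, hy⟩ := surj_aux (f := fun y => Real.exp y + |z.1| * y) (by fun_prop)
        (fun w => ⟨min ((w - 1) / |z.1|) 0, by
          have h1 : Real.exp (min ((w - 1) / |z.1|) 0) ≤ 1 :=
            Real.exp_le_one_iff.2 (min_le_right _ _)
          have h2 := mul_le_mul_of_nonneg_left (min_le_left ((w - 1) / |z.1|) 0) h0.le
          rw [mul_div_cancel₀ _ h0.ne'] at h2
          linarith⟩)
        (fun w => ⟨max w 0, by
          have h1 := Real.add_one_le_exp (max w 0)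
          have h2 : 0 ≤ |z.1| * max w 0 := mul_nonneg (abs_nonneg _) (le_max_right _ _)
          have h3 := le_max_left w 0
          linarith⟩) z.2
      exact ⟨(z.1, y), Prod.ext rfl hy⟩

/-- height of the far cells -/
noncomputable def hgt (R : ℝ) : ℝ := Real.exp (R + 2) + (R + 2)

theorem hgt_ge {R : ℝ} (hR : 0 ≤ R) : R + 3 ≤ hgt R := by
  have := Real.one_le_exp (by linarith : 0 ≤ R + 2)
  simp only [hgt]
  linarith

theorem hgt_step {R R' : ℝ} (h : R + 3 ≤ R') : hgt R + 3 ≤ hgt R' := by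
  have := Real.exp_le_exp.2 (by linarith : R + 2 ≤ R' + 2)
  simp only [hgt]
  linarith

/-- target of the test object -/
noncomputable def tgt (md : Option ℝ) (R : ℝ) : Set E2 :=
  match md with
  | none => ball (-1, hgt R) (1 / 2)
  | some s => ball (0, max s (-(R + 2))) ((|max s (-(R + 2))| + 1) / (R + 2)) ∩
      {z | max s (-(R + 2)) < z.2}

theorem tgt_open (md : Option ℝ) (R : ℝ) : IsOpen (tgt md R) := by
  cases md with
  | none => exact isOpen_ball
  | some s => exact isOpen_ball.inter (isOpen_lt continuous_const continuous_snd)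

theorem far_ne {R : ℝ} (hR : 0 ≤ R) {σ : ℝ} (hσ : |σ| = 1) :
    ∃ z ∈ th ⁻¹' ball (σ, hgt R) (1 / 2), R < ‖z‖ ∧ ‖z‖ < R + 3 := by
  refine ⟨(σ, R + 2), ?_, ?_⟩
  · simp [th, hσ, hgt]
  · rw [Prod.norm_mk, Real.norm_eq_abs, Real.norm_eq_abs, hσ, abs_of_nonneg (by linarith),
      max_eq_right (by linarith)]
    constructor <;> linarith

theorem tgt_ne {R : ℝ} (hR : 0 ≤ R) {md : Option ℝ} (hmd : ∀ s, md = some s → s ≤ 0) :
    ∃ z ∈ th ⁻¹' tgt md R, R < ‖z‖ ∧ ‖z‖ < R + 3 := by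
  cases md with
  | none => exact far_ne hR (by simp)
  | some s =>
    have hs := hmd s rfl
    set r := R + 2 with hr
    set s' := max s (-r) with hs'
    have hr2 : 2 ≤ r := by linarith
    have h1 : s' ≤ 0 := max_le hs (by linarith)
    have h2 : -r ≤ s' := le_max_right _ _
    have h3 : 0 ≤ -s' / r := div_nonneg (by linarith) (by linarith)
    have h4 : -s' / r ≤ 1 := by rw [div_le_one (by linarith)]; linarith
    have h5 : th (-s' / r, -r) = (-s' / r, Real.exp (-r) + s') := by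
      simp only [th, abs_of_nonneg h3]
      congr 2
      field_simp
    have h6 : Real.exp (-r) < 1 / r := by
      rw [Real.exp_neg, one_div]
      exact inv_strictAnti₀ (by linarith) (by linarith [Real.add_one_le_exp r])
    refine ⟨(-s' / r, -r), ?_, ?_⟩
    · rw [mem_preimage, h5]
      refine ⟨?_, ?_⟩
      · show _ ∈ ball ((0, s') : E2) ((|s'| + 1) / r)
        rw [mem_ball, Prod.dist_eq, max_lt_iff, Real.dist_eq, Real.dist_eq, abs_of_nonpos h1]
        simp only [sub_zero, abs_of_nonneg h3, add_sub_cancel_right, abs_of_pos (Real.exp_pos _)]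
        constructor
        · exact div_lt_div_of_pos_right (by linarith) (by linarith)
        · exact h6.trans_le (div_le_div_of_nonneg_right (by linarith) (by linarith))
      · have := Real.exp_pos (-r)
        show s' < Real.exp (-r) + s'
        linarith
    · rw [Prod.norm_mk, Real.norm_eq_abs, Real.norm_eq_abs, abs_of_nonneg h3, abs_neg,
        abs_of_nonneg (by linarith : 0 ≤ r), max_eq_right (by linarith)]
      constructor <;> linarith

/-- the cells of the fused picture -/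
noncomputable def newD (R : ℕ → ℝ) : CI → Set E2
  | none => closedBall 0 1
  | some (m, true) => closedBall (1, hgt (R m)) (1 / 2)
  | some (m, false) => closedBall (-1, hgt (R m)) (1 / 2)

theorem mem_cb {a b : ℝ} {r : ℝ} {z : E2} (h : z ∈ closedBall ((a, b) : E2) r) :
    a - r ≤ z.1 ∧ z.1 ≤ a + r ∧ b - r ≤ z.2 ∧ z.2 ≤ b + r := by
  rw [mem_closedBall, Prod.dist_eq, max_le_iff, Real.dist_eq, Real.dist_eq, abs_le, abs_le] at h
  simp only at h
  refine ⟨?_, ?_, ?_, ?_⟩ <;> linarith [h.1.1, h.1.2, h.2.1, h.2.2]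

theorem newD_some {R : ℕ → ℝ} {m : ℕ} {b : Bool} {z : E2} (h : z ∈ newD R (some (m, b))) :
    hgt (R m) - 1 / 2 ≤ z.2 ∧ z.2 ≤ hgt (R m) + 1 / 2 ∧ (b = true ↔ 0 < z.1) := by
  cases b with
  | true =>
    have := mem_cb h
    exact ⟨this.2.2.1, this.2.2.2, by simp; linarith [this.1]⟩
  | false =>
    have := mem_cb h
    exact ⟨this.2.2.1, this.2.2.2, by simp; linarith [this.2.1]⟩

theorem R_mono {R : ℕ → ℝ} (hR : ∀ m, R m + 3 ≤ R (m + 1)) {a b : ℕ} (h : a < b) :
    R a + 3 ≤ R b := by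
  induction b with
  | zero => omega
  | succ b ih =>
    rcases Nat.lt_succ_iff_lt_or_eq.1 h with h1 | h1
    · linarith [ih h1, hR b]
    · rw [h1]; exact hR b

theorem R_ge {R : ℕ → ℝ} (h0 : R 0 = 0) (hR : ∀ m, R m + 3 ≤ R (m + 1)) (m : ℕ) :
    (m : ℝ) ≤ R m := by
  induction m with
  | zero => simp [h0]
  | succ m ih => push_cast; linarith [hR m]

theorem newD_disj {R : ℕ → ℝ} (h0 : R 0 = 0) (hR : ∀ m, R m + 3 ≤ R (m + 1)) (i j : CI)
    (hij : i ≠ j) : Disjoint (newD R i) (newD R j) := by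
  have h1 : ∀ m b z, z ∈ newD R none → z ∉ newD R (some (m, b)) := by
    intro m b z hz hz'
    have h2 := (mem_cb (a := 0) (b := 0) hz).2.2.2
    have h3 := (newD_some hz').1
    have h4 : 0 ≤ R m := (Nat.cast_nonneg m).trans (R_ge h0 hR m)
    linarith [hgt_ge h4]
  refine disjoint_left.2 fun z hz hz' => ?_
  rcases i with _ | ⟨m, b⟩ <;> rcases j with _ | ⟨m', b'⟩
  · exact hij rfl
  · exact h1 _ _ z hz hz'
  · exact h1 _ _ z hz' hz
  · have h2 := newD_some hz
    have h3 := newD_some hz'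
    apply hij
    have h4 : m = m' := by
      rcases lt_trichotomy m m' with h | h | h
      · linarith [hgt_step (R_mono hR h), h2.2.1, h3.1]
      · exact h
      · linarith [hgt_step (R_mono hR h), h2.1, h3.2.1]
    have h5 : b = b' := Bool.eq_iff_iff.2 (h2.2.2.trans h3.2.2.symm)
    rw [h4, h5]

theorem newD_lf {R : ℕ → ℝ} (h0 : R 0 = 0) (hR : ∀ m, R m + 3 ≤ R (m + 1)) :
    LocallyFinite (newD R) := by
  intro z
  obtain ⟨n, hn⟩ := exists_nat_gt z.2
  refine ⟨{w | w.2 < n}, (isOpen_lt continuous_snd continuous_const).mem_nhds hn, ?_⟩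
  refine ((((finite_lt_nat n).prod (finite_univ (α := Bool))).image some).insert none).subset ?_
  rintro (_ | ⟨m, b⟩) ⟨w, hw, hw'⟩
  · exact mem_insert _ _
  · refine Or.inr ⟨(m, b), ⟨?_, trivial⟩, rfl⟩
    have h1 := (newD_some hw).1
    have h2 := R_ge h0 hR m
    have h3 := hgt_ge ((Nat.cast_nonneg m).trans h2)
    have h4 : w.2 < n := hw'
    have : (m : ℝ) < n := by linarith
    exact_mod_cast this

theorem exists_annulus {R : ℕ → ℝ} (h0 : R 0 = 0) (hR : ∀ m, R m + 3 ≤ R (m + 1)) {m0 : ℕ}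
    {t : ℝ} (ht : R m0 < t) : ∃ m, m0 ≤ m ∧ R m < t ∧ t ≤ R (m + 1) := by
  classical
  have hex : ∃ m, t ≤ R (m0 + m + 1) := by
    obtain ⟨n, hn⟩ := exists_nat_ge t
    refine ⟨n, hn.trans (le_trans ?_ (R_ge h0 hR _))⟩
    exact_mod_cast (by omega : n ≤ m0 + n + 1)
  refine ⟨m0 + Nat.find hex, Nat.le_add_right _ _, ?_, Nat.find_spec hex⟩
  rcases h : Nat.find hex with _ | n
  · exact ht
  · exact not_le.1 (Nat.find_min hex (by omega : n < Nat.find hex))

theorem fuse {P : ℕ → Pic} (hP : ∀ m, (P m).Valid) {e : ℕ → ℕ → E2 → E2}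
    (he : ∀ i m, i ≤ m → Ext (P i) (P m) (e i m)) (hid : ∀ i x, e i i x = x)
    (hcomp : ∀ i m m' x, i ≤ m → m ≤ m' → e m m' (e i m x) = e i m' x)
    (h00 : ∃ x, x ∉ (P 0).H 1) (n0 : ℕ) {T : ℕ → Set E2} {k : ℕ → ℕ} {md : ℕ → Option ℝ}
    (hmd : ∀ m s, md m = some s → s ≤ 0 ∧ (s < 0 → k m = 0) ∧ (s = 0 → k m ≤ n0))
    (hT : ∀ m K, IsCompact K → ∃ x ∈ T m, x ∉ e m (m + 1) '' K ∧
      x ∉ Yset (P m) (P (m + 1)) (e m (m + 1)) (k m + 1)) :
    ∃ (Q : Pic) (f : ℕ → E2 → E2), Q.Valid ∧ (∀ i, Ext (P i) Q (f i)) ∧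
      (∀ i m x, i ≤ m → f m (e i m x) = f i x) ∧ (∀ z, z ∉ ray ↔ ∃ i x, f i x = z) ∧
      Q.lv 0 = n0 ∧ (∀ z ∈ ray, z ≠ 0 → Q.lv z = 0) ∧
      (∀ i j, 1 ≤ j → ∃ K, IsCompact K ∧ f i '' (P i).H j ⊆ interior (Q.H j) ∪ K) ∧
      ∀ m, ∃ x ∈ T m,
        (md m = none → f (m + 1) x ∉ Q.H (k m + 1) ∧ (m : ℝ) ≤ (f (m + 1) x).2) ∧
        ∀ s, md m = some s → -s ≤ m → dist (f (m + 1) x) (0, s) ≤ (|s| + 1) / (m + 1) := by
  classical
  have hK : ∀ i m j, ∃ K, IsCompact K ∧
      (i ≤ m → 1 ≤ j → e i m '' (P i).H j ⊆ (P m).H j ∪ K) := by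
    intro i m j
    by_cases h : i ≤ m ∧ 1 ≤ j
    · obtain ⟨K, h1, h2⟩ := (he i m h.1).bd j h.2
      exact ⟨K, h1, fun _ _ => h2⟩
    · exact ⟨∅, isCompact_empty, fun h1 h2 => (h ⟨h1, h2⟩).elim⟩
  choose K hK1 hK2 using hK
  let C : ℕ → Set E2 := fun m =>
    ⋃ i ∈ {i | i ≤ m}, (e i m '' closedBall 0 m ∪ ⋃ j ∈ {j | j ≤ m}, K i m j)
  have hC : ∀ m, IsCompact (C m) := fun m => (finite_le_nat m).isCompact_biUnion fun i hi =>
    ((isCompact_closedBall _ _).image (he i m hi).loc.emb.continuous).union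
      ((finite_le_nat m).isCompact_biUnion fun j _ => hK1 i m j)
  have hth := th_loc.emb
  let St : ℕ → Type := fun m =>
    {a : (E2 ≃ₜ E2) × ℝ // 0 ≤ a.2 ∧ ∀ x ∈ (P m).H 1, ‖a.1 x‖ ≠ a.2}
  have hstep : ∀ m (a : St m), ∃ (b : St (m + 1)) (n : ℕ), a.1.2 + 3 ≤ b.1.2 ∧
      (∀ x, ‖a.1.1 x‖ ≤ a.1.2 → b.1.1 (e m (m + 1) x) = a.1.1 x) ∧
      (∀ x ∈ C (m + 1), ‖b.1.1 x‖ < b.1.2) ∧
      (∃ x ∈ T m, b.1.1 x ∈ th ⁻¹' tgt (md m) a.1.2 ∧ ‖b.1.1 x‖ < b.1.2) ∧
      (∀ y ∈ Yset (P m) (P (m + 1)) (e m (m + 1)) 1, a.1.2 < ‖b.1.1 y‖ → ‖b.1.1 y‖ ≤ b.1.2 →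
        b.1.1 y ∈ th ⁻¹' ball (1, hgt a.1.2) (1 / 2) ∨ (b.1.1 y ∈ th ⁻¹' tgt (md m) a.1.2 ∧
          y ∉ Yset (P m) (P (m + 1)) (e m (m + 1)) (k m + 1))) ∧
      ∀ j, ∀ y ∈ Yset (P m) (P (m + 1)) (e m (m + 1)) j, ‖b.1.1 y‖ ≤ b.1.2 → j ≤ n := by
    intro m a
    obtain ⟨g', R', n, h1, h2, h3, h4, h5, h6, h7⟩ := step (hP m) (hP (m + 1))
      (he m (m + 1) (Nat.le_succ m)) a.1.1 a.2.1 a.2.2 (hC (m + 1)) (hT m)
      (isOpen_ball.preimage hth.continuous) ((tgt_open (md m) a.1.2).preimage hth.continuous)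
      (far_ne a.2.1 (σ := 1) (by simp)) (tgt_ne a.2.1 fun s hs => (hmd m s hs).1)
    exact ⟨⟨(g', R'), by linarith [a.2.1], h4⟩, n, h1, h2, h3, h5, h6, h7⟩
  choose nxt nn hnxt using hstep
  obtain ⟨x0, hx0⟩ := h00
  let a0 : St 0 := ⟨(Homeomorph.subRight x0, 0), le_rfl, fun x hx hn => by
    have : x = x0 := by simpa [sub_eq_zero] using hn
    exact hx0 (this ▸ hx)⟩
  let sq : ∀ m, St m := fun m => Nat.rec a0 nxt m
  let g : ℕ → E2 ≃ₜ E2 := fun m => (sq m).1.1
  let R : ℕ → ℝ := fun m => (sq m).1.2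
  let n : ℕ → ℕ := fun m => nn m (sq m)
  have hR0 : R 0 = 0 := rfl
  have hg0 : (g 0).symm 0 = x0 := by
    rw [Homeomorph.symm_apply_eq]
    exact (sub_self x0).symm
  have hR : ∀ m, R m + 3 ≤ R (m + 1) := fun m => (hnxt m (sq m)).1
  have h2 : ∀ m x, ‖g m x‖ ≤ R m → g (m + 1) (e m (m + 1) x) = g m x :=
    fun m => (hnxt m (sq m)).2.1
  have h3 : ∀ m, ∀ x ∈ C (m + 1), ‖g (m + 1) x‖ < R (m + 1) := fun m => (hnxt m (sq m)).2.2.1
  have h4 : ∀ m, ∃ x ∈ T m, g (m + 1) x ∈ th ⁻¹' tgt (md m) (R m) ∧ ‖g (m + 1) x‖ < R (m + 1) :=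
    fun m => (hnxt m (sq m)).2.2.2.1
  have h5 : ∀ m, ∀ y ∈ Yset (P m) (P (m + 1)) (e m (m + 1)) 1, R m < ‖g (m + 1) y‖ →
      ‖g (m + 1) y‖ ≤ R (m + 1) → g (m + 1) y ∈ th ⁻¹' ball (1, hgt (R m)) (1 / 2) ∨
        (g (m + 1) y ∈ th ⁻¹' tgt (md m) (R m) ∧
          y ∉ Yset (P m) (P (m + 1)) (e m (m + 1)) (k m + 1)) :=
    fun m => (hnxt m (sq m)).2.2.2.2.1
  have h6 : ∀ m j, ∀ y ∈ Yset (P m) (P (m + 1)) (e m (m + 1)) j,
      ‖g (m + 1) y‖ ≤ R (m + 1) → j ≤ n m := fun m => (hnxt m (sq m)).2.2.2.2.2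
  clear_value g R n
  have hRge := R_ge hR0 hR
  have hRle : ∀ a b, a ≤ b → R a ≤ R b := fun a b hab => by
    rcases hab.lt_or_eq with h | h
    · linarith [R_mono hR h]
    · rw [h]
  have hcp : ∀ m m' w, m ≤ m' → ‖w‖ ≤ R m → (g m').symm w = e m m' ((g m).symm w) := by
    intro m m' w hm hw
    induction m', hm using Nat.le_induction with
    | base => rw [hid]
    | succ m' hm ih =>
      rw [← hcomp m m' (m' + 1) _ hm (Nat.le_succ _), ← ih, Homeomorph.symm_apply_eq, h2,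
        Homeomorph.apply_symm_apply]
      rw [Homeomorph.apply_symm_apply]
      exact hw.trans (hRle _ _ hm)
  have hsmall : ∀ i m x, i ≤ m + 1 → ‖x‖ ≤ (m + 1 : ℕ) →
      ‖g (m + 1) (e i (m + 1) x)‖ < R (m + 1) := fun i m x hi hx =>
    h3 m _ (mem_iUnion₂.2 ⟨i, hi, Or.inl ⟨x, mem_closedBall_zero_iff.2 hx, rfl⟩⟩)
  let G : ℕ → E2 → E2 := fun i x => g (i + ⌈‖x‖⌉₊ + 1) (e i (i + ⌈‖x‖⌉₊ + 1) x)
  have hG0 : ∀ i x, ‖G i x‖ < R (i + ⌈‖x‖⌉₊ + 1) := fun i x =>
    hsmall i _ x (by omega) ((Nat.le_ceil _).trans (by exact_mod_cast (by omega)))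
  have hG1 : ∀ i m x, i ≤ m → ‖G i x‖ ≤ R m → (g m).symm (G i x) = e i m x := by
    intro i m x hi hx
    set m1 := i + ⌈‖x‖⌉₊ + 1 with hm1
    have e1 := hcp m (max m m1) _ (le_max_left _ _) hx
    have e2 := hcp m1 (max m m1) _ (le_max_right _ _) (hG0 i x).le
    have e3 : (g m1).symm (G i x) = e i m1 x := (g m1).symm_apply_apply _
    rw [e3, hcomp i m1 _ x (by omega) (le_max_right _ _), e1,
      ← hcomp i m _ x hi (le_max_left _ _)] at e2
    exact (he m _ (le_max_left _ _)).loc.emb.injective e2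
  have hG : ∀ i m x, i ≤ m → ‖g m (e i m x)‖ ≤ R m → G i x = g m (e i m x) := by
    intro i m x hi hx
    set m1 := i + ⌈‖x‖⌉₊ + 1 with hm1
    have e1 := hcp m (max m m1) _ (le_max_left _ _) hx
    have e2 := hG1 i (max m m1) x (hi.trans (le_max_left _ _))
      ((hG0 i x).le.trans (hRle _ _ (le_max_right _ _)))
    rw [(g m).symm_apply_apply, hcomp i m _ x hi (le_max_left _ _), ← e2] at e1
    exact ((g _).symm.injective e1).symm
  have hGs : ∀ m w, ‖w‖ ≤ R m → G m ((g m).symm w) = w := by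
    intro m w hw
    rw [hG m m _ le_rfl (by rwa [hid, Homeomorph.apply_symm_apply]), hid,
      Homeomorph.apply_symm_apply]
  have hGloc : ∀ i, LocExt (G i) := by
    intro i L hL
    obtain ⟨r, hr⟩ := hL.isBounded.subset_closedBall 0
    obtain ⟨m, hm⟩ := exists_nat_ge r
    obtain ⟨h, hh⟩ := (LocExt.homeo (g (i + m + 1))).comp (he i (i + m + 1) (by omega)).loc L hL
    refine ⟨h, fun x hx => ?_⟩
    rw [← hh hx]
    refine hG i _ x (by omega) (hsmall i _ x (by omega) ?_).le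
    have := mem_closedBall_zero_iff.1 (hr hx)
    push_cast
    linarith [(Nat.cast_nonneg i : (0 : ℝ) ≤ i)]
  have hGc : ∀ i m x, i ≤ m → G m (e i m x) = G i x := by
    intro i m x hi
    have e1 := hG0 m (e i m x)
    set m1 := m + ⌈‖e i m x‖⌉₊ + 1
    have e2 : G m (e i m x) = g m1 (e i m1 x) := by
      rw [← hcomp i m m1 x hi (by omega)]
    rw [e2] at e1 ⊢
    exact (hG i m1 x (by omega) e1.le).symm
  let L : E2 → ℕ := fun w => (P ⌈‖w‖⌉₊).lv ((g ⌈‖w‖⌉₊).symm w)
  have hceil : ∀ w : E2, ‖w‖ ≤ R ⌈‖w‖⌉₊ := fun w => (Nat.le_ceil _).trans (hRge _)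
  have hL : ∀ m w, ‖w‖ ≤ R m → L w = (P m).lv ((g m).symm w) := by
    intro m w hw
    have e1 := hcp m (max m ⌈‖w‖⌉₊) w (le_max_left _ _) hw
    have e2 := hcp ⌈‖w‖⌉₊ (max m ⌈‖w‖⌉₊) w (le_max_right _ _) (hceil w)
    rw [← (he m _ (le_max_left m ⌈‖w‖⌉₊)).lv, ← e1, e2, (he _ _ (le_max_right m ⌈‖w‖⌉₊)).lv]
  let Q : Pic := ⟨Function.extend th L fun z => if z = 0 then n0 else 0, newD R,
    fun i => match i with
      | none => n0
      | some (m, true) => n m
      | some (m, false) => k m⟩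
  have hQth : ∀ w, Q.lv (th w) = L w := fun w =>
    hth.injective.extend_apply L (fun z => if z = 0 then n0 else 0) w
  have hQray : ∀ z ∈ ray, Q.lv z = if z = 0 then n0 else 0 := fun z hz =>
    Function.extend_apply' L (fun z => if z = 0 then n0 else 0) z
      fun h => (range_th ▸ (h : z ∈ range th) : z ∈ rayᶜ) hz
  have hQG : ∀ i x, Q.lv (th (G i x)) = (P i).lv x := by
    intro i x
    rw [hQth, hL _ _ (hG0 i x).le, hG1 i _ x (by omega) (hG0 i x).le, (he i _ (by omega)).lv]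
  let J : ℕ → Set E2 := fun j => {z | 1 ≤ z.2 ∨ (j ≤ n0 ∧ 0 ≤ z.2)}
  have hJc : ∀ j, IsClosed (J j) := fun j =>
    (isClosed_le continuous_const continuous_snd).union
      ((isClosed_const).inter (isClosed_le continuous_const continuous_snd))
  have hJray : ∀ j, ∀ z ∈ ray, Q.lv z < j → z ∉ J j := by
    rintro j z hz hl (h | h)
    · linarith [hz.2]
    · have : z = 0 := Prod.ext hz.1 (le_antisymm hz.2 h.2)
      rw [hQray z hz, if_pos this] at hl
      omega
  have hloc : ∀ j, 1 ≤ j → ∀ m, ∀ y ∈ Yset (P m) (P (m + 1)) (e m (m + 1)) j,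
      R m < ‖g (m + 1) y‖ → ‖g (m + 1) y‖ ≤ R (m + 1) →
      th (g (m + 1) y) ∈ interior (Q.H j) ∩ J j := by
    intro j hj m y hy a1 a2
    have hh := hgt_ge ((Nat.cast_nonneg m).trans (hRge m))
    have hRm : 0 ≤ R m := (Nat.cast_nonneg m).trans (hRge m)
    rcases h5 m y (Yset_anti _ _ _ hj hy) a1 a2 with h | ⟨h, hy'⟩
    · refine ⟨interior_maximal (s := Q.H j) (fun z hz => ⟨some (m, true), h6 m j y hy a2,
        ball_subset_closedBall hz⟩) isOpen_ball h, Or.inl ?_⟩
      linarith [(mem_cb (ball_subset_closedBall h)).2.2.1]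
    · have hjk : j ≤ k m := by
        by_contra hc
        exact hy' (Yset_anti _ _ _ (by omega) hy)
      rcases hm : md m with _ | s
      · rw [hm] at h
        refine ⟨interior_maximal (s := Q.H j) (fun z hz => ⟨some (m, false), hjk,
          ball_subset_closedBall hz⟩) isOpen_ball h, Or.inl ?_⟩
        linarith [(mem_cb (ball_subset_closedBall h)).2.2.1]
      · rw [hm] at h
        obtain ⟨b1, b2, b3⟩ := hmd m s hm
        have hs : s = 0 := by
          by_contra hc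
          have := b2 (lt_of_le_of_ne b1 hc)
          omega
        subst hs
        have hj0 : j ≤ n0 := hjk.trans (b3 rfl)
        have b4 : max (0 : ℝ) (-(R m + 2)) = 0 := max_eq_left (by linarith)
        simp only [tgt, b4, abs_zero, zero_add, mem_preimage] at h
        refine ⟨interior_maximal (s := Q.H j) (fun z hz => ⟨none, hj0, ball_subset_closedBall hz⟩)
          isOpen_ball (ball_subset_ball ?_ h.1), Or.inr ⟨hj0, le_of_lt h.2⟩⟩
        rw [div_le_one (by linarith)]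
        linarith
  have hH : ∀ i j, 1 ≤ j → (th ∘ G i) '' (P i).H j ⊆
      (interior (Q.H j) ∩ J j) ∪ th '' closedBall 0 (R (i + j + 1)) := by
    rintro i j hj _ ⟨x, hx, rfl⟩
    by_cases hw : ‖G i x‖ ≤ R (i + j + 1)
    · exact Or.inr ⟨_, mem_closedBall_zero_iff.2 hw, rfl⟩
    obtain ⟨m, hm, a1, a2⟩ := exists_annulus hR0 hR (not_le.1 hw)
    have e1 : G i x = g (m + 1) (e i (m + 1) x) := by
      rw [← hG1 i (m + 1) x (by omega) a2, Homeomorph.apply_symm_apply]
    left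
    simp only [Function.comp]
    rw [e1] at a1 a2 ⊢
    refine hloc j hj m _ ?_ a1 a2
    rw [← hcomp i m (m + 1) x (by omega) (Nat.le_succ m)]
    rcases hK2 i m j (by omega) hj ⟨x, hx, rfl⟩ with h | h
    · exact Or.inl ⟨_, h, rfl⟩
    · exfalso
      obtain ⟨m', rfl⟩ : ∃ m', m = m' + 1 := ⟨m - 1, by omega⟩
      have a3 := h3 m' _ (mem_iUnion₂.2 ⟨i, (by omega : i ≤ m' + 1),
        Or.inr (mem_iUnion₂.2 ⟨j, (by omega : j ≤ m' + 1), h⟩)⟩)
      rw [← e1, hG i (m' + 1) x (by omega) a3.le] at a1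
      linarith
  have hF : ∀ j, 1 ≤ j → ∀ w, j ≤ Q.lv (th w) → th w ∈ interior (Q.H j) ∩ J j := by
    intro j hj w hw
    rw [hQth] at hw
    by_cases h0 : w = 0
    · exfalso
      rw [h0, hL 0 0 (by simp [hR0]), hg0] at hw
      exact hx0 ((hP 0).mem_H le_rfl (hj.trans hw))
    obtain ⟨m, -, a1, a2⟩ := exists_annulus hR0 hR (m0 := 0) (t := ‖w‖)
      (by rw [hR0]; exact norm_pos_iff.2 h0)
    rw [hL (m + 1) w a2] at hw
    have := hloc j hj m ((g (m + 1)).symm w) (Or.inr hw)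
    rw [Homeomorph.apply_symm_apply] at this
    exact this a1 a2
  have hcases : ∀ z : E2, z ∈ ray ∨ ∃ w, th w = z := fun z => by
    by_cases h : z ∈ ray
    · exact Or.inl h
    · exact Or.inr (range_th.symm ▸ h : z ∈ range th)
  have hFJ : ∀ j, 1 ≤ j → ∀ z, j ≤ Q.lv z → z ∈ Q.H j ∩ J j := by
    intro j hj z hz
    rcases hcases z with h | ⟨w, rfl⟩
    · rw [hQray z h] at hz
      split_ifs at hz with h0
      · subst h0
        exact ⟨⟨none, hz, mem_closedBall_self zero_le_one⟩, Or.inr ⟨hz, le_rfl⟩⟩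
      · omega
    · exact ⟨interior_subset (hF j hj w hz).1, (hF j hj w hz).2⟩
  have hfloc : ∀ i, LocExt (th ∘ G i) := fun i => th_loc.comp (hGloc i)
  refine ⟨Q, fun i => th ∘ G i, ⟨?_, newD_disj hR0 hR, newD_lf hR0 hR, ?_, ?_, ?_⟩,
    fun i => ⟨hfloc i, hQG i, fun j hj => ?_, fun j hj z hz hl => ?_⟩,
    fun i m x hi => congrArg th (hGc i m x hi), fun z => ?_, ?_, fun z hz h0 => ?_,
    fun i j hj => ?_, fun m => ?_⟩
  · rintro (_ | ⟨m, _ | _⟩) <;> exact Cell.closedBall _ _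
  · refine ((countable_iUnion fun m => (hP m).cnt.image (th ∘ G m)).insert 0).mono ?_
    intro z hz
    rcases hcases z with h | ⟨w, rfl⟩
    · left
      by_contra h0
      simp only [mem_ofPred_eq, hQray z h, if_neg h0] at hz
      omega
    · refine Or.inr (mem_iUnion.2 ⟨⌈‖w‖⌉₊, (g _).symm w, ?_, congrArg th (hGs _ w (hceil w))⟩)
      simpa only [mem_ofPred_eq, hQth] using hz
  · intro j
    rcases Nat.eq_zero_or_pos j with rfl | hj
    · simp
    rw [← isOpen_compl_iff, isOpen_iff_mem_nhds]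
    intro z hz
    have hz' : Q.lv z < j := not_le.1 hz
    rcases hcases z with h | ⟨w, rfl⟩
    · filter_upwards [(hJc j).isOpen_compl.mem_nhds (hJray j z h hz')] with y hy hy'
      exact hy (hFJ j hj y hy').2
    · have e1 := hGs _ w (hceil w)
      set m := ⌈‖w‖⌉₊
      have a1 : (g m).symm w ∈ {x | j ≤ (P m).lv x}ᶜ := by
        rw [← e1, hQG] at hz'
        exact not_le.2 hz'
      have a2 := (hfloc m).emb.isOpenMap.image_mem_nhds
        (((hP m).cl j).isOpen_compl.mem_nhds a1)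
      simp only [Function.comp, e1] at a2
      filter_upwards [a2]
      rintro _ ⟨x, hx, rfl⟩
      simpa only [mem_compl_iff, mem_ofPred_eq, hQG] using hx
  · exact fun z hz => (hFJ _ hz z le_rfl).1
  · refine ⟨_, (isCompact_closedBall 0 (R (i + j + 1))).image hth.continuous,
      (hH i j hj).trans (union_subset_union_left _ fun z hz => interior_subset hz.1)⟩
  · rcases hcases z with h | ⟨w, rfl⟩
    · intro hc
      have a1 := closure_mono ((hH i j hj).trans (union_subset_union_left _ inter_subset_right)) hc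
      rw [((hJc j).union ((isCompact_closedBall 0 _).image hth.continuous).isClosed).closure_eq]
        at a1
      rcases a1 with a1 | a1
      · exact hJray j z h hl a1
      · exact (range_th ▸ image_subset_range _ _ a1 : z ∈ rayᶜ) h
    · intro hc
      rw [image_comp] at hc
      have a1 := closure_image_mem hth hc
      obtain ⟨m', hm'⟩ := exists_nat_gt ‖w‖
      have a2 : ‖w‖ < R (i + m') := hm'.trans_le (le_trans (by
        exact_mod_cast (by omega : m' ≤ i + m')) (hRge _))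
      set m := i + m'
      refine (he i m (by omega)).new j hj ((g m).symm w) ?_ ?_ ?_
      · rintro ⟨x, hx⟩
        refine hz ⟨x, congrArg th ?_⟩
        have a3 : g m (e i m x) = w := by rw [hx, Homeomorph.apply_symm_apply]
        rw [hG i m x (by omega) (by rw [a3]; exact a2.le), a3]
      · rwa [hQth, hL m w a2.le] at hl
      · have a3 : w ∈ closure (ball 0 (R m) ∩ G i '' (P i).H j) :=
          isOpen_ball.inter_closure ⟨mem_ball_zero_iff.2 a2, a1⟩
        refine closure_mono ?_ (image_closure_subset_closure_image (g m).symm.continuous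
          ⟨w, a3, rfl⟩)
        rintro _ ⟨_, ⟨a4, x, hx, rfl⟩, rfl⟩
        exact ⟨x, hx, (hG1 i m x (by omega) (mem_ball_zero_iff.1 a4).le).symm⟩
  · constructor
    · intro hz
      obtain ⟨w, rfl⟩ := (hcases z).resolve_left hz
      exact ⟨_, _, congrArg th (hGs _ w (hceil w))⟩
    · rintro ⟨i, x, rfl⟩
      exact (range_th ▸ mem_range_self _ : th (G i x) ∈ rayᶜ)
  · rw [hQray 0 ⟨rfl, le_rfl⟩, if_pos rfl]
  · rw [hQray z hz, if_neg h0]
  · refine ⟨_, (isCompact_closedBall 0 (R (i + j + 1))).image hth.continuous,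
      (hH i j hj).trans (union_subset_union_left _ inter_subset_left)⟩
  · obtain ⟨x, hx, a1, a2⟩ := h4 m
    have e1 : G (m + 1) x = g (m + 1) x := by
      rw [hG (m + 1) (m + 1) x le_rfl (by rw [hid]; exact a2.le), hid]
    refine ⟨x, hx, fun hm => ?_, fun s hm hs => ?_⟩
    · rw [hm, ← e1] at a1
      have a3 : th (G (m + 1) x) ∈ newD R (some (m, false)) := ball_subset_closedBall a1
      refine ⟨?_, ?_⟩
      · rintro ⟨i, hi, a4⟩
        by_cases hii : i = some (m, false)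
        · subst hii
          exact absurd hi (by simp [Q])
        · exact disjoint_left.1 (newD_disj hR0 hR _ _ hii) a4 a3
      · have := (newD_some a3).1
        have hh := hgt_ge ((Nat.cast_nonneg m).trans (hRge m))
        simp only [Function.comp]
        linarith [hRge m]
    · rw [hm, ← e1] at a1
      have b4 : max s (-(R m + 2)) = s := max_eq_left (by linarith [hRge m])
      simp only [tgt, b4, mem_preimage] at a1
      refine (mem_ball.1 a1.1).le.trans ?_
      exact div_le_div_of_nonneg_left (by positivity) (by positivity) (by linarith [hRge m])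

end Pool.Agent.Lib.MP_db8568_gt
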