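import Pool.Agent.Lib.MP_db8568_gt.Homeo

/-!
Sorting a tame closed set inside a connected open set into two target regions.
-/

namespace Pool.Agent.Lib.MP_db8568_gt

open Set Topology Metric

/-- grid values -/
def gl (x0 δ : ℝ) : Set ℝ := {t | ∃ n : ℤ, t = x0 + n * δ}

/-- centre of a grid interval -/
noncomputable def gc (x0 δ : ℝ) (n : ℤ) : ℝ := x0 + (n + 1 / 2) * δ

theorem gl_countable (x0 δ : ℝ) : (gl x0 δ).Countable := by
  have : gl x0 δ = range fun n : ℤ => x0 + n * δ := by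
    ext t; simp [gl, eq_comm]
  rw [this]
  exact countable_range _

theorem gl_closed (x0 : ℝ) {δ : ℝ} (hδ : 0 < δ) : IsClosed (gl x0 δ) := by
  have : gl x0 δ = (fun t => (t - x0) / δ) ⁻¹' range (Int.cast : ℤ → ℝ) := by
    ext t
    simp only [gl, mem_ofPred_eq, mem_preimage, mem_range]
    constructor
    · rintro ⟨n, rfl⟩
      exact ⟨n, by field_simp; ring⟩
    · rintro ⟨n, hn⟩
      refine ⟨n, ?_⟩
      rw [hn]; field_simp; ring
  rw [this]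
  exact Int.isClosedEmbedding_coe_real.isClosed_range.preimage (by fun_prop)

theorem gl_lt {x0 δ t : ℝ} (hδ : 0 < δ) {n : ℤ} (h : |t - gc x0 δ n| ≤ δ / 2)
    (ht : t ∉ gl x0 δ) : |t - gc x0 δ n| < δ / 2 := by
  refine lt_of_le_of_ne h fun he => ht ?_
  rcases (abs_eq (by positivity)).1 he with h1 | h1
  · exact ⟨n + 1, by simp only [gc] at h1; push_cast; linarith⟩
  · exact ⟨n, by simp only [gc] at h1; linarith⟩

theorem gl_floor {x0 δ t : ℝ} (hδ : 0 < δ) : |t - gc x0 δ ⌊(t - x0) / δ⌋| ≤ δ / 2 := by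
  have h1 := Int.floor_le ((t - x0) / δ)
  have h2 := Int.lt_floor_add_one ((t - x0) / δ)
  rw [le_div_iff₀ hδ] at h1
  rw [div_lt_iff₀ hδ] at h2
  rw [abs_le]
  simp only [gc]
  constructor <;> nlinarith

theorem gl_eq {x0 δ t : ℝ} (hδ : 0 < δ) {n m : ℤ} (h : |t - gc x0 δ n| < δ / 2)
    (h' : |t - gc x0 δ m| < δ / 2) : n = m := by
  rw [abs_lt] at h h'
  simp only [gc] at h h'
  have h1 : (n : ℝ) < m + 1 := by
    by_contra hc
    have := mul_le_mul_of_nonneg_right (not_lt.1 hc) hδ.le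
    nlinarith
  have h2 : (m : ℝ) < n + 1 := by
    by_contra hc
    have := mul_le_mul_of_nonneg_right (not_lt.1 hc) hδ.le
    nlinarith
  have h3 : n < m + 1 := by exact_mod_cast h1
  have h4 : m < n + 1 := by exact_mod_cast h2
  omega

theorem gl_not {x0 δ t : ℝ} (hδ : 0 < δ) {n : ℤ} (h : |t - gc x0 δ n| < δ / 2) :
    t ∉ gl x0 δ := by
  rintro ⟨m, rfl⟩
  rw [abs_lt] at h
  simp only [gc] at h
  have h1 : (n : ℝ) < m := by
    by_contra hc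
    have := mul_le_mul_of_nonneg_right (not_lt.1 hc) hδ.le
    nlinarith
  have h2 : (m : ℝ) < n + 1 := by
    by_contra hc
    have := mul_le_mul_of_nonneg_right (not_lt.1 hc) hδ.le
    nlinarith
  have h3 : n < m := by exact_mod_cast h1
  have h4 : m < n + 1 := by exact_mod_cast h2
  omega

theorem exists_generic {T : Set ℝ} (hT : T.Countable) (δ : ℝ) : ∃ x0, ∀ t ∈ T, t ∉ gl x0 δ := by
  have h1 : (⋃ t ∈ T, gl t (-δ)).Countable := hT.biUnion fun t _ => gl_countable _ _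
  obtain ⟨x0, hx0⟩ := (h1.dense_compl ℝ).nonempty
  refine ⟨x0, fun t ht ⟨n, hn⟩ => hx0 (mem_iUnion₂.2 ⟨t, ht, n, ?_⟩)⟩
  rw [hn]; ring

theorem finite_meet {ι : Type} {D : ι → Set E2} {K : Set E2} (hK : IsCompact K)
    (h : ∀ x ∈ K, ∃ N ∈ 𝓝 x, {i | (D i ∩ N).Nonempty}.Finite) :
    {i | (D i ∩ K).Nonempty}.Finite := by
  refine hK.induction_on (p := fun S => {i | (D i ∩ S).Nonempty}.Finite) (by simp) ?_ ?_ ?_
  · intro S T hST hT
    exact hT.subset fun i hi => hi.mono (inter_subset_inter_right _ hST)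
  · intro S T hS hT
    refine (hS.union hT).subset fun i hi => ?_
    obtain ⟨x, hx, h1 | h1⟩ := hi
    · exact Or.inl ⟨x, hx, h1⟩
    · exact Or.inr ⟨x, hx, h1⟩
  · intro x hx
    obtain ⟨N, hN, hf⟩ := h x hx
    exact ⟨N, mem_nhdsWithin_of_mem_nhds hN, hf⟩

/-- a compact set off a grid is moved square by square -/
theorem move_grid {V Z N O₁ O₂ : Set E2} {x0 δ : ℝ} (hδ : 0 < δ) (hV : IsOpen V)
    (hVc : IsPreconnected V) (hZ : IsCompact Z) (hZN : Z ⊆ N)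
    (hNV : cthickening δ N ⊆ V) (hZg : ∀ z ∈ Z, z.1 ∉ gl x0 δ ∧ z.2 ∉ gl x0 δ) (κ₀ : ℤ × ℤ)
    (hO₁ : IsOpen O₁) (hO₂ : IsOpen O₂) (h1 : (O₁ ∩ V).Nonempty) (h2 : (O₂ ∩ V).Nonempty) :
    ∃ u : E2 ≃ₜ E2, Supp u V ∧ ∀ z ∈ Z,
      (z ∈ ball ((gc x0 δ κ₀.1, gc x0 δ κ₀.2) : E2) (δ / 2) → u z ∈ O₂) ∧
      (z ∉ ball ((gc x0 δ κ₀.1, gc x0 δ κ₀.2) : E2) (δ / 2) → u z ∈ O₁) := by
  classical
  let c : ℤ × ℤ → E2 := fun κ => (gc x0 δ κ.1, gc x0 δ κ.2)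
  have hb : ∀ κ z, z ∈ ball (c κ) (δ / 2) ↔
      |z.1 - gc x0 δ κ.1| < δ / 2 ∧ |z.2 - gc x0 δ κ.2| < δ / 2 := by
    intro κ z
    rw [mem_ball, Prod.dist_eq, max_lt_iff, Real.dist_eq, Real.dist_eq]
  have hcb : ∀ κ z, z ∈ closedBall (c κ) (δ / 2) ↔
      |z.1 - gc x0 δ κ.1| ≤ δ / 2 ∧ |z.2 - gc x0 δ κ.2| ≤ δ / 2 := by
    intro κ z
    rw [mem_closedBall, Prod.dist_eq, max_le_iff, Real.dist_eq, Real.dist_eq]
  have hcov : ∀ z ∈ Z, ∃ κ, z ∈ ball (c κ) (δ / 2) := fun z hz =>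
    ⟨(⌊(z.1 - x0) / δ⌋, ⌊(z.2 - x0) / δ⌋), (hb _ _).2
      ⟨gl_lt hδ (gl_floor hδ) (hZg z hz).1, gl_lt hδ (gl_floor hδ) (hZg z hz).2⟩⟩
  have huniq : ∀ κ κ' z, z ∈ ball (c κ) (δ / 2) → z ∈ ball (c κ') (δ / 2) → κ = κ' := by
    intro κ κ' z h h'
    rw [hb] at h h'
    exact Prod.ext (gl_eq hδ h.1 h'.1) (gl_eq hδ h.2 h'.2)
  have hr : ∀ κ, ∃ r < δ / 2, Z ∩ closedBall (c κ) (δ / 2) ⊆ ball (c κ) r := by
    intro κ
    refine exists_lt_subset_ball (hZ.isClosed.inter isClosed_closedBall) fun z hz => ?_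
    have := (hcb κ z).1 hz.2
    exact (hb κ z).2 ⟨gl_lt hδ this.1 (hZg z hz.1).1, gl_lt hδ this.2 (hZg z hz.1).2⟩
  choose r hr1 hr2 using hr
  obtain ⟨s0, hs0⟩ := hZ.elim_finite_subcover (fun κ => ball (c κ) (δ / 2))
    (fun _ => isOpen_ball) (fun z hz => mem_iUnion.2 (hcov z hz))
  let s := s0.filter fun κ => (Z ∩ ball (c κ) (δ / 2)).Nonempty
  have hin : ∀ κ z, z ∈ Z → z ∈ ball (c κ) (δ / 2) → z ∈ closedBall (c κ) (r κ) :=
    fun κ z hz hz' => ball_subset_closedBall (hr2 κ ⟨hz, ball_subset_closedBall hz'⟩)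
  obtain ⟨u, hu, hu2⟩ := move_cells s (fun κ => closedBall (c κ) (r κ))
    (fun κ => if κ = κ₀ then O₂ else O₁) hV hVc (fun κ _ => Cell.closedBall _ _)
    (fun κ hκ => by
      obtain ⟨z, hz, hz'⟩ := (Finset.mem_filter.1 hκ).2
      exact ⟨z, hin κ z hz hz'⟩)
    (fun κ hκ w hw => by
      obtain ⟨z, hz, hz'⟩ := (Finset.mem_filter.1 hκ).2
      refine hNV (mem_cthickening_of_dist_le w z δ N (hZN hz) ?_)
      have h3 := dist_triangle_right w z (c κ)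
      have h4 := mem_closedBall.1 hw
      have h5 := mem_ball.1 hz'
      have := hr1 κ
      linarith)
    (fun κ _ => by split_ifs <;> assumption) (fun κ _ => by split_ifs <;> assumption)
    (fun κ _ κ' _ hne => disjoint_left.2 fun z hz hz' => hne (huniq κ κ' z
      (closedBall_subset_ball (hr1 κ) hz) (closedBall_subset_ball (hr1 κ') hz')))
  refine ⟨u, hu, fun z hz => ?_⟩
  obtain ⟨κ, hκ, hzκ⟩ := mem_iUnion₂.1 (hs0 hz)
  have h3 := hu2 κ (Finset.mem_filter.2 ⟨hκ, z, hz, hzκ⟩) (hin κ z hz hzκ)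
  constructor
  · intro h
    obtain rfl := huniq κ κ₀ z hzκ h
    simpa using h3
  · intro h
    have : κ ≠ κ₀ := by rintro rfl; exact h hzκ
    simpa [this] using h3

theorem sort_cells {ι : Type} {V F Y Y' O₁ O₂ : Set E2} {D : ι → Set E2} {a : E2}
    (hV : IsOpen V) (hVc : IsPreconnected V) (hVb : IsCompact (closure V))
    (hF : F.Countable) (hD : ∀ i, Cell (D i)) (hdisj : ∀ i j, i ≠ j → Disjoint (D i) (D j))
    (hlf : ∀ x, x ∉ F → ∃ N ∈ 𝓝 x, {i | (D i ∩ N).Nonempty}.Finite)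
    (hY : Y = F ∪ ⋃ i, D i) (hYc : IsClosed Y)
    (hiso : ∀ i, ∃ U, IsOpen U ∧ D i ⊆ U ∧ U ∩ Y ⊆ D i)
    (hfr : ∀ y ∈ Y, y ∈ closure V → y ∈ V)
    (hY'c : IsClosed Y') (hsat : ∀ i, (D i ∩ Y').Nonempty → D i ⊆ Y')
    (ha : a ∈ V) (haY : a ∉ Y')
    (hO₁ : IsOpen O₁) (hO₂ : IsOpen O₂) (h1 : (O₁ ∩ V).Nonempty) (h2 : (O₂ ∩ V).Nonempty) :
    ∃ u : E2 ≃ₜ E2, Supp u V ∧ u a ∈ O₂ ∧
      ∀ y ∈ Y, y ∈ V → (u y ∈ O₁ ∨ (u y ∈ O₂ ∧ y ∉ Y')) := by
  classical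
  have hDY : ∀ i, D i ⊆ Y := fun i x hx => hY ▸ Or.inr (mem_iUnion.2 ⟨i, hx⟩)
  let Z := insert a (Y ∩ closure V)
  have hZ : IsCompact Z := (hVb.inter_left hYc).insert a
  have hZV : Z ⊆ V := insert_subset ha fun y hy => hfr y hy.1 hy.2
  obtain ⟨N, hN, hZN, hNV⟩ := exists_compact_between hZ hV hZV
  obtain ⟨δ₁, hδ₁, hδ₁V⟩ := hN.exists_cthickening_subset_open hV hNV
  obtain ⟨δ₂, hδ₂, hδ₂Y⟩ := Metric.isOpen_iff.1 hY'c.isOpen_compl a haY
  let δ := min δ₁ (δ₂ / 2)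
  have hδ : 0 < δ := lt_min hδ₁ (by positivity)
  obtain ⟨x0, hx0⟩ := exists_generic (T := Prod.fst '' insert a F ∪ Prod.snd '' insert a F)
    (((hF.insert a).image _).union ((hF.insert a).image _)) δ
  let G : Set E2 := (gl x0 δ)ᶜ ×ˢ (gl x0 δ)ᶜ
  have hGo : IsOpen G := (gl_closed x0 hδ).isOpen_compl.prod (gl_closed x0 hδ).isOpen_compl
  have hGd : Dense G := ((gl_countable x0 δ).dense_compl ℝ).prod ((gl_countable x0 δ).dense_compl ℝ)
  have hFG : ∀ z ∈ insert a F, z ∈ G := fun z hz =>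
    ⟨hx0 _ (Or.inl ⟨z, hz, rfl⟩), hx0 _ (Or.inr ⟨z, hz, rfl⟩)⟩
  let κ₀ : ℤ × ℤ := (⌊(a.1 - x0) / δ⌋, ⌊(a.2 - x0) / δ⌋)
  let c : E2 := (gc x0 δ κ₀.1, gc x0 δ κ₀.2)
  have hb : ∀ z, z ∈ ball c (δ / 2) ↔
      |z.1 - gc x0 δ κ₀.1| < δ / 2 ∧ |z.2 - gc x0 δ κ₀.2| < δ / 2 := by
    intro z
    rw [mem_ball, Prod.dist_eq, max_lt_iff, Real.dist_eq, Real.dist_eq]
  have hac : a ∈ ball c (δ / 2) := (hb a).2
    ⟨gl_lt hδ (gl_floor hδ) (hFG a (mem_insert _ _)).1,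
      gl_lt hδ (gl_floor hδ) (hFG a (mem_insert _ _)).2⟩
  have hbG : ball c (δ / 2) ⊆ G := fun z hz =>
    ⟨gl_not hδ ((hb z).1 hz).1, gl_not hδ ((hb z).1 hz).2⟩
  have hcY : ∀ z ∈ closedBall c (δ / 2), z ∉ Y' := by
    intro z hz
    refine hδ₂Y (mem_ball.2 ?_)
    have h3 := dist_triangle_right z a c
    have h4 := mem_closedBall.1 hz
    have h5 := mem_ball.1 hac
    have h6 : δ ≤ δ₂ / 2 := min_le_right _ _
    linarith
  have hI : {i | (D i ∩ (N \ G)).Nonempty}.Finite :=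
    finite_meet (hN.diff hGo) fun x hx => hlf x fun hxF => hx.2 (hFG x (mem_insert_of_mem _ hxF))
  have hDZ : ∀ i, (D i ∩ V).Nonempty → D i ⊆ Z := by
    intro i ⟨x, hx, hxV⟩ y hy
    refine Or.inr ⟨hDY i hy, ?_⟩
    by_contra hyV
    obtain ⟨z, -, hz1, hz2⟩ := (hD i).conn V (closure V)ᶜ hV isClosed_closure.isOpen_compl
      (fun z hz => by
        by_cases h : z ∈ closure V
        · exact Or.inl (hfr z (hDY i hz) h)
        · exact Or.inr h) ⟨x, hx, hxV⟩ ⟨y, hy, hyV⟩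
    exact hz2 (subset_closure hz1)
  choose W hW1 hW2 hW3 using hiso
  let I := hI.toFinset
  have hImem : ∀ i, i ∈ I ↔ (D i ∩ (N \ G)).Nonempty := fun i => hI.mem_toFinset
  let U : Set E2 := (interior N ∩ ⋃ i ∈ I, W i) \ ({a} \ ⋃ i ∈ I, D i)
  have hU : IsOpen U := (isOpen_interior.inter (isOpen_biUnion fun i _ => hW1 i)).sdiff
    ((finite_singleton a).subset sdiff_subset).isClosed
  let O : ι → Set E2 := fun i =>
    if (D i ∩ closedBall c (δ / 2)).Nonempty then ball c (δ / 2) else G \ closedBall c (δ / 2)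
  have hOG : ∀ i, O i ⊆ G := fun i => by
    simp only [O]
    split_ifs
    · exact hbG
    · exact sdiff_subset
  obtain ⟨g, hg, hg2⟩ := shrink_many I D O (fun i _ => hD i)
    (fun i _ => by
      simp only [O]
      split_ifs
      · exact isOpen_ball
      · exact hGo.sdiff isClosed_closedBall)
    (fun i hi => by
      simp only [O]
      split_ifs with h
      · rw [closure_ball c (by positivity : δ / 2 ≠ 0), inter_comm]
        exact h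
      · obtain ⟨x, hx, -⟩ := (hImem i).1 hi
        refine ⟨x, ?_, hx⟩
        have h3 : x ∈ (closedBall c (δ / 2))ᶜ := fun h' => h ⟨x, hx, h'⟩
        have := hGd.open_subset_closure_inter isClosed_closedBall.isOpen_compl h3
        rwa [inter_comm] at this)
    (fun i _ j _ hij => hdisj i j hij) U hU
    (fun i hi x hx => by
      obtain ⟨y, hy, hyN⟩ := (hImem i).1 hi
      refine ⟨⟨hZN (hDZ i ⟨y, hy, hNV hyN.1⟩ hx), mem_iUnion₂.2 ⟨i, hi, hW2 i hx⟩⟩, fun h => ?_⟩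
      exact h.2 (mem_iUnion₂.2 ⟨i, hi, hx⟩))
  have hfix : ∀ z ∈ Z, (∀ i ∈ I, z ∉ D i) → g z = z := by
    intro z hz hzI
    refine hg.fix fun hzU => ?_
    rcases hz with rfl | hz
    · exact hzU.2 ⟨rfl, fun h => by
        obtain ⟨i, hi, h⟩ := mem_iUnion₂.1 h
        exact hzI i hi h⟩
    · obtain ⟨i, hi, h⟩ := mem_iUnion₂.1 hzU.1.2
      exact hzI i hi (hW3 i ⟨h, hz.1⟩)
  have hgN : ∀ z ∈ Z, g z ∈ N := fun z hz =>
    (hg.mono (fun x hx => interior_subset hx.1.1)).mem_iff.2 (interior_subset (hZN hz))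
  have hgG : ∀ z ∈ Z, g z ∈ G := by
    intro z hz
    by_cases h : ∃ i ∈ I, z ∈ D i
    · obtain ⟨i, hi, h⟩ := h
      exact hOG i (hg2 i hi h)
    · push Not at h
      rw [hfix z hz h]
      have hzN : z ∈ N := interior_subset (hZN hz)
      rcases hz with rfl | hz
      · exact hFG _ (mem_insert _ _)
      · rcases hY ▸ hz.1 with h3 | h3
        · exact hFG _ (mem_insert_of_mem _ h3)
        · obtain ⟨i, h3⟩ := mem_iUnion.1 h3
          by_contra h4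
          exact h i ((hImem i).2 ⟨z, h3, hzN, h4⟩) h3
  obtain ⟨u, hu, hu2⟩ := move_grid (Z := g '' Z) (N := N) hδ hV hVc (hZ.image g.continuous)
    (by rintro _ ⟨z, hz, rfl⟩; exact hgN z hz)
    ((cthickening_mono (min_le_left _ _) N).trans hδ₁V)
    (by rintro _ ⟨z, hz, rfl⟩; exact hgG z hz) κ₀ hO₁ hO₂ h1 h2
  refine ⟨g.trans u, (hg.mono fun x hx => hNV (interior_subset hx.1.1)).trans hu, ?_, ?_⟩
  · refine (hu2 _ ⟨a, mem_insert _ _, rfl⟩).1 ?_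
    by_cases h : ∃ i ∈ I, a ∈ D i
    · obtain ⟨i, hi, h⟩ := h
      have h3 := hg2 i hi h
      simp only [O] at h3
      rwa [if_pos ⟨a, h, ball_subset_closedBall hac⟩] at h3
    · push Not at h
      rw [hfix a (mem_insert _ _) h]
      exact hac
  · intro y hy hyV
    have hyZ : y ∈ Z := Or.inr ⟨hy, subset_closure hyV⟩
    by_cases h3 : g y ∈ ball c (δ / 2)
    · refine Or.inr ⟨(hu2 _ ⟨y, hyZ, rfl⟩).1 h3, fun hyY => ?_⟩
      by_cases h : ∃ i ∈ I, y ∈ D i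
      · obtain ⟨i, hi, h⟩ := h
        have h4 := hg2 i hi h
        simp only [O] at h4
        rw [if_neg] at h4
        · exact h4.2 (ball_subset_closedBall h3)
        · rintro ⟨z, hz, hz'⟩
          exact hcY z hz' (hsat i ⟨y, h, hyY⟩ hz)
      · push Not at h
        rw [hfix y hyZ h] at h3
        exact hcY y (ball_subset_closedBall h3) hyY
    · exact Or.inl ((hu2 _ ⟨y, hyZ, rfl⟩).2 h3)

end Pool.Agent.Lib.MP_db8568_gt
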