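import Mathlib

/-!
Compactly supported homeomorphisms of the plane, cells, and moving cells around.
-/

namespace Pool.Agent.Lib.MP_db8568_gt

open Set Topology Metric

/-- the plane with the maximum norm -/
abbrev E2 : Type := ℝ × ℝ

/-- `g` is the identity outside a compact subset of `U` -/
def Supp (g : E2 ≃ₜ E2) (U : Set E2) : Prop :=
  ∃ C, IsCompact C ∧ C ⊆ U ∧ ∀ x, x ∉ C → g x = x

theorem Supp.refl (U : Set E2) : Supp (Homeomorph.refl E2) U :=
  ⟨∅, isCompact_empty, empty_subset _, fun _ _ => rfl⟩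

theorem Supp.mono {g : E2 ≃ₜ E2} {U V : Set E2} (h : Supp g U) (hUV : U ⊆ V) : Supp g V := by
  obtain ⟨C, h1, h2, h3⟩ := h
  exact ⟨C, h1, h2.trans hUV, h3⟩

theorem Supp.trans {g g' : E2 ≃ₜ E2} {U : Set E2} (h : Supp g U) (h' : Supp g' U) :
    Supp (g.trans g') U := by
  obtain ⟨C, h1, h2, h3⟩ := h
  obtain ⟨C', h1', h2', h3'⟩ := h'
  refine ⟨C ∪ C', h1.union h1', union_subset h2 h2', fun x hx => ?_⟩
  rw [mem_union, not_or] at hx
  simp [h3 x hx.1, h3' x hx.2]

theorem Supp.fix {g : E2 ≃ₜ E2} {U : Set E2} (h : Supp g U) {x : E2} (hx : x ∉ U) : g x = x := by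
  obtain ⟨C, -, h2, h3⟩ := h
  exact h3 x fun hc => hx (h2 hc)

theorem Supp.mem_iff {g : E2 ≃ₜ E2} {U : Set E2} (h : Supp g U) {x : E2} : g x ∈ U ↔ x ∈ U := by
  constructor
  · intro hx
    by_contra hc
    rw [h.fix hc] at hx
    exact hc hx
  · intro hx
    by_contra hc
    have := g.injective (h.fix hc)
    rw [this] at hc
    exact hc hx

theorem exists_homeo {f : E2 → E2} (hf : Continuous f) (hb : Function.Bijective f) {C : Set E2}
    (hC : IsCompact C) (h : ∀ x, x ∉ C → f x = x) : ∃ g : E2 ≃ₜ E2, ⇑g = f := by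
  have hcl : IsClosedMap f := by
    intro S hS
    have h1 : f '' S = f '' (S ∩ C) ∪ (S ∩ closure Cᶜ) := by
      have h2 : ∀ x ∈ closure Cᶜ, f x = x := fun x hx =>
        (isClosed_eq hf continuous_id).closure_subset_iff.2 (fun y hy => h y hy) hx
      apply Subset.antisymm
      · rintro _ ⟨x, hx, rfl⟩
        by_cases hc : x ∈ C
        · exact Or.inl ⟨x, ⟨hx, hc⟩, rfl⟩
        · rw [h x hc]
          exact Or.inr ⟨hx, subset_closure hc⟩
      · rintro y (⟨x, hx, rfl⟩ | hy)
        · exact ⟨x, hx.1, rfl⟩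
        · exact ⟨y, hy.1, h2 y hy.2⟩
    rw [h1]
    exact ((hC.inter_left hS).image hf).isClosed.union (hS.inter isClosed_closure)
  exact ⟨(Equiv.ofBijective f hb).toHomeomorphOfContinuousClosed hf hcl, rfl⟩

theorem Supp.transfer {e : E2 → E2} (he : IsOpenEmbedding e) {g : E2 ≃ₜ E2} {U : Set E2}
    (h : Supp g U) : ∃ g' : E2 ≃ₜ E2, Supp g' (e '' U) ∧ ∀ x, g' (e x) = e (g x) := by
  obtain ⟨C, h1, h2, h3⟩ := h
  let f : E2 → E2 := Function.extend e (e ∘ g) id
  have hf1 : ∀ x, f (e x) = e (g x) := fun x => he.injective.extend_apply _ _ x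
  have hf2 : ∀ y, y ∉ range e → f y = y := fun y hy => Function.extend_apply' _ _ _ hy
  have hf3 : ∀ y, y ∉ e '' C → f y = y := by
    intro y hy
    by_cases hr : y ∈ range e
    · obtain ⟨x, rfl⟩ := hr
      rw [hf1, h3 x fun hx => hy ⟨x, hx, rfl⟩]
    · exact hf2 y hr
  have hC : IsCompact (e '' C) := h1.image he.continuous
  have hc : Continuous f := by
    rw [continuous_iff_continuousAt]
    intro y
    by_cases hr : y ∈ range e
    · obtain ⟨x, rfl⟩ := hr
      rw [← he.continuousAt_iff]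
      have : f ∘ e = e ∘ g := funext hf1
      rw [this]
      exact (he.continuous.comp g.continuous).continuousAt
    · have hy : y ∉ e '' C := fun hy => hr (image_subset_range _ _ hy)
      refine continuousAt_id.congr ?_
      filter_upwards [hC.isClosed.isOpen_compl.mem_nhds hy] with z hz
      exact (hf3 z hz).symm
  have hb : Function.Bijective f := by
    constructor
    · intro y z hyz
      by_cases hy : y ∈ range e <;> by_cases hz : z ∈ range e
      · obtain ⟨a, rfl⟩ := hy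
        obtain ⟨b, rfl⟩ := hz
        rw [hf1, hf1] at hyz
        rw [g.injective (he.injective hyz)]
      · obtain ⟨a, rfl⟩ := hy
        rw [hf1, hf2 z hz] at hyz
        exact (hz ⟨_, hyz⟩).elim
      · obtain ⟨a, rfl⟩ := hz
        rw [hf1, hf2 y hy] at hyz
        exact (hy ⟨_, hyz.symm⟩).elim
      · rwa [hf2 y hy, hf2 z hz] at hyz
    · intro y
      by_cases hy : y ∈ range e
      · obtain ⟨a, rfl⟩ := hy
        exact ⟨e (g.symm a), by rw [hf1, g.apply_symm_apply]⟩
      · exact ⟨y, hf2 y hy⟩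
  obtain ⟨g', hg'⟩ := exists_homeo hc hb hC hf3
  exact ⟨g', ⟨e '' C, hC, image_mono h2, fun y hy => by rw [hg', hf3 y hy]⟩,
    fun x => by rw [hg', hf1]⟩

/-- radial shrinking towards the origin -/
theorem exists_radial {R ε : ℝ} (hR : 0 < R) (hε : 0 < ε) (hε1 : ε ≤ 1) :
    ∃ g : E2 ≃ₜ E2, Supp g univ ∧ ∀ x, ‖x‖ ≤ R → g x = ε • x := by
  let lam : ℝ → ℝ := fun t => min ((ε * R + (2 - ε) * (max t R - R)) / max t R) 1
  have hm : ∀ t, 0 < max t R := fun t => lt_max_of_lt_right hR
  have hlc : Continuous lam := by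
    refine Continuous.min (Continuous.div (by fun_prop) (by fun_prop) fun t => (hm t).ne')
      continuous_const
  have h1 : ∀ t, t ≤ R → lam t = ε := by
    intro t ht
    simp only [lam, max_eq_right ht, sub_self, mul_zero, add_zero]
    rw [mul_div_assoc, div_self hR.ne', mul_one, min_eq_left hε1]
  have h2 : ∀ t, R ≤ t → lam t * t = min (ε * R + (2 - ε) * (t - R)) t := by
    intro t ht
    have ht0 : 0 < t := hR.trans_le ht
    simp only [lam, max_eq_left ht]
    rw [min_mul_of_nonneg _ _ ht0.le, div_mul_cancel₀ _ ht0.ne', one_mul]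
  have h3 : ∀ t, 2 * R ≤ t → lam t = 1 := by
    intro t ht
    have ht0 : 0 < t := by linarith
    have := h2 t (by linarith)
    rw [min_eq_right (by nlinarith)] at this
    exact mul_right_cancel₀ ht0.ne' (by rw [this, one_mul])
  have hpos : ∀ t, 0 < lam t := by
    intro t
    refine lt_min (div_pos ?_ (hm t)) one_pos
    have := le_max_right t R
    have : 0 ≤ (2 - ε) * (max t R - R) := mul_nonneg (by linarith) (by linarith)
    positivity
  have hmono : ∀ s t, 0 ≤ s → s < t → lam s * s < lam t * t := by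
    intro s t hs hst
    rcases le_total t R with ht | ht
    · rw [h1 s (by linarith), h1 t ht]
      exact mul_lt_mul_of_pos_left hst hε
    · rw [h2 t ht]
      rcases le_total s R with hs' | hs'
      · rw [h1 s hs']
        refine lt_min ?_ (by nlinarith)
        rcases hs'.lt_or_eq with h | h
        · have : 0 ≤ (2 - ε) * (t - R) := mul_nonneg (by linarith) (by linarith)
          nlinarith
        · subst h
          have : 0 < (2 - ε) * (t - s) := mul_pos (by linarith) (by linarith)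
          linarith
      · rw [h2 s hs']
        refine lt_min ((min_le_left _ _).trans_lt ?_) ((min_le_right _ _).trans_lt hst)
        have : (2 - ε) * (s - R) < (2 - ε) * (t - R) :=
          mul_lt_mul_of_pos_left (by linarith) (by linarith)
        linarith
  let f : E2 → E2 := fun x => lam ‖x‖ • x
  have hn : ∀ x, ‖f x‖ = lam ‖x‖ * ‖x‖ := fun x => by
    simp only [f, norm_smul, Real.norm_eq_abs, abs_of_pos (hpos _)]
  have hc : Continuous f := (hlc.comp continuous_norm).smul continuous_id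
  have hfix : ∀ x, x ∉ closedBall (0 : E2) (2 * R) → f x = x := by
    intro x hx
    rw [mem_closedBall_zero_iff, not_le] at hx
    simp only [f, h3 _ hx.le, one_smul]
  have hb : Function.Bijective f := by
    constructor
    · intro x y hxy
      have h4 : ‖x‖ = ‖y‖ := by
        have h5 : lam ‖x‖ * ‖x‖ = lam ‖y‖ * ‖y‖ := by rw [← hn, ← hn, hxy]
        rcases lt_trichotomy ‖x‖ ‖y‖ with h | h | h
        · exact ((hmono _ _ (norm_nonneg _) h).ne h5).elim
        · exact h
        · exact ((hmono _ _ (norm_nonneg _) h).ne h5.symm).elim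
      simp only [f, h4] at hxy
      exact smul_right_injective _ (hpos _).ne' hxy
    · intro y
      by_cases hy : y = 0
      · exact ⟨0, by simp [f, hy]⟩
      have hy0 : 0 < ‖y‖ := norm_pos_iff.2 hy
      have hc2 : Continuous fun t => lam t * t := hlc.mul continuous_id
      have h0 : (0 : ℝ) ≤ max (2 * R) ‖y‖ := le_max_of_le_right hy0.le
      obtain ⟨t, ht, hte⟩ := intermediate_value_Icc h0 hc2.continuousOn
        (show ‖y‖ ∈ Icc (lam 0 * 0) (lam (max (2 * R) ‖y‖) * max (2 * R) ‖y‖) from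
          ⟨by simp, by rw [h3 _ (le_max_left _ _), one_mul]; exact le_max_right _ _⟩)
      refine ⟨(t / ‖y‖) • y, ?_⟩
      have h6 : ‖(t / ‖y‖) • y‖ = t := by
        rw [norm_smul, Real.norm_eq_abs, abs_of_nonneg (div_nonneg ht.1 hy0.le),
          div_mul_cancel₀ _ hy0.ne']
      simp only [f, h6, smul_smul]
      have : lam t * (t / ‖y‖) = 1 := by
        rw [← mul_div_assoc]
        simp only at hte
        rw [hte, div_self hy0.ne']
      rw [this, one_smul]
  obtain ⟨g, hg⟩ := exists_homeo hc hb (isCompact_closedBall 0 (2 * R)) hfix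
  refine ⟨g, ⟨_, isCompact_closedBall 0 (2 * R), subset_univ _, fun x hx => by
    rw [hg, hfix x hx]⟩, fun x hx => ?_⟩
  rw [hg]
  simp only [f, h1 _ hx]

theorem engulf_univ {Z O : Set E2} (hZ : IsCompact Z) (hO : IsOpen O) (hne : O.Nonempty) :
    ∃ g : E2 ≃ₜ E2, Supp g univ ∧ MapsTo g Z O := by
  obtain ⟨o, ho⟩ := hne
  obtain ⟨δ, hδ, hδO⟩ := Metric.isOpen_iff.1 hO o ho
  obtain ⟨R, hR, hZR⟩ := hZ.isBounded.subset_closedBall_lt 0 o
  obtain ⟨g, hg, hg2⟩ := exists_radial (ε := min (δ / (2 * R)) 1) hR (by positivity)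
    (min_le_right _ _)
  obtain ⟨g', hg', hg3⟩ := hg.transfer (Homeomorph.addLeft o).isOpenEmbedding
  refine ⟨g', hg'.mono (subset_univ _), fun z hz => hδO ?_⟩
  have h1 : ‖z - o‖ ≤ R := by simpa [dist_eq_norm] using hZR hz
  have h2 := hg3 (z - o)
  simp only [Homeomorph.coe_addLeft, add_sub_cancel] at h2
  rw [h2, hg2 _ h1, mem_ball, dist_eq_norm, add_sub_cancel_left, norm_smul, Real.norm_eq_abs,
    abs_of_pos (by positivity)]
  calc min (δ / (2 * R)) 1 * ‖z - o‖ ≤ δ / (2 * R) * R :=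
        mul_le_mul (min_le_left _ _) h1 (norm_nonneg _) (by positivity)
    _ = δ / 2 := by field_simp
    _ < δ := by linarith

theorem exists_ball_emb (c : E2) {r : ℝ} (hr : 0 < r) :
    ∃ e : E2 → E2, IsOpenEmbedding e ∧ range e = ball c r := by
  refine ⟨OpenPartialHomeomorph.univBall c r, (OpenPartialHomeomorph.univBall c r).isOpenEmbedding
    (OpenPartialHomeomorph.univBall_source c r), ?_⟩
  rw [← image_univ, ← OpenPartialHomeomorph.univBall_source c r,
    OpenPartialHomeomorph.image_source_eq_target, OpenPartialHomeomorph.univBall_target c hr]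

theorem engulf_ball {c : E2} {r : ℝ} {Z O : Set E2} (hZ : IsCompact Z) (hZr : Z ⊆ ball c r)
    (hO : IsOpen O) (hne : (O ∩ ball c r).Nonempty) :
    ∃ g : E2 ≃ₜ E2, Supp g (ball c r) ∧ MapsTo g Z O := by
  have hr : 0 < r := by
    obtain ⟨o, -, ho⟩ := hne
    exact pos_of_mem_ball ho
  obtain ⟨e, he, hre⟩ := exists_ball_emb c hr
  rw [← hre] at hZr hne ⊢
  obtain ⟨g, hg, hg2⟩ := engulf_univ (Z := e ⁻¹' Z) (O := e ⁻¹' O)
    (he.isInducing.isCompact_preimage' hZ hZr) (hO.preimage he.continuous)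
    (by obtain ⟨_, ho, x, rfl⟩ := hne; exact ⟨x, ho⟩)
  obtain ⟨g', hg', hg3⟩ := hg.transfer he
  rw [image_univ] at hg'
  refine ⟨g', hg', fun z hz => ?_⟩
  obtain ⟨x, rfl⟩ := hZr hz
  rw [hg3]
  exact hg2 hz

/-- compact connected sets that can be shrunk inside any neighbourhood -/
structure Cell (D : Set E2) : Prop where
  cpt : IsCompact D
  conn : IsPreconnected D
  shrink : ∀ U O, IsOpen U → D ⊆ U → IsOpen O → (closure O ∩ D).Nonempty →
    ∃ g : E2 ≃ₜ E2, Supp g U ∧ MapsTo g D O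

theorem Cell.empty : Cell ∅ :=
  ⟨isCompact_empty, isPreconnected_empty, fun _ _ _ _ _ h => by simp at h⟩

theorem Cell.closedBall (c : E2) (r : ℝ) : Cell (closedBall c r) := by
  refine ⟨isCompact_closedBall c r, (convex_closedBall c r).isPreconnected, ?_⟩
  intro U O hU hDU hO ⟨x, hx1, hx2⟩
  have hr : 0 ≤ r := dist_nonneg.trans hx2
  obtain ⟨δ, hδ, hδU⟩ := (isCompact_closedBall c r).exists_thickening_subset_open hU hDU
  rw [thickening_closedBall hδ hr] at hδU
  have hsub : Metric.closedBall c r ⊆ ball c (δ + r) := closedBall_subset_ball (by linarith)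
  obtain ⟨g, hg, hg2⟩ := engulf_ball (isCompact_closedBall c r) hsub hO (by
    obtain ⟨y, hy1, hy2⟩ := mem_closure_iff.1 hx1 _ isOpen_ball (hsub hx2)
    exact ⟨y, hy2, hy1⟩)
  exact ⟨g, hg.mono hδU, hg2⟩

theorem Cell.image {D : Set E2} (hD : Cell D) {e : E2 → E2} (he : IsOpenEmbedding e) :
    Cell (e '' D) := by
  refine ⟨hD.cpt.image he.continuous, hD.conn.image _ he.continuous.continuousOn, ?_⟩
  rintro U O hU hDU hO ⟨_, hx1, x, hx2, rfl⟩
  obtain ⟨g, hg, hg2⟩ := hD.shrink (e ⁻¹' U) (e ⁻¹' O) (hU.preimage he.continuous)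
    (image_subset_iff.1 hDU) (hO.preimage he.continuous)
    ⟨x, he.isOpenMap.preimage_closure_subset_closure_preimage hx1, hx2⟩
  obtain ⟨g', hg', hg3⟩ := hg.transfer he
  refine ⟨g', hg'.mono (image_preimage_subset _ _), ?_⟩
  rintro _ ⟨y, hy, rfl⟩
  rw [hg3]
  exact hg2 hy

/-- simultaneous shrinking of finitely many disjoint cells -/
theorem shrink_many {ι : Type} (s : Finset ι) (D O : ι → Set E2) (hD : ∀ i ∈ s, Cell (D i))
    (hO : ∀ i ∈ s, IsOpen (O i)) (hne : ∀ i ∈ s, (closure (O i) ∩ D i).Nonempty)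
    (hd : ∀ i ∈ s, ∀ j ∈ s, i ≠ j → Disjoint (D i) (D j)) :
    ∀ U, IsOpen U → (∀ i ∈ s, D i ⊆ U) → ∃ g : E2 ≃ₜ E2, Supp g U ∧ ∀ i ∈ s, MapsTo g (D i) (O i) := by
  classical
  induction s using Finset.induction_on with
  | empty => exact fun U _ _ => ⟨_, Supp.refl U, fun i hi => by simp at hi⟩
  | insert a s ha ih =>
    intro U hU hDU
    have hs : ∀ i ∈ s, i ∈ insert a s := fun i hi => Finset.mem_insert_of_mem hi
    have has : a ∈ insert a s := Finset.mem_insert_self a s
    have hcl : IsClosed (⋃ i ∈ s, D i) :=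
      isClosed_biUnion_finset fun i hi => (hD i (hs i hi)).cpt.isClosed
    obtain ⟨g, hg, hg2⟩ := (hD a has).shrink (U \ ⋃ i ∈ s, D i) (O a) (hU.sdiff hcl)
      (fun x hx => ⟨hDU a has hx, fun hx' => by
        obtain ⟨i, hi, hxi⟩ := mem_iUnion₂.1 hx'
        exact disjoint_left.1 (hd a has i (hs i hi) (by rintro rfl; exact ha hi)) hx hxi⟩)
      (hO a has) (hne a has)
    have hfix : ∀ i ∈ s, ∀ x ∈ D i, g x = x := fun i hi x hx =>
      hg.fix fun h => h.2 (mem_iUnion₂.2 ⟨i, hi, hx⟩)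
    obtain ⟨g', hg', hg3⟩ := ih (fun i hi => hD i (hs i hi)) (fun i hi => hO i (hs i hi))
      (fun i hi => hne i (hs i hi)) (fun i hi j hj => hd i (hs i hi) j (hs j hj))
      (U \ g '' D a) (hU.sdiff ((hD a has).cpt.image g.continuous).isClosed)
      (fun i hi x hx => ⟨hDU i (hs i hi) hx, by
        rintro ⟨y, hy, hyx⟩
        rw [← hfix i hi x hx] at hyx
        rw [g.injective hyx] at hy
        exact disjoint_left.1 (hd a has i (hs i hi) (by rintro rfl; exact ha hi)) hy hx⟩)
    refine ⟨g.trans g', (hg.mono sdiff_subset).trans (hg'.mono sdiff_subset), fun i hi x hx => ?_⟩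
    rcases Finset.mem_insert.1 hi with rfl | hi
    · have : g' (g x) = g x := hg'.fix fun h => h.2 ⟨x, hx, rfl⟩
      simp only [Homeomorph.trans_apply, this]
      exact hg2 hx
    · simp only [Homeomorph.trans_apply, hfix i hi x hx]
      exact hg3 i hi hx

theorem rank_E2 : 1 < Module.rank ℝ E2 := by
  rw [← Module.finrank_eq_rank]
  simp

theorem preconn_ball_diff (c : E2) (r : ℝ) {T : Set E2} (hT : T.Countable) :
    IsPreconnected (ball c r \ T) := by
  rcases le_or_gt r 0 with hr | hr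
  · rw [ball_eq_empty.2 hr, empty_sdiff]
    exact isPreconnected_empty
  obtain ⟨e, he, hre⟩ := exists_ball_emb c hr
  have h1 : (e ⁻¹' T).Countable := hT.preimage_of_injOn he.injective.injOn
  have h2 := (h1.isConnected_compl_of_one_lt_rank rank_E2).isPreconnected.image e
    he.continuous.continuousOn
  rwa [← preimage_compl, image_preimage_eq_inter_range, hre, inter_comm] at h2

theorem dense_compl_countable {T : Set E2} (hT : T.Countable) : Dense Tᶜ :=
  hT.dense_compl ℝ

theorem preconn_diff {V T : Set E2} (hV : IsOpen V) (hc : IsPreconnected V) (hT : T.Countable) :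
    IsPreconnected (V \ T) := by
  intro u v hu hv huv ⟨a, ha, hau⟩ ⟨b, hb, hbv⟩
  by_contra hne
  have hd := dense_compl_countable hT
  have key := hc (interior (u ∪ T)) (interior (v ∪ T)) isOpen_interior isOpen_interior ?_
    ⟨a, ha.1, interior_maximal subset_union_left hu hau⟩
    ⟨b, hb.1, interior_maximal subset_union_left hv hbv⟩
  · obtain ⟨y, hy1, hy2⟩ := hd.inter_open_nonempty _
      (hV.inter (isOpen_interior.inter isOpen_interior)) key
    refine hne ⟨y, ⟨hy1.1, hy2⟩, ?_, ?_⟩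
    · exact (interior_subset hy1.2.1).resolve_right hy2
    · exact (interior_subset hy1.2.2).resolve_right hy2
  · intro x hx
    obtain ⟨r, hr, hrV⟩ := Metric.isOpen_iff.1 hV x hx
    have h1 := preconn_ball_diff x r hT
    have h2 : ball x r \ T ⊆ u ∨ ball x r \ T ⊆ v := by
      by_contra h
      rw [not_or, not_subset, not_subset] at h
      obtain ⟨⟨p, hp, hpu⟩, ⟨q, hq, hqv⟩⟩ := h
      have hsub : ball x r \ T ⊆ V \ T := sdiff_subset_sdiff_left hrV
      obtain ⟨y, hy, hyuv⟩ := h1 u v hu hv (hsub.trans huv)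
        ⟨q, hq, (huv (hsub hq)).resolve_right hqv⟩ ⟨p, hp, (huv (hsub hp)).resolve_left hpu⟩
      exact hne ⟨y, hsub hy, hyuv⟩
    rcases h2 with h | h
    · refine Or.inl (interior_maximal (fun y hy => ?_) isOpen_ball (mem_ball_self hr))
      by_cases hyT : y ∈ T
      · exact Or.inr hyT
      · exact Or.inl (h ⟨hy, hyT⟩)
    · refine Or.inr (interior_maximal (fun y hy => ?_) isOpen_ball (mem_ball_self hr))
      by_cases hyT : y ∈ T
      · exact Or.inr hyT
      · exact Or.inl (h ⟨hy, hyT⟩)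

/-- one point can be moved into any open set of a connected open set -/
theorem move_point {V O : Set E2} (hV : IsOpen V) (hc : IsPreconnected V) (hO : IsOpen O)
    (hne : (O ∩ V).Nonempty) {a : E2} (ha : a ∈ V) : ∃ g : E2 ≃ₜ E2, Supp g V ∧ g a ∈ O := by
  let W : Set E2 := {x | ∃ g : E2 ≃ₜ E2, Supp g V ∧ g x ∈ O}
  have hW : IsOpen W := by
    rw [isOpen_iff_mem_nhds]
    rintro x ⟨g, hg, hx⟩
    filter_upwards [(hO.preimage g.continuous).mem_nhds hx] with y hy
    exact ⟨g, hg, hy⟩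
  have hcl : ∀ x ∈ V, x ∈ closure W → x ∈ W := by
    intro x hx hxW
    obtain ⟨g, hg, hg2⟩ := (Cell.closedBall x 0).shrink V W hV (by simpa using hx) hW
      ⟨x, hxW, by simp⟩
    obtain ⟨g', hg', hg3⟩ := hg2 (mem_closedBall_self le_rfl)
    exact ⟨g.trans g', hg.trans hg', hg3⟩
  by_contra h
  obtain ⟨o, ho, hoV⟩ := hne
  obtain ⟨y, hy, hy1, hy2⟩ := hc W (closure W)ᶜ hW isClosed_closure.isOpen_compl
    (fun x hx => by
      by_cases hxW : x ∈ closure W
      · exact Or.inl (hcl x hx hxW)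
      · exact Or.inr hxW)
    ⟨o, hoV, _, Supp.refl V, ho⟩ ⟨a, ha, fun h' => h (hcl a ha h')⟩
  exact hy2 (subset_closure hy1)

theorem move_points {ι : Type} (t : Finset ι) (a : ι → E2) (O : ι → Set E2) {V : Set E2}
    (hV : IsOpen V) (hc : IsPreconnected V) (hO : ∀ i ∈ t, IsOpen (O i))
    (hne : ∀ i ∈ t, (O i ∩ V).Nonempty) (ha : ∀ i ∈ t, a i ∈ V)
    (hinj : ∀ i ∈ t, ∀ j ∈ t, i ≠ j → a i ≠ a j) (s : Finset ι) (hs : s ⊆ t) :
    ∃ g : E2 ≃ₜ E2, Supp g V ∧ ∀ i ∈ s, g (a i) ∈ O i := by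
  classical
  induction s using Finset.induction_on with
  | empty => exact ⟨_, Supp.refl V, fun i hi => by simp at hi⟩
  | insert i s hi ih =>
    obtain ⟨g, hg, hg2⟩ := ih ((Finset.subset_insert i s).trans hs)
    have hit : i ∈ t := hs (Finset.mem_insert_self i s)
    let T : Set E2 := (fun j => g (a j)) '' (t.erase i : Set ι)
    have hT : T.Finite := (t.erase i).finite_toSet.image _
    obtain ⟨g', hg', hg3⟩ := move_point (V := V \ T) (O := O i) (a := g (a i))
      (hV.sdiff hT.isClosed) (preconn_diff hV hc hT.countable) (hO i hit)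
      (by
        obtain ⟨y, hy1, hy2⟩ := (dense_compl_countable hT.countable).inter_open_nonempty _
          ((hO i hit).inter hV) (hne i hit)
        exact ⟨y, hy1.1, hy1.2, hy2⟩)
      ⟨hg.mem_iff.2 (ha i hit), by
        rintro ⟨j, hj, hji⟩
        have hj' := Finset.mem_erase.1 hj
        exact hinj j hj'.2 i hit hj'.1 (g.injective hji)⟩
    refine ⟨g.trans g', hg.trans (hg'.mono sdiff_subset), fun j hj => ?_⟩
    rcases Finset.mem_insert.1 hj with rfl | hj'
    · exact hg3
    · have : g' (g (a j)) = g (a j) := hg'.fix fun h => h.2 ⟨j, Finset.mem_coe.2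
        (Finset.mem_erase.2 ⟨fun h => hi (h ▸ hj'), hs hj⟩), rfl⟩
      simp only [Homeomorph.trans_apply, this]
      exact hg2 j hj'

/-- finitely many disjoint cells can be moved into given open sets -/
theorem move_cells {ι : Type} (s : Finset ι) (D O : ι → Set E2) {V : Set E2}
    (hV : IsOpen V) (hc : IsPreconnected V) (hD : ∀ i ∈ s, Cell (D i))
    (hDne : ∀ i ∈ s, (D i).Nonempty) (hDV : ∀ i ∈ s, D i ⊆ V)
    (hO : ∀ i ∈ s, IsOpen (O i)) (hne : ∀ i ∈ s, (O i ∩ V).Nonempty)
    (hd : ∀ i ∈ s, ∀ j ∈ s, i ≠ j → Disjoint (D i) (D j)) :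
    ∃ g : E2 ≃ₜ E2, Supp g V ∧ ∀ i ∈ s, MapsTo g (D i) (O i) := by
  classical
  have : ∀ i, ∃ a : E2, i ∈ s → a ∈ D i := fun i => by
    by_cases hi : i ∈ s
    · obtain ⟨a, ha⟩ := hDne i hi
      exact ⟨a, fun _ => ha⟩
    · exact ⟨0, fun h => (hi h).elim⟩
  choose a ha using this
  obtain ⟨w, hw, hw2⟩ := move_points s a O hV hc hO hne (fun i hi => hDV i hi (ha i hi))
    (fun i hi j hj hij h => disjoint_left.1 (hd i hi j hj hij) (ha i hi) (h ▸ ha j hj))
    s subset_rfl
  obtain ⟨g, hg, hg2⟩ := shrink_many s D (fun i => w ⁻¹' O i) hD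
    (fun i hi => (hO i hi).preimage w.continuous)
    (fun i hi => ⟨a i, subset_closure (hw2 i hi), ha i hi⟩) hd V hV hDV
  exact ⟨g.trans w, hg.trans hw, fun i hi x hx => hg2 i hi hx⟩

end Pool.Agent.Lib.MP_db8568_gt
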