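import Pool.Agent.Lib.MP_db8568_gt.Check
import Pool.Agent.Lib.MP_db8568_gt.Comb

/-!
The ground model real line remains the real line of the extension.
-/

namespace Pool.Agent.Lib.MP_db8568_gt

open Pool.Agent.Lib.MP_5d9fac_lc

/-- the forcing algebra -/
abbrev BB : Type := RO Cnd

/-- name of the line -/
noncomputable def lineN : Name BB := gs (Set.univ : Set ℝ)

/-- name of the order -/
noncomputable def ltN : Name BB :=
  grN (fun s : {s : ℝ × ℝ // s.1 < s.2} => chk s.1.1) fun s => chk s.1.2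

theorem mem_line (U : Ult BB) (a : ℝ) : Mem U (cl U (chk a)) (cl U lineN) := mem_gs.2 trivial

theorem line_ind (P : Ult BB → Prop) [Clopen P] (Q : ∀ U : Ult BB, Mod U → Prop)
    [∀ n : Name BB, Clopen fun U => Q U (cl U n)] {U : Ult BB}
    (hp : P U) (H : ∀ a : ℝ, ∀ W : Ult BB, P W → Q W (cl W (chk a))) :
    ∀ z, Mem U z (cl U lineN) → Q U z := gs_ind P Q hp fun a _ => H a

theorem lt_ind (P : Ult BB → Prop) [Clopen P] (Q : ∀ U : Ult BB, Mod U → Mod U → Prop)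
    [∀ n m : Name BB, Clopen fun U => Q U (cl U n) (cl U m)] {U : Ult BB} (hp : P U)
    (H : ∀ a b : ℝ, a < b → ∀ W : Ult BB, P W → Q W (cl W (chk a)) (cl W (chk b))) :
    ∀ a b, App (Mem U) (cl U ltN) a b → Q U a b :=
  grN_ind P Q hp fun s => H _ _ s.2

theorem app_lt {U : Ult BB} {a b : ℝ} :
    App (Mem U) (cl U ltN) (cl U (chk a)) (cl U (chk b)) ↔ a < b := by
  refine ⟨fun h => ?_, fun h => app_grN (x := fun s : {s : ℝ × ℝ // s.1 < s.2} => chk s.1.1)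
    (y := fun s => chk s.1.2) U ⟨(a, b), h⟩⟩
  refine lt_ind (fun _ => True) (fun U x y => x = cl U (chk a) → y = cl U (chk b) → a < b)
    trivial ?_ _ _ h rfl rfl
  intro c d hcd W _ h1 h2
  rwa [← chk_inj h1, ← chk_inj h2]

theorem lt_mem {U : Ult BB} : ∀ a b, App (Mem U) (cl U ltN) a b →
    Mem U a (cl U lineN) ∧ Mem U b (cl U lineN) ∧ a ≠ b :=
  lt_ind (fun _ => True) (fun U a b => Mem U a (cl U lineN) ∧ Mem U b (cl U lineN) ∧ a ≠ b)
    trivial fun _ _ h W _ => ⟨mem_line W _, mem_line W _, fun e => h.ne (chk_inj e)⟩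

theorem lt_trans' {U : Ult BB} (a b c : Mod U) (h1 : App (Mem U) (cl U ltN) a b)
    (h2 : App (Mem U) (cl U ltN) b c) : App (Mem U) (cl U ltN) a c := by
  refine lt_ind (fun _ => True) (fun U a b => ∀ c, Mem U c (cl U lineN) →
    App (Mem U) (cl U ltN) b c → App (Mem U) (cl U ltN) a c) trivial ?_ a b h1 c
    (lt_mem _ _ h2).2.1 h2
  intro x y hxy W _
  exact line_ind (fun _ => True) (fun U c => App (Mem U) (cl U ltN) (cl U (chk y)) c →
    App (Mem U) (cl U ltN) (cl U (chk x)) c) trivial fun z V _ h =>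
      app_lt.2 (hxy.trans (app_lt.1 h))

theorem line_lub {U : Ult BB} (S : Mod U) (h1 : Sub (Mem U) S (cl U lineN)) (h2 : ∃ s, Mem U s S)
    (h3 : ∃ u, Mem U u (cl U lineN) ∧ ∀ s, Mem U s S → ¬ App (Mem U) (cl U ltN) u s) :
    ∃ t, Mem U t (cl U lineN) ∧ (∀ s, Mem U s S → ¬ App (Mem U) (cl U ltN) t s) ∧
      ∀ u, App (Mem U) (cl U ltN) u t → ∃ s, Mem U s S ∧ App (Mem U) (cl U ltN) u s := by
  obtain ⟨S, rfl⟩ := cl_surj U S
  obtain ⟨s0, h2⟩ := h2
  obtain ⟨u0, h3, h4⟩ := h3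
  let Q : Ult BB → Prop := fun U => ∃ t, Mem U t (cl U lineN) ∧
    (∀ s, Mem U s (cl U S) → ¬ App (Mem U) (cl U ltN) t s) ∧
      ∀ u, App (Mem U) (cl U ltN) u t → ∃ s, Mem U s (cl U S) ∧ App (Mem U) (cl U ltN) u s
  have : Clopen Q := by unfold Q; infer_instance
  refine line_ind (fun U => Sub (Mem U) (cl U S) (cl U lineN)) (fun U s0 => Mem U s0 (cl U S) →
    ∀ u, Mem U u (cl U lineN) → (∀ s, Mem U s (cl U S) → ¬ App (Mem U) (cl U ltN) u s) → Q U)
    h1 ?_ s0 (h1 _ h2) h2 u0 h3 h4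
  intro a W h1 h2
  refine line_ind (fun U => Sub (Mem U) (cl U S) (cl U lineN) ∧ Mem U (cl U (chk a)) (cl U S))
    (fun U u => (∀ s, Mem U s (cl U S) → ¬ App (Mem U) (cl U ltN) u s) → Q U) ⟨h1, h2⟩ ?_
  intro b W h1 h2
  refine dense0 (fun U => (Sub (Mem U) (cl U S) (cl U lineN) ∧ Mem U (cl U (chk a)) (cl U S)) ∧
    ∀ s, Mem U s (cl U S) → ¬ App (Mem U) (cl U ltN) (cl U (chk b)) s) Q ⟨h1, h2⟩ fun p hp => ?_
  obtain ⟨en, hen⟩ := exists_surjective_nat ℚ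
  let R : ℝ → Ult BB → Prop := fun x U =>
    ∃ s, Mem U s (cl U S) ∧ App (Mem U) (cl U ltN) (cl U (chk x)) s
  have hR : ∀ x, Clopen (R x) := fun x => by unfold R; infer_instance
  obtain ⟨q, hq, hd⟩ := Cnd.meet (p := p) (fun n r => Frc r (R (en n)) ∨
      Frc r fun U => ¬ R (en n) U) fun n r _ => by
    obtain ⟨V, hV⟩ := ult_of r
    by_cases h : R (en n) V
    · obtain ⟨r', h3, h4⟩ := ext1 (R (en n)) hV h
      exact ⟨r', h3, Or.inl h4⟩
    · obtain ⟨r', h3, h4⟩ := ext1 (fun U => ¬ R (en n) U) hV h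
      exact ⟨r', h3, Or.inr h4⟩
  have hdec : ∀ (x : ℚ) (V : Ult BB), V.In (RO.emb q) → R x V → Frc q (R x) := by
    intro x V hV h
    obtain ⟨n, rfl⟩ := hen x
    obtain ⟨r, h3, -, h4 | h4⟩ := hd n
    · exact h4.mono h3
    · exact (h4 V (in_mono h3 hV) h).elim
  obtain ⟨V, hV⟩ := ult_of q
  have hpq := hp.mono hq
  let A : Set ℝ := {x | ∃ y : ℚ, x = y ∧ Frc q (R y)}
  have hA1 : A.Nonempty := by
    obtain ⟨y, hy⟩ := exists_rat_lt a
    exact ⟨y, y, rfl, hdec y V hV ⟨_, (hpq V hV).1.2, app_lt.2 hy⟩⟩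
  have hA2 : BddAbove A := by
    refine ⟨b, ?_⟩
    rintro _ ⟨y, rfl, hy⟩
    by_contra h
    obtain ⟨s, h3, h4⟩ := hy V hV
    exact (hpq V hV).2 s h3 (lt_trans' _ _ _ (app_lt.2 (not_le.1 h)) h4)
  refine ⟨V, in_mono hq hV, cl V (chk (sSup A)), mem_line _ _, fun s hs => ?_, fun u hu => ?_⟩
  · refine line_ind (fun U => U.In (RO.emb q)) (fun U s => Mem U s (cl U S) →
      ¬ App (Mem U) (cl U ltN) (cl U (chk (sSup A))) s) hV ?_ s ((hpq V hV).1.1 s hs) hs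
    intro c V' hV' hc h
    obtain ⟨y, h3, h4⟩ := exists_rat_btwn (app_lt.1 h)
    exact (le_csSup hA2 ⟨y, rfl, hdec y V' hV' ⟨_, hc, app_lt.2 h4⟩⟩).not_gt h3
  · refine line_ind (fun U => U.In (RO.emb q)) (fun U u =>
      App (Mem U) (cl U ltN) u (cl U (chk (sSup A))) →
        ∃ s, Mem U s (cl U S) ∧ App (Mem U) (cl U ltN) u s) hV ?_ u (lt_mem _ _ hu).1 hu
    intro c V' hV' h
    obtain ⟨_, ⟨y, rfl, hy⟩, h3⟩ := exists_lt_of_lt_csSup hA1 (app_lt.1 h)
    obtain ⟨s, h4, h5⟩ := hy V' hV'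
    exact ⟨s, h4, lt_trans' _ _ _ (app_lt.2 h3) h5⟩

theorem isLine (U : Ult BB) : IsLine (Mem U) (cl U lineN) (cl U ltN) := by
  refine ⟨lt_mem, lt_trans', fun a b ha hb => ?_, ⟨_, mem_line U 0⟩, ?_, line_lub, ?_⟩
  · refine line_ind (fun _ => True) (fun U a => ∀ b, Mem U b (cl U lineN) →
      App (Mem U) (cl U ltN) a b ∨ a = b ∨ App (Mem U) (cl U ltN) b a) trivial ?_ a ha b hb
    intro x W _
    refine line_ind (fun _ => True) (fun U b => App (Mem U) (cl U ltN) (cl U (chk x)) b ∨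
      cl U (chk x) = b ∨ App (Mem U) (cl U ltN) b (cl U (chk x))) trivial fun y V _ => ?_
    rcases lt_trichotomy x y with h | h | h
    · exact Or.inl (app_lt.2 h)
    · exact Or.inr (Or.inl (by rw [h]))
    · exact Or.inr (Or.inr (app_lt.2 h))
  · exact line_ind (fun _ => True) (fun U a => ∃ b c, App (Mem U) (cl U ltN) b a ∧
      App (Mem U) (cl U ltN) a c) trivial fun x W _ =>
        ⟨_, _, app_lt.2 (sub_one_lt x), app_lt.2 (lt_add_one x)⟩
  · obtain ⟨en, hen⟩ := exists_surjective_nat ℚ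
    refine ⟨_, cl U (grN natN fun n => chk (en n : ℝ)), isOmega_omega U,
      isFun_grN natN_inj (fun _ => True) trivial (fun n W _ => ⟨natN_mem W n, mem_line W _⟩) ?_, ?_⟩
    · exact nat_ind (fun _ => True) (fun U a => ∃ b,
        App (Mem U) (cl U (grN natN fun n => chk (en n : ℝ))) a b) trivial
        fun n W _ => ⟨_, app_grN W n⟩
    · refine lt_ind (fun _ => True) (fun U a b => ∃ n d,
        App (Mem U) (cl U (grN natN fun n => chk (en n : ℝ))) n d ∧ App (Mem U) (cl U ltN) a d ∧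
          App (Mem U) (cl U ltN) d b) trivial fun a b hab W _ => ?_
      obtain ⟨y, h1, h2⟩ := exists_rat_btwn hab
      obtain ⟨n, rfl⟩ := hen y
      exact ⟨_, _, app_grN W n, app_lt.2 h1, app_lt.2 h2⟩

end Pool.Agent.Lib.MP_db8568_gt
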