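import Pool.Agent.Lib.MP_db8568_gt.Space

/-!
The generic surface is hereditarily normal and not countably paracompact.
-/

namespace Pool.Agent.Lib.MP_db8568_gt

open Pool.Agent.Lib.MP_5d9fac_lc Set

theorem sep_pt (Q : ∀ U : Ult BB, Mod U → Prop) [∀ n : Name BB, Clopen fun U => Q U (cl U n)]
    {r : Cnd} {W : Ult BB} (hr : W.In (RO.emb r)) {a : Om}
    (h : ∃ N, Mem W N (cl W basN) ∧ Mem W (cl W (chk a)) N ∧ ∀ z, Mem W z N → ¬ Q W z) :
    ∃ r', r' ≤ r ∧ ∃ S, r'.Op S ∧ a ∈ S ∧ ∀ r'', r'' ≤ r' → ∀ b ∈ S,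
      ¬ Frc r'' fun U => Q U (cl U (chk b)) := by
  by_contra hc
  obtain ⟨N, h1, h2, h3⟩ := h
  refine bas_ind (fun U => U.In (RO.emb r)) (fun U N => Mem U (cl U (chk a)) N →
    ¬ ∀ z, Mem U z N → ¬ Q U z) hr ?_ N h1 h2 h3
  intro p S V hS hr hp ha h4
  obtain ⟨r', h5, h6, h7⟩ := ext2 (fun U => ∀ z, Mem U z (cl U (gs S)) → ¬ Q U z) hr hp h4
  refine hc ⟨r', h5, S, hS.mono h6, mem_gs.1 ha, fun r'' h8 b hb h9 => ?_⟩
  obtain ⟨V', hV'⟩ := ult_of r''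
  exact h7 V' (in_mono h8 hV') _ (mem_gs.2 hb) (h9 V' hV')

/-- points of `A` have basic neighbourhoods missing `B` -/
def Apart (U : Ult BB) (A B : Mod U) : Prop :=
  ∀ x, Mem U x A → ∃ N, Mem U N (cl U basN) ∧ Mem U x N ∧ ∀ z, Mem U z N → ¬ Mem U z B

instance (A B : Name BB) : Clopen fun U => Apart U (cl U A) (cl U B) := by
  unfold Apart; infer_instance

/-- `A` and `B` have disjoint open neighbourhoods -/
def Split (U : Ult BB) (A B : Mod U) : Prop :=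
  ∃ V V', Mem U V (cl U topN) ∧ Mem U V' (cl U topN) ∧ Sub (Mem U) A V ∧ Sub (Mem U) B V' ∧
    Disj (Mem U) V V'

instance (A B : Name BB) : Clopen fun U => Split U (cl U A) (cl U B) := by
  unfold Split; infer_instance

theorem Split.symm {U : Ult BB} {A B : Mod U} (h : Split U A B) : Split U B A := by
  obtain ⟨V, V', h1, h2, h3, h4, h5⟩ := h
  exact ⟨V', V, h2, h1, h4, h3, fun x hx hx' => h5 x hx' hx⟩

theorem Apart.sub {U : Ult BB} {A B : Mod U} (h : Apart U A B) : Sub (Mem U) A (cl U spN) := by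
  intro x hx
  obtain ⟨N, h1, h2, -⟩ := h x hx
  exact bas_sub N h1 x h2

/-- points forced into a name -/
def FIn (A : Name BB) (r : Cnd) (a : Om) : Prop := Frc r fun U => Mem U (cl U (chk a)) (cl U A)

theorem mon_FIn (A : Name BB) : Cnd.Mon (FIn A) := fun _ _ _ h h' => h'.mono h

theorem sep_FIn {A B : Name BB} {p : Cnd} (h : Frc p fun U => Apart U (cl U A) (cl U B)) :
    Cnd.Sep p (FIn A) (FIn B) := by
  intro r hr a ha
  obtain ⟨W, hW⟩ := ult_of r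
  exact sep_pt (fun U z => Mem U z (cl U B)) hW (h W (in_mono hr hW) _ (ha W hW))

theorem split_of_good {A B : Name BB} {q : Cnd} (h : Cnd.Good q (FIn A) (FIn B)) {W : Ult BB}
    (hW : W.In (RO.emb q)) (hA : Sub (Mem W) (cl W A) (cl W spN))
    (hB : Sub (Mem W) (cl W B) (cl W spN)) : Split W (cl W A) (cl W B) := by
  obtain ⟨S, h1, h2, h3⟩ := h
  let K : Name BB := sepN (fun U x => ∃ N, Mem U N (cl U basN) ∧ Mem U x N ∧
    Disj (Mem U) N (cl U (gs S))) spN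
  have hK : ∀ (U : Ult BB) x, Mem U x (cl U K) ↔ Mem U x (cl U spN) ∧
      ∃ N, Mem U N (cl U basN) ∧ Mem U x N ∧ Disj (Mem U) N (cl U (gs S)) := fun U x =>
    mem_sepN _ _ U x
  refine ⟨cl W (gs S), cl W K, bas_top (mem_bas hW h1), mem_top.2 ⟨fun x hx => ((hK W x).1 hx).1,
    fun x hx => ?_⟩, fun x hx => ?_, fun x hx => ?_, fun x hx hx' => ?_⟩
  · obtain ⟨-, N, h4, h5, h6⟩ := (hK W x).1 hx
    exact ⟨N, h4, h5, fun y hy => (hK W y).2 ⟨bas_sub N h4 y hy, N, h4, hy, h6⟩⟩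
  · refine sp_ind' (fun U x => Mem U x (cl U A) → Mem U x (cl U (gs S))) hW ?_ x (hA x hx) hx
    intro r hr y
    by_cases h : FIn A r (r.ψ y)
    · obtain ⟨V, hV⟩ := ult_of r
      exact ⟨V, hV, fun _ => mem_gs.2 (h2 r hr _ h)⟩
    · unfold FIn Frc at h
      push Not at h
      obtain ⟨V, h4, h5⟩ := h
      exact ⟨V, h4, fun h => (h5 h).elim⟩
  · refine sp_ind' (fun U x => Mem U x (cl U B) → Mem U x (cl U K)) hW ?_ x (hB x hx) hx
    intro r hr y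
    by_cases h : FIn B r (r.ψ y)
    · obtain ⟨r', h4, S', h5, h6, h7⟩ := h3 r hr _ h
      obtain ⟨V, hV⟩ := ult_of r'
      exact ⟨V, in_mono h4 hV, fun _ => (hK V _).2 ⟨mem_sp hV (h5.1 h6), _, mem_bas hV h5,
        mem_gs.2 h6, gs_disj h7 V⟩⟩
    · unfold FIn Frc at h
      push Not at h
      obtain ⟨V, h4, h5⟩ := h
      exact ⟨V, h4, fun h => (h5 h).elim⟩
  · obtain ⟨-, N, -, h5, h6⟩ := (hK W x).1 hx'
    exact h6 x h5 hx

theorem split_of_apart {U : Ult BB} {A B : Mod U} (h1 : Apart U A B) (h2 : Apart U B A) :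
    Split U A B := by
  obtain ⟨A, rfl⟩ := cl_surj U A
  obtain ⟨B, rfl⟩ := cl_surj U B
  refine dense0 (fun U => Apart U (cl U A) (cl U B) ∧ Apart U (cl U B) (cl U A))
    (fun U => Split U (cl U A) (cl U B)) ⟨h1, h2⟩ fun p hp => ?_
  obtain ⟨q, h3, h4⟩ := Cnd.core_normal (mon_FIn A) (mon_FIn B)
    (sep_FIn fun W hW => (hp W hW).1) (sep_FIn fun W hW => (hp W hW).2)
  obtain ⟨W, hW⟩ := ult_of q
  have h5 := hp W (in_mono h3 hW)
  refine ⟨W, in_mono h3 hW, ?_⟩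
  rcases h4 with h4 | h4
  · exact split_of_good h4 hW h5.1.sub h5.2.sub
  · exact (split_of_good h4 hW h5.2.sub h5.1.sub).symm

theorem mod_inter (U : Ult BB) (A B : Mod U) : ∃ K, ∀ x, Mem U x K ↔ Mem U x A ∧ Mem U x B := by
  obtain ⟨A, rfl⟩ := cl_surj U A
  obtain ⟨B, rfl⟩ := cl_surj U B
  exact ⟨_, mem_sepN (fun U x => Mem U x (cl U B)) A U⟩

theorem herNormal (U : Ult BB) : HerNormal (Mem U) (cl U spN) (cl U topN) := by
  intro Y S _ hS
  have key : ∀ A B, Closed (Mem U) Y S A → Closed (Mem U) Y S B → Disj (Mem U) A B →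
      Apart U A B := by
    rintro A B ⟨_, -, hA⟩ ⟨V, hV, hB⟩ hd x hx
    obtain ⟨V', h1, h2⟩ := (hS V).1 hV
    have h3 : Mem U x V := by
      by_contra h
      exact hd x hx ((hB x).2 ⟨((hA x).1 hx).1, h⟩)
    obtain ⟨N, h4, h5, h6⟩ := (mem_top.1 h1).2 x ((h2 x).1 h3).1
    exact ⟨N, h4, h5, fun z hz hzB => ((hB z).1 hzB).2 ((h2 z).2 ⟨h6 z hz, ((hB z).1 hzB).1⟩)⟩
  intro A B hA hB hd
  obtain ⟨V, V', h1, h2, h3, h4, h5⟩ := split_of_apart (key A B hA hB hd)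
    (key B A hB hA fun x hx hx' => hd x hx' hx)
  obtain ⟨K, hK⟩ := mod_inter U V Y
  obtain ⟨K', hK'⟩ := mod_inter U V' Y
  obtain ⟨_, -, hA⟩ := hA
  obtain ⟨_, -, hB⟩ := hB
  exact ⟨K, K', (hS K).2 ⟨V, h1, hK⟩, (hS K').2 ⟨V', h2, hK'⟩,
    fun x hx => (hK x).2 ⟨h3 x hx, ((hA x).1 hx).1⟩,
    fun x hx => (hK' x).2 ⟨h4 x hx, ((hB x).1 hx).1⟩,
    fun x hx hx' => h5 x ((hK x).1 hx).1 ((hK' x).1 hx').1⟩

/-- points of level at most `n` -/
noncomputable def levN (n : ℕ) : Name BB :=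
  sepN (fun U x => Mem U x (cl U (gs {a : Om | a.1 ≤ n}))) spN

theorem mem_lev {U : Ult BB} {n : ℕ} {x : Mod U} : Mem U x (cl U (levN n)) ↔
    Mem U x (cl U spN) ∧ Mem U x (cl U (gs {a : Om | a.1 ≤ n})) := mem_sepN _ _ U x

theorem lev_mono {m n : ℕ} (h : m ≤ n) (U : Ult BB) :
    Sub (Mem U) (cl U (levN m)) (cl U (levN n)) := fun x hx =>
  mem_lev.2 ⟨(mem_lev.1 hx).1, gs_sub (fun _ ha => le_trans ha h) U x (mem_lev.1 hx).2⟩

theorem lev_top (U : Ult BB) (n : ℕ) : Mem U (cl U (levN n)) (cl U topN) := by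
  refine mem_top.2 ⟨fun x hx => (mem_lev.1 hx).1, fun x hx => ?_⟩
  refine sp_ind (fun _ => True) (fun U x => Mem U x (cl U (levN n)) → ∃ N, Mem U N (cl U basN) ∧
    Mem U x N ∧ Sub (Mem U) N (cl U (levN n))) trivial ?_ x (mem_lev.1 hx).1 hx
  intro p y W _ hp hy
  have h1 : IsOpen {z | (p.ψ z).1 ≤ n} := by
    have := (p.closed_lev (n + 1)).isOpen_compl
    refine (congrArg IsOpen ?_).mp this
    ext z
    simp
  have h2 : p.ψ y ∈ {a : Om | a.1 ≤ n} := mem_gs.1 (mem_lev.1 hy).2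
  refine ⟨_, mem_bas hp (p.op_image h1), mem_gs.2 ⟨y, h2, rfl⟩,
    fun z hz => mem_lev.2 ⟨gs_sub_sp hp (image_subset_range _ _) z hz, gs_sub ?_ W z hz⟩⟩
  rintro _ ⟨w, hw, rfl⟩
  exact hw

/-- the cover by levels -/
noncomputable def covN : Name BB := grN natN levN

theorem cov_ind (P : Ult BB → Prop) [Clopen P] (Q : ∀ U : Ult BB, Mod U → Prop)
    [∀ n : Name BB, Clopen fun U => Q U (cl U n)] {U : Ult BB} (hp : P U)
    (H : ∀ (n : ℕ) (W : Ult BB), P W → Q W (cl W (levN n))) :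
    ∀ a b, App (Mem U) (cl U covN) a b → Q U b :=
  grN_ind P (fun U _ b => Q U b) hp H

/-- the values of `g` on `m` that refine the cover lie in level `n` -/
def Cap (U : Ult BB) (g m K : Mod U) : Prop :=
  ∀ j V, Mem U j m → App (Mem U) g j V → (∃ n L, App (Mem U) (cl U covN) n L ∧ Sub (Mem U) V L) →
    Sub (Mem U) V K

instance (g m K : Name BB) : Clopen fun U => Cap U (cl U g) (cl U m) (cl U K) := by
  unfold Cap; infer_instance

theorem exists_cap (P : Ult BB → Prop) [Clopen P] (g : Name BB)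
    (hg : ∀ W, P W → ∀ j V V', App (Mem W) (cl W g) j V → App (Mem W) (cl W g) j V' → V = V')
    {U : Ult BB} (hU : P U) (m : ℕ) :
    ∃ n, ∃ W, P W ∧ Cap W (cl W g) (cl W (natN m)) (cl W (levN n)) := by
  induction m with
  | zero => exact ⟨0, U, hU, fun j _ hj => (isEmp_ordN U j (by simpa [natN] using hj)).elim⟩
  | succ m ih =>
    obtain ⟨n, W, h1, h2⟩ := ih
    have hsuc : ∀ (W : Ult BB) j, Mem W j (cl W (natN (m + 1))) →
        Mem W j (cl W (natN m)) ∨ j = cl W (natN m) := fun W j hj =>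
      (isSuc_ordN (m : Ordinal.{0}) W j).1 (by simpa [natN] using hj)
    by_cases h : ∃ V, App (Mem W) (cl W g) (cl W (natN m)) V ∧
      ∃ n L, App (Mem W) (cl W covN) n L ∧ Sub (Mem W) V L
    · obtain ⟨V, h3, k, L, h4, h5⟩ := h
      obtain ⟨V, rfl⟩ := cl_surj W V
      by_contra hc
      refine cov_ind (fun W => P W ∧ Cap W (cl W g) (cl W (natN m)) (cl W (levN n)) ∧
        App (Mem W) (cl W g) (cl W (natN m)) (cl W V)) (fun W L => ¬ Sub (Mem W) (cl W V) L)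
        ⟨h1, h2, h3⟩ ?_ k L h4 h5
      rintro k W' ⟨h6, h7, h8⟩ h9
      refine hc ⟨max n k, W', h6, fun j V' hj h10 h11 x hx => ?_⟩
      rcases hsuc W' j hj with hj | rfl
      · exact lev_mono (le_max_left _ _) W' x (h7 j V' hj h10 h11 x hx)
      · rw [hg W' h6 _ _ _ h10 h8] at hx
        exact lev_mono (le_max_right _ _) W' x (h9 x hx)
    · refine ⟨n, W, h1, fun j V hj h3 h4 => ?_⟩
      rcases hsuc W j hj with hj | rfl
      · exact h2 j V hj h3 h4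
      · exact (h ⟨V, h3, h4⟩).elim

/-- the hypothesis on a refinement -/
def Refn (U : Ult BB) (S : Mod U) : Prop :=
  Sub (Mem U) S (cl U topN) ∧ (∀ x, Mem U x (cl U spN) → ∃ V, Mem U V S ∧ Mem U x V) ∧
    (∀ V, Mem U V S → ∃ n L, App (Mem U) (cl U covN) n L ∧ Sub (Mem U) V L) ∧
    ∀ x, Mem U x (cl U spN) → ∃ m g, Mem U m (cl U (ordN Ordinal.omega0)) ∧
      IsFun (Mem U) g m (cl U topN) ∧ ∀ V, Mem U V S → Mem U x V → ∃ j, App (Mem U) g j V

instance (S : Name BB) : Clopen fun U => Refn U (cl U S) := by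
  unfold Refn; infer_instance

theorem not_refn (U : Ult BB) (S : Mod U) : ¬ Refn U S := by
  obtain ⟨S, rfl⟩ := cl_surj U S
  intro h
  refine dense0 (fun U => Refn U (cl U S)) (fun _ => False) h fun p hp => False.elim ?_
  let Q : ℕ → ∀ U : Ult BB, Mod U → Prop := fun n U z => Mem U z (cl U spN) ∧
    ∀ V, Mem U V (cl U S) → Mem U z V → Sub (Mem U) V (cl U (levN n))
  have hQ : ∀ n (z : Name BB), Clopen fun U => Q n U (cl U z) := fun n z => by
    unfold Q; infer_instance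
  refine Cnd.core_cover (p := p) (F := fun n r a => Frc r fun U => Q n U (cl U (chk a)))
    (fun n _ _ _ h h' => h'.mono h) (fun n r _ a ha => ?_) (fun n r hr a ha => ?_)
    fun r hr x => ?_
  · obtain ⟨W, hW⟩ := ult_of r
    have h0 : W.In (⨆ p : {p : Cnd // a ∈ range p.ψ}, RO.emb p.1) :=
      (mem_wN (v := fun a : Om => ⨆ p : {p : Cnd // a ∈ range p.ψ}, RO.emb p.1)).1 (ha W hW).1
    obtain ⟨s, V, h1, h2⟩ := W.exists_iSup h0 hW
    obtain ⟨t, h3, h4, -⟩ := ext2 (fun _ => True) h1 h2 trivial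
    exact ⟨t, h3, Cnd.range_mono h4 s.2⟩
  · obtain ⟨W, hW⟩ := ult_of r
    have h1 := hp W (in_mono hr hW)
    obtain ⟨V, h2, h3⟩ := h1.2.1 _ (mem_sp hW ha.1)
    obtain ⟨N, h4, h5, h6⟩ := (mem_top.1 (h1.1 V h2)).2 _ h3
    refine sep_pt (Q n) hW ⟨N, h4, h5, fun z hz hq => ?_⟩
    have h7 : a ∈ {a : Om | a.1 ≤ n} := mem_gs.1 (mem_lev.1 (hq.2 V h2 (h6 z hz) _ h3)).2
    exact ha.2.not_ge h7
  · obtain ⟨W, hW⟩ := ult_of r
    obtain ⟨m, g, h1, h2, h3⟩ := (hp W (in_mono hr hW)).2.2.2 _ (mem_sp hW ⟨x, rfl⟩)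
    obtain ⟨g, rfl⟩ := cl_surj W g
    by_contra hc
    refine nat_ind (fun W => W.In (RO.emb r) ∧ ∀ V, Mem W V (cl W S) →
      Mem W (cl W (chk (r.ψ x))) V → ∃ j, App (Mem W) (cl W g) j V)
      (fun W m => ¬ IsFun (Mem W) (cl W g) m (cl W topN)) ⟨hW, h3⟩ ?_ m h1 h2
    intro m W' h4 h5
    obtain ⟨n, W'', ⟨⟨h6, h7⟩, h8⟩, h9⟩ := exists_cap (fun W => (W.In (RO.emb r) ∧
      ∀ V, Mem W V (cl W S) → Mem W (cl W (chk (r.ψ x))) V → ∃ j, App (Mem W) (cl W g) j V) ∧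
      IsFun (Mem W) (cl W g) (cl W (natN m)) (cl W topN)) g
      (fun W h j V V' h1 h2 => h.2.app_unique h1 h2) ⟨h4, h5⟩ m
    obtain ⟨r', h10, h11⟩ := ext1 (fun U => Q n U (cl U (chk (r.ψ x)))) h6
      ⟨mem_sp h6 ⟨x, rfl⟩, fun V hV hx => by
        obtain ⟨j, hj⟩ := h7 V hV hx
        exact h9 j V (h8.app_mem hj).1 hj ((hp W'' (in_mono hr h6)).2.2.1 V hV)⟩
    exact hc ⟨r', h10, n, h11⟩

theorem not_cp (U : Ult BB) : ¬ CtblyParacompact (Mem U) (cl U spN) (cl U topN) := by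
  intro h
  obtain ⟨S, h1, h2, h3, h4⟩ := h _ (cl U covN) (isOmega_omega U)
    (isFun_grN natN_inj (fun _ => True) trivial (fun n W _ => ⟨natN_mem W n, lev_top W n⟩)
      (nat_ind (fun _ => True) (fun U a => ∃ b, App (Mem U) (cl U covN) a b) trivial
        fun n W _ => ⟨_, app_grN W n⟩))
    (sp_ind (fun _ => True) (fun U x => ∃ n L, App (Mem U) (cl U covN) n L ∧ Mem U x L) trivial
      fun p x W _ hp => ⟨_, _, app_grN W (p.ψ x).1, mem_lev.2 ⟨mem_sp hp ⟨x, rfl⟩,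
        mem_gs.2 (le_refl (p.ψ x).1)⟩⟩)
  refine not_refn U S ⟨h1, h2, h3, fun x hx => ?_⟩
  obtain ⟨N, m, g, -, h5, h6, h7, h8⟩ := h4 x hx
  exact ⟨m, g, h6, h7, fun V hV hxV => (h8 V hV).resolve_left fun hd => hd x hxV h5⟩

theorem main : ∃ (M : Type 1) (E : M → M → Prop), IsZFC E ∧ ∃ X T L R, IsTop E X T ∧
    IsT2 E X T ∧ IsLine E L R ∧ LocPlane E X T L R ∧ HerNormal E X T ∧
    ¬ CtblyParacompact E X T := by
  obtain ⟨U, -⟩ := ult_of (Classical.arbitrary Cnd)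
  exact ⟨Mod U, Mem U, isZFC_mod U, _, _, _, _, isTop U, isT2 U, isLine U, locPlane U,
    herNormal U, not_cp U⟩

end Pool.Agent.Lib.MP_db8568_gt
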