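import Pool.Agent.Lib.MP_db8568_gt.Line

/-!
The generic surface.
-/

namespace Pool.Agent.Lib.MP_db8568_gt

open Pool.Agent.Lib.MP_5d9fac_lc Set

/-- name of the surface -/
noncomputable def spN : Name BB := wN fun a : Om => ⨆ p : {p : Cnd // a ∈ range p.ψ}, RO.emb p.1

/-- name of the basis -/
noncomputable def basN : Name BB :=
  Name.mk (Set Om) gs fun S => ⨆ p : {p : Cnd // p.Op S}, RO.emb p.1

/-- name of the topology -/
noncomputable def topN : Name BB :=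
  sepN (fun U V => ∀ x, Mem U x V → ∃ N, Mem U N (cl U basN) ∧ Mem U x N ∧ Sub (Mem U) N V)
    (powN spN)

theorem mem_top {U : Ult BB} {V : Mod U} : Mem U V (cl U topN) ↔ Sub (Mem U) V (cl U spN) ∧
    ∀ x, Mem U x V → ∃ N, Mem U N (cl U basN) ∧ Mem U x N ∧ Sub (Mem U) N V := by
  rw [topN, mem_sepN, isPow_powN]

theorem mem_sp {U : Ult BB} {p : Cnd} (hp : U.In (RO.emb p)) {a : Om} (ha : a ∈ range p.ψ) :
    Mem U (cl U (chk a)) (cl U spN) :=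
  mem_wN.2 (U.iSup_intro (f := fun p : {p : Cnd // a ∈ range p.ψ} => RO.emb p.1) ⟨p, ha⟩ hp)

theorem mem_bas {U : Ult BB} {p : Cnd} (hp : U.In (RO.emb p)) {S : Set Om} (hS : p.Op S) :
    Mem U (cl U (gs S)) (cl U basN) :=
  mem_mk (A := gs) S (U.iSup_intro (f := fun p : {p : Cnd // p.Op S} => RO.emb p.1) ⟨p, hS⟩ hp)

theorem sp_ind (P : Ult BB → Prop) [Clopen P] (Q : ∀ U : Ult BB, Mod U → Prop)
    [∀ n : Name BB, Clopen fun U => Q U (cl U n)] {U : Ult BB} (hp : P U)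
    (H : ∀ (p : Cnd) (x : E2) (W : Ult BB), P W → W.In (RO.emb p) → Q W (cl W (chk (p.ψ x)))) :
    ∀ z, Mem U z (cl U spN) → Q U z := by
  refine mem_mk_ind P Q hp fun a W hW ha => ?_
  refine iSup_elim P (fun U => Q U (cl U (chk a))) ha hW ?_
  rintro ⟨p, x, rfl⟩ V h1 h2
  exact H p x V h1 h2

theorem sp_ind' (Q : ∀ U : Ult BB, Mod U → Prop)
    [∀ n : Name BB, Clopen fun U => Q U (cl U n)] {U : Ult BB} {q : Cnd} (hq : U.In (RO.emb q))
    (H : ∀ r, r ≤ q → ∀ x : E2, ∃ W : Ult BB, W.In (RO.emb r) ∧ Q W (cl W (chk (r.ψ x)))) :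
    ∀ z, Mem U z (cl U spN) → Q U z := by
  refine sp_ind (fun U => U.In (RO.emb q)) Q hq fun p x W h1 h2 => ?_
  obtain ⟨r, h3, h4, -⟩ := ext2 (fun _ => True) h1 h2 trivial
  refine dense1 (fun U => U.In (RO.emb p)) (fun U => Q U (cl U (chk (p.ψ x)))) h1 h2
    fun s hs hsp => ?_
  obtain ⟨V, hV⟩ := ult_of s
  obtain ⟨t, h5, h6, -⟩ := ext2 (fun _ => True) hV (hsp V hV) trivial
  obtain ⟨y, hy⟩ := Cnd.range_mono h6 ⟨x, rfl⟩
  obtain ⟨V', h7, h8⟩ := H t (h5.trans hs) y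
  exact ⟨V', in_mono h5 h7, hy ▸ h8⟩

theorem bas_ind (P : Ult BB → Prop) [Clopen P] (Q : ∀ U : Ult BB, Mod U → Prop)
    [∀ n : Name BB, Clopen fun U => Q U (cl U n)] {U : Ult BB} (hp : P U)
    (H : ∀ (p : Cnd) (S : Set Om) (W : Ult BB), p.Op S → P W → W.In (RO.emb p) →
      Q W (cl W (gs S))) : ∀ z, Mem U z (cl U basN) → Q U z := by
  refine mem_mk_ind P Q hp fun S W hW ha => ?_
  refine iSup_elim P (fun U => Q U (cl U (gs S))) ha hW ?_
  rintro ⟨p, hp⟩ V h1 h2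
  exact H p S V hp h1 h2

theorem gs_sub_sp {U : Ult BB} {p : Cnd} (hp : U.In (RO.emb p)) {S : Set Om}
    (hS : S ⊆ range p.ψ) : Sub (Mem U) (cl U (gs S)) (cl U spN) :=
  gs_ind (fun U => U.In (RO.emb p)) (fun U z => Mem U z (cl U spN)) hp fun _ ha _ hW =>
    mem_sp hW (hS ha)

theorem bas_sub {U : Ult BB} : ∀ N, Mem U N (cl U basN) → Sub (Mem U) N (cl U spN) :=
  bas_ind (fun _ => True) (fun U N => Sub (Mem U) N (cl U spN)) trivial fun _ _ _ h _ hp =>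
    gs_sub_sp hp h.1

theorem bas_top {U : Ult BB} {N : Mod U} (h : Mem U N (cl U basN)) : Mem U N (cl U topN) :=
  mem_top.2 ⟨bas_sub N h, fun _ hx => ⟨N, h, hx, fun _ h => h⟩⟩

theorem bas_inter {U : Ult BB} : ∀ N, Mem U N (cl U basN) → ∀ N', Mem U N' (cl U basN) →
    ∃ K, Mem U K (cl U basN) ∧ ∀ x, Mem U x K ↔ Mem U x N ∧ Mem U x N' := by
  refine bas_ind (fun _ => True) (fun U N => ∀ N', Mem U N' (cl U basN) →
    ∃ K, Mem U K (cl U basN) ∧ ∀ x, Mem U x K ↔ Mem U x N ∧ Mem U x N') trivial ?_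
  intro p S W hS _ hp
  refine bas_ind (fun U => U.In (RO.emb p)) (fun U N' =>
    ∃ K, Mem U K (cl U basN) ∧ ∀ x, Mem U x K ↔ Mem U x (cl U (gs S)) ∧ Mem U x N') hp ?_
  intro q S' W hS' hp hq
  refine dense1 (fun U => U.In (RO.emb q)) (fun U => ∃ K, Mem U K (cl U basN) ∧
    ∀ x, Mem U x K ↔ Mem U x (cl U (gs S)) ∧ Mem U x (cl U (gs S'))) hp hq fun s hs hsq => ?_
  obtain ⟨V, hV⟩ := ult_of s
  obtain ⟨t, h5, h6, -⟩ := ext2 (fun _ => True) hV (hsq V hV) trivial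
  obtain ⟨V', hV'⟩ := ult_of t
  exact ⟨V', in_mono h5 hV', _, mem_bas hV' ((hS.mono (h5.trans hs)).inter (hS'.mono h6)),
    fun x => ⟨fun h => ⟨gs_sub inter_subset_left _ x h, gs_sub inter_subset_right _ x h⟩,
      fun h => gs_inter _ _ _ x h.1 h.2⟩⟩

theorem op_range (p : Cnd) : p.Op (range p.ψ) := ⟨subset_rfl, by simp⟩

theorem isTop (U : Ult BB) : IsTop (Mem U) (cl U spN) (cl U topN) := by
  refine ⟨fun V h => (mem_top.1 h).1, mem_top.2 ⟨fun _ h => h, ?_⟩, fun V V' K h1 h2 h3 => ?_,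
    fun S K h1 h2 => ?_⟩
  · exact sp_ind (fun _ => True) (fun U x => ∃ N, Mem U N (cl U basN) ∧ Mem U x N ∧
      Sub (Mem U) N (cl U spN)) trivial fun p x W _ hp =>
        ⟨_, mem_bas hp (op_range p), mem_gs.2 ⟨x, rfl⟩, gs_sub_sp hp subset_rfl⟩
  · rw [mem_top] at h1 h2 ⊢
    refine ⟨fun x hx => h1.1 x ((h3 x).1 hx).1, fun x hx => ?_⟩
    obtain ⟨N, h4, h5, h6⟩ := h1.2 x ((h3 x).1 hx).1
    obtain ⟨N', h7, h8, h9⟩ := h2.2 x ((h3 x).1 hx).2
    obtain ⟨N'', h10, h11⟩ := bas_inter N h4 N' h7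
    exact ⟨N'', h10, (h11 x).2 ⟨h5, h8⟩, fun y hy =>
      (h3 y).2 ⟨h6 y ((h11 y).1 hy).1, h9 y ((h11 y).1 hy).2⟩⟩
  · rw [mem_top]
    refine ⟨fun x hx => ?_, fun x hx => ?_⟩
    · obtain ⟨V, h3, h4⟩ := (h2 x).1 hx
      exact (mem_top.1 (h1 V h3)).1 x h4
    · obtain ⟨V, h3, h4⟩ := (h2 x).1 hx
      obtain ⟨N, h5, h6, h7⟩ := (mem_top.1 (h1 V h3)).2 x h4
      exact ⟨N, h5, h6, fun y hy => (h2 y).2 ⟨V, h3, h7 y hy⟩⟩

theorem isT2 (U : Ult BB) : IsT2 (Mem U) (cl U spN) (cl U topN) := by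
  intro x y hx hy
  refine sp_ind (fun _ => True) (fun U x => ∀ y, Mem U y (cl U spN) → x ≠ y → ∃ V V',
    Mem U V (cl U topN) ∧ Mem U V' (cl U topN) ∧ Mem U x V ∧ Mem U y V' ∧ Disj (Mem U) V V')
    trivial ?_ x hx y hy
  intro p a W _ hp
  refine sp_ind' (fun U y => cl U (chk (p.ψ a)) ≠ y → ∃ V V',
    Mem U V (cl U topN) ∧ Mem U V' (cl U topN) ∧ Mem U (cl U (chk (p.ψ a))) V ∧ Mem U y V' ∧
      Disj (Mem U) V V') hp fun r hr b => ?_
  obtain ⟨V, hV⟩ := ult_of r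
  obtain ⟨a', ha⟩ := Cnd.range_mono hr ⟨a, rfl⟩
  refine ⟨V, hV, fun hne => ?_⟩
  have : a' ≠ b := by
    rintro rfl
    exact hne (by rw [ha])
  obtain ⟨O, O', h1, h2, h3, h4, h5⟩ := t2_separation this
  exact ⟨_, _, bas_top (mem_bas hV (r.op_image h1)), bas_top (mem_bas hV (r.op_image h2)),
    mem_gs.2 ⟨a', h3, ha⟩, mem_gs.2 ⟨b, h4, rfl⟩, gs_disj ((disjoint_image_iff r.inj).2 h5) V⟩

/-- name of a coordinate function -/
noncomputable def crd (p : Cnd) (π : E2 → ℝ) : Name BB :=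
  grN (fun x => chk (p.ψ x)) fun x => chk (π x)

theorem chart_inj (p : Cnd) (W : Ult BB) (x y : E2)
    (h : cl W (chk (p.ψ x)) = cl W (chk (p.ψ y))) : x = y := p.inj (chk_inj h)

theorem isFun_crd (p : Cnd) (π : E2 → ℝ) (U : Ult BB) :
    IsFun (Mem U) (cl U (crd p π)) (cl U (gs (range p.ψ))) (cl U lineN) := by
  refine isFun_grN (chart_inj p) (fun _ => True) trivial
    (fun x W _ => ⟨mem_gs.2 ⟨x, rfl⟩, mem_line W _⟩) ?_
  refine gs_ind (fun _ => True) (fun U a => ∃ b, App (Mem U) (cl U (crd p π)) a b) trivial ?_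
  rintro _ ⟨x, rfl⟩ W _
  exact ⟨_, app_grN W x⟩

theorem app_crd {p : Cnd} {π : E2 → ℝ} {U : Ult BB} {x : E2} {b : Mod U} :
    App (Mem U) (cl U (crd p π)) (cl U (chk (p.ψ x))) b ↔ b = cl U (chk (π x)) :=
  app_grN_iff (chart_inj p)

theorem inBox_iff {p : Cnd} {U : Ult BB} {a b c d : ℝ} {x : E2} :
    InBox (Mem U) (cl U ltN) (cl U (crd p Prod.fst)) (cl U (crd p Prod.snd)) (cl U (chk a))
      (cl U (chk b)) (cl U (chk c)) (cl U (chk d)) (cl U (chk (p.ψ x))) ↔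
      x ∈ Ioo a b ×ˢ Ioo c d := by
  constructor
  · rintro ⟨s, t, h1, h2, h3, h4, h5, h6⟩
    rw [app_crd] at h1 h2
    subst h1 h2
    exact ⟨⟨app_lt.1 h3, app_lt.1 h4⟩, app_lt.1 h5, app_lt.1 h6⟩
  · rintro ⟨⟨h1, h2⟩, h3, h4⟩
    exact ⟨_, _, app_crd.2 rfl, app_crd.2 rfl, app_lt.2 h1, app_lt.2 h2, app_lt.2 h3, app_lt.2 h4⟩

theorem box_iff (p : Cnd) (U : Ult BB) (a b c d : ℝ) (z : Mod U) :
    InBox (Mem U) (cl U ltN) (cl U (crd p Prod.fst)) (cl U (crd p Prod.snd)) (cl U (chk a))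
      (cl U (chk b)) (cl U (chk c)) (cl U (chk d)) z ↔
      Mem U z (cl U (gs (p.ψ '' (Ioo a b ×ˢ Ioo c d)))) := by
  constructor
  · intro h
    have h1 : Mem U z (cl U (gs (range p.ψ))) := by
      obtain ⟨s, t, h1, -⟩ := h
      exact ((isFun_crd p _ U).app_mem h1).1
    refine gs_ind (fun _ => True) (fun U z => InBox (Mem U) (cl U ltN) (cl U (crd p Prod.fst))
      (cl U (crd p Prod.snd)) (cl U (chk a)) (cl U (chk b)) (cl U (chk c)) (cl U (chk d)) z →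
      Mem U z (cl U (gs (p.ψ '' (Ioo a b ×ˢ Ioo c d))))) trivial ?_ z h1 h
    rintro _ ⟨x, rfl⟩ W _ h2
    exact mem_gs.2 ⟨x, inBox_iff.1 h2, rfl⟩
  · refine gs_ind (fun _ => True) (fun U z => InBox (Mem U) (cl U ltN) (cl U (crd p Prod.fst))
      (cl U (crd p Prod.snd)) (cl U (chk a)) (cl U (chk b)) (cl U (chk c)) (cl U (chk d)) z)
      trivial ?_ z
    rintro _ ⟨x, hx, rfl⟩ W _
    exact inBox_iff.2 hx

theorem box_bas (p : Cnd) {U : Ult BB} (hp : U.In (RO.emb p)) :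
    ∀ a, Mem U a (cl U lineN) → ∀ b, Mem U b (cl U lineN) → ∀ c, Mem U c (cl U lineN) →
      ∀ d, Mem U d (cl U lineN) → ∃ N, Mem U N (cl U basN) ∧ ∀ z, InBox (Mem U) (cl U ltN)
        (cl U (crd p Prod.fst)) (cl U (crd p Prod.snd)) a b c d z ↔ Mem U z N := by
  refine line_ind (fun U => U.In (RO.emb p)) (fun U a => ∀ b, Mem U b (cl U lineN) →
    ∀ c, Mem U c (cl U lineN) →
      ∀ d, Mem U d (cl U lineN) → ∃ N, Mem U N (cl U basN) ∧ ∀ z, InBox (Mem U) (cl U ltN)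
        (cl U (crd p Prod.fst)) (cl U (crd p Prod.snd)) a b c d z ↔ Mem U z N) hp fun a U hp => ?_
  refine line_ind (fun U => U.In (RO.emb p)) (fun U b => ∀ c, Mem U c (cl U lineN) →
      ∀ d, Mem U d (cl U lineN) → ∃ N, Mem U N (cl U basN) ∧ ∀ z, InBox (Mem U) (cl U ltN)
        (cl U (crd p Prod.fst)) (cl U (crd p Prod.snd)) (cl U (chk a)) b c d z ↔ Mem U z N) hp
    fun b U hp => ?_
  refine line_ind (fun U => U.In (RO.emb p)) (fun U c =>
      ∀ d, Mem U d (cl U lineN) → ∃ N, Mem U N (cl U basN) ∧ ∀ z, InBox (Mem U) (cl U ltN)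
        (cl U (crd p Prod.fst)) (cl U (crd p Prod.snd)) (cl U (chk a)) (cl U (chk b)) c d z ↔
          Mem U z N) hp fun c U hp => ?_
  refine line_ind (fun U => U.In (RO.emb p)) (fun U d =>
      ∃ N, Mem U N (cl U basN) ∧ ∀ z, InBox (Mem U) (cl U ltN)
        (cl U (crd p Prod.fst)) (cl U (crd p Prod.snd)) (cl U (chk a)) (cl U (chk b))
          (cl U (chk c)) d z ↔ Mem U z N) hp fun d U hp => ?_
  exact ⟨_, mem_bas hp (p.op_image (isOpen_Ioo.prod isOpen_Ioo)), box_iff p U a b c d⟩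

/-- `y` has a box neighbourhood inside `V` -/
def BoxN {M : Type 1} (E : M → M → Prop) (R f g V y : M) : Prop :=
  ∃ a b c d, InBox E R f g a b c d y ∧ ∀ z, InBox E R f g a b c d z → E z V

instance (R f g V y : Name BB) : Clopen fun U => BoxN (Mem U) (cl U R) (cl U f) (cl U g)
    (cl U V) (cl U y) := by
  unfold BoxN; infer_instance

/-- the coordinates give a bijection -/
def CBij {M : Type 1} (E : M → M → Prop) (L f g : M) : Prop :=
  ∀ s t, E s L → E t L → ∃! y, App E f y s ∧ App E g y t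

instance (L f g : Name BB) : Clopen fun U => CBij (Mem U) (cl U L) (cl U f) (cl U g) := by
  unfold CBij; infer_instance

/-- the coordinates give a homeomorphism -/
def CTop {M : Type 1} (E : M → M → Prop) (T R K f g : M) : Prop :=
  ∀ V, Sub E V K → (E V T ↔ ∀ y, E y V → BoxN E R f g V y)

instance (T R K f g : Name BB) : Clopen fun U => CTop (Mem U) (cl U T) (cl U R) (cl U K)
    (cl U f) (cl U g) := by
  unfold CTop; infer_instance

theorem bas_box (p : Cnd) {U : Ult BB} (hp : U.In (RO.emb p)) :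
    ∀ N, Mem U N (cl U basN) → ∀ y, Mem U y (cl U (gs (range p.ψ))) → Mem U y N →
      BoxN (Mem U) (cl U ltN) (cl U (crd p Prod.fst)) (cl U (crd p Prod.snd)) N y := by
  refine bas_ind (fun U => U.In (RO.emb p)) (fun U N => ∀ y, Mem U y (cl U (gs (range p.ψ))) →
    Mem U y N → BoxN (Mem U) (cl U ltN) (cl U (crd p Prod.fst)) (cl U (crd p Prod.snd)) N y) hp
    fun q S U hS hp hq => ?_
  obtain ⟨r, h1, h2, -⟩ := ext2 (fun _ => True) hp hq trivial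
  have h3 := (hS.mono h2).pull h1
  refine gs_ind (fun _ => True) (fun U y => Mem U y (cl U (gs S)) →
    BoxN (Mem U) (cl U ltN) (cl U (crd p Prod.fst)) (cl U (crd p Prod.snd)) (cl U (gs S)) y)
    trivial ?_
  rintro _ ⟨x, rfl⟩ W _ hx
  have hx' : p.ψ x ∈ S := mem_gs.1 hx
  obtain ⟨u, v, hu, hv, h4, h5, h6⟩ := isOpen_prod_iff.1 h3 x.1 x.2 hx'
  obtain ⟨a, b, h7, h8⟩ := mem_nhds_iff_exists_Ioo_subset.1 (hu.mem_nhds h4)
  obtain ⟨c, d, h9, h10⟩ := mem_nhds_iff_exists_Ioo_subset.1 (hv.mem_nhds h5)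
  refine ⟨_, _, _, _, inBox_iff.2 ⟨h7, h9⟩, fun z hz =>
    gs_sub ?_ W z ((box_iff p W a b c d z).1 hz)⟩
  exact image_subset_iff.2 ((prod_mono h8 h10).trans h6)

theorem locPlane (U : Ult BB) :
    LocPlane (Mem U) (cl U spN) (cl U topN) (cl U lineN) (cl U ltN) := by
  refine sp_ind (fun _ => True) (fun U x => ∃ K f g, Mem U K (cl U topN) ∧ Mem U x K ∧
    IsFun (Mem U) f K (cl U lineN) ∧ IsFun (Mem U) g K (cl U lineN) ∧
    CBij (Mem U) (cl U lineN) f g ∧ CTop (Mem U) (cl U topN) (cl U ltN) K f g) trivial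
    fun p x U _ hp => ?_
  refine ⟨_, _, _, bas_top (mem_bas hp (op_range p)), mem_gs.2 ⟨x, rfl⟩, isFun_crd p Prod.fst U,
    isFun_crd p Prod.snd U, fun s t hs ht => ?_, fun V hV => ?_⟩
  · refine line_ind (fun _ => True) (fun U s => ∀ t, Mem U t (cl U lineN) →
      ∃! y, App (Mem U) (cl U (crd p Prod.fst)) y s ∧ App (Mem U) (cl U (crd p Prod.snd)) y t)
      trivial (fun a U _ => ?_) s hs t ht
    refine line_ind (fun _ => True) (fun U t => ∃! y,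
      App (Mem U) (cl U (crd p Prod.fst)) y (cl U (chk a)) ∧
        App (Mem U) (cl U (crd p Prod.snd)) y t) trivial fun b U _ => ?_
    refine ⟨cl U (chk (p.ψ (a, b))), ⟨app_crd.2 rfl, app_crd.2 rfl⟩, fun y hy => ?_⟩
    refine gs_ind (fun _ => True) (fun U y => App (Mem U) (cl U (crd p Prod.fst)) y
      (cl U (chk a)) ∧ App (Mem U) (cl U (crd p Prod.snd)) y (cl U (chk b)) →
        y = cl U (chk (p.ψ (a, b)))) trivial ?_ y ((isFun_crd p _ U).app_mem hy.1).1 hy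
    rintro _ ⟨z, rfl⟩ W _ ⟨h1, h2⟩
    rw [chk_inj (app_crd.1 h1), chk_inj (app_crd.1 h2)]
  · rw [mem_top]
    refine ⟨fun h y hy => ?_, fun h => ⟨fun y hy => gs_sub_sp hp subset_rfl y (hV y hy),
      fun y hy => ?_⟩⟩
    · obtain ⟨N, h1, h2, h3⟩ := h.2 y hy
      obtain ⟨a, b, c, d, h4, h5⟩ := bas_box p hp N h1 y (hV y hy) h2
      exact ⟨a, b, c, d, h4, fun z hz => h3 z (h5 z hz)⟩
    · obtain ⟨a, b, c, d, h1, h2⟩ := h y hy
      obtain ⟨s, t, -, -, h3, h4, h5, h6⟩ := id h1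
      obtain ⟨N, h7, h8⟩ := box_bas p hp a (lt_mem _ _ h3).1 b (lt_mem _ _ h4).2.1 c
        (lt_mem _ _ h5).1 d (lt_mem _ _ h6).2.1
      exact ⟨N, h7, (h8 y).1 h1, fun z hz => h2 z ((h8 z).2 hz)⟩

end Pool.Agent.Lib.MP_db8568_gt
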