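import Pool.Agent.Lib.MP_db8568_gt.Grid

/-!
Pictures in the plane, their extensions, and one step of the recoordinatisation.
-/

namespace Pool.Agent.Lib.MP_db8568_gt

open Set Topology Metric

/-- maps that agree on each compact set with a homeomorphism of the plane -/
def LocExt (e : E2 → E2) : Prop := ∀ K, IsCompact K → ∃ h : E2 ≃ₜ E2, EqOn e h K

theorem LocExt.homeo (g : E2 ≃ₜ E2) : LocExt g := fun _ _ => ⟨g, fun _ _ => rfl⟩

theorem LocExt.id : LocExt id := LocExt.homeo (Homeomorph.refl E2)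

theorem LocExt.comp {e e' : E2 → E2} (h' : LocExt e') (h : LocExt e) : LocExt (e' ∘ e) := by
  intro K hK
  obtain ⟨g, hg⟩ := h K hK
  obtain ⟨g', hg'⟩ := h' (g '' K) (hK.image g.continuous)
  refine ⟨g.trans g', fun x hx => ?_⟩
  simp only [Function.comp, Homeomorph.trans_apply, hg hx]
  exact hg' ⟨x, hx, rfl⟩

theorem LocExt.emb {e : E2 → E2} (h : LocExt e) : IsOpenEmbedding e := by
  have key : ∀ x, ∃ g : E2 ≃ₜ E2, e =ᶠ[𝓝 x] g := fun x => by
    obtain ⟨g, hg⟩ := h _ (isCompact_closedBall x 1)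
    exact ⟨g, Filter.eventuallyEq_of_mem (closedBall_mem_nhds x one_pos) hg⟩
  refine IsOpenEmbedding.of_continuous_injective_isOpenMap ?_ ?_ ?_
  · rw [continuous_iff_continuousAt]
    intro x
    obtain ⟨g, hg⟩ := key x
    exact g.continuous.continuousAt.congr hg.symm
  · intro x y hxy
    obtain ⟨g, hg⟩ := h {x, y} (toFinite _).isCompact
    rw [hg (by simp), hg (by simp)] at hxy
    exact g.injective hxy
  · rw [isOpenMap_iff_nhds_le]
    intro x
    obtain ⟨g, hg⟩ := key x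
    rw [Filter.map_congr hg, g.map_nhds_eq, hg.eq_of_nhds]

/-- index set of the cells -/
abbrev CI : Type := Option (ℕ × Bool)

/-- a level function with a typed family of cells -/
structure Pic where
  lv : E2 → ℕ
  D : CI → Set E2
  t : CI → ℕ

/-- union of the cells of type at least `j` -/
def Pic.H (P : Pic) (j : ℕ) : Set E2 := {x | ∃ i, j ≤ P.t i ∧ x ∈ P.D i}

/-- the requirements on a picture -/
structure Pic.Valid (P : Pic) : Prop where
  cell : ∀ i, Cell (P.D i)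
  disj : ∀ i j, i ≠ j → Disjoint (P.D i) (P.D j)
  lf : LocallyFinite P.D
  cnt : {x | 1 ≤ P.lv x}.Countable
  cl : ∀ j, IsClosed {x | j ≤ P.lv x}
  sub : ∀ x, 1 ≤ P.lv x → x ∈ P.H (P.lv x)

/-- extension of pictures along a map -/
structure Ext (P Q : Pic) (e : E2 → E2) : Prop where
  loc : LocExt e
  lv : ∀ x, Q.lv (e x) = P.lv x
  bd : ∀ j, 1 ≤ j → ∃ K, IsCompact K ∧ e '' P.H j ⊆ Q.H j ∪ K
  new : ∀ j, 1 ≤ j → ∀ x, x ∉ range e → Q.lv x < j → x ∉ closure (e '' P.H j)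

theorem Pic.H_anti (P : Pic) {i j : ℕ} (h : i ≤ j) : P.H j ⊆ P.H i :=
  fun _ ⟨k, hk, hx⟩ => ⟨k, h.trans hk, hx⟩

theorem Pic.Valid.closed_union {P : Pic} (hP : P.Valid) (s : CI → Prop) :
    IsClosed {x | ∃ i, s i ∧ x ∈ P.D i} := by
  have h1 : LocallyFinite fun i => {x | s i ∧ x ∈ P.D i} :=
    hP.lf.subset fun i x hx => hx.2
  have h2 := h1.isClosed_iUnion fun i => by
    by_cases h : s i
    · simpa [h] using (hP.cell i).cpt.isClosed
    · simp [h]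
  rwa [← ofPred_exists] at h2

theorem Pic.Valid.closed_H {P : Pic} (hP : P.Valid) (j : ℕ) : IsClosed (P.H j) :=
  hP.closed_union _

theorem Pic.Valid.mem_H {P : Pic} (hP : P.Valid) {j : ℕ} (hj : 1 ≤ j) {x : E2}
    (hx : j ≤ P.lv x) : x ∈ P.H j := P.H_anti hx (hP.sub x (hj.trans hx))

theorem closure_image_mem {e : E2 → E2} (he : IsOpenEmbedding e) {S : Set E2} {x : E2}
    (h : e x ∈ closure (e '' S)) : x ∈ closure S := by
  have := he.isOpenMap.preimage_closure_subset_closure_preimage h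
  rwa [preimage_image_eq _ he.injective] at this

theorem Ext.refl (P : Pic) : Ext P P id :=
  ⟨LocExt.id, fun _ => rfl, fun _ _ => ⟨∅, isCompact_empty, by simp⟩,
    fun _ _ x hx => (hx ⟨x, rfl⟩).elim⟩

theorem Ext.trans {P Q S : Pic} {e e' : E2 → E2} (h : Ext P Q e) (h' : Ext Q S e') :
    Ext P S (e' ∘ e) := by
  have he' := h'.loc.emb
  refine ⟨h'.loc.comp h.loc, fun x => by simp [h'.lv, h.lv], fun j hj => ?_, fun j hj x hx hl => ?_⟩
  · obtain ⟨K, hK, h1⟩ := h.bd j hj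
    obtain ⟨K', hK', h2⟩ := h'.bd j hj
    refine ⟨K' ∪ e' '' K, hK'.union (hK.image he'.continuous), ?_⟩
    rintro _ ⟨x, hx, rfl⟩
    rcases h1 ⟨x, hx, rfl⟩ with h3 | h3
    · rcases h2 ⟨_, h3, rfl⟩ with h4 | h4
      · exact Or.inl h4
      · exact Or.inr (Or.inl h4)
    · exact Or.inr (Or.inr ⟨_, h3, rfl⟩)
  · rw [image_comp]
    by_cases hr : x ∈ range e'
    · obtain ⟨y, rfl⟩ := hr
      intro hc
      refine h.new j hj y (fun ⟨z, hz⟩ => hx ⟨z, by simp [hz]⟩) (by rwa [h'.lv] at hl) ?_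
      exact closure_image_mem he' hc
    · obtain ⟨K, hK, h1⟩ := h.bd j hj
      intro hc
      have h2 := closure_mono (image_mono (f := e') h1) hc
      rw [image_union, closure_union, (hK.image he'.continuous).isClosed.closure_eq] at h2
      rcases h2 with h2 | h2
      · exact h'.new j hj x hr hl h2
      · exact hr (image_subset_range _ _ h2)

/-- the part of the new picture that has to be covered by cells of type at least `j` -/
def Yset (P Q : Pic) (e : E2 → E2) (j : ℕ) : Set E2 := e '' P.H j ∪ {y | j ≤ Q.lv y}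

theorem Yset_anti (P Q : Pic) (e : E2 → E2) {i j : ℕ} (h : i ≤ j) :
    Yset P Q e j ⊆ Yset P Q e i :=
  union_subset_union (image_mono (P.H_anti h)) fun _ hy => h.trans hy

theorem Yset_closed {P Q : Pic} {e : E2 → E2} (hP : P.Valid) (hQ : Q.Valid) (h : Ext P Q e)
    {j : ℕ} (hj : 1 ≤ j) : IsClosed (Yset P Q e j) := by
  rw [← closure_subset_iff_isClosed, Yset, closure_union, (hQ.cl j).closure_eq]
  refine union_subset (fun y hy => ?_) subset_union_right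
  by_cases hr : y ∈ range e
  · obtain ⟨x, rfl⟩ := hr
    have := closure_image_mem h.loc.emb hy
    rw [(hP.closed_H j).closure_eq] at this
    exact Or.inl ⟨x, this, rfl⟩
  · by_contra hc
    exact h.new j hj y hr (not_le.1 fun h' => hc (Or.inr h')) hy

theorem Yset_mem {P Q : Pic} {e : E2 → E2} (hP : P.Valid) (h : Ext P Q e)
    {j : ℕ} (hj : 1 ≤ j) {x : E2} (hx : e x ∈ Yset P Q e j) : x ∈ P.H j := by
  rcases hx with ⟨y, hy, hyx⟩ | hx
  · rwa [← h.loc.emb.injective hyx]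
  · exact hP.mem_H hj (by rw [← h.lv]; exact hx)

theorem Yset_bound {P Q : Pic} {e : E2 → E2} (hP : P.Valid) (hQ : Q.Valid) (h : Ext P Q e)
    {K : Set E2} (hK : IsCompact K) : ∃ n, ∀ j, ∀ y ∈ Yset P Q e j, y ∈ K → j ≤ n := by
  have h1 : K ⊆ ⋃ n, (Yset P Q e (n + 1))ᶜ := by
    intro y _
    rw [mem_iUnion]
    by_cases hr : ∃ i x, x ∈ P.D i ∧ e x = y
    · obtain ⟨i, x, hx, rfl⟩ := hr
      refine ⟨P.t i, fun hc => ?_⟩
      obtain ⟨i', hi', hx'⟩ := Yset_mem hP h (by omega) hc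
      by_cases hii : i = i'
      · subst hii; omega
      · exact disjoint_left.1 (hP.disj i i' hii) hx hx'
    · refine ⟨Q.lv y, ?_⟩
      rintro (⟨x, ⟨i, -, hx⟩, rfl⟩ | hc)
      · exact hr ⟨i, x, hx, rfl⟩
      · simp only [mem_ofPred_eq] at hc
        omega
  obtain ⟨n, hn⟩ := hK.elim_directed_cover _
    (fun n => (Yset_closed hP hQ h (by omega : 1 ≤ n + 1)).isOpen_compl) h1
    (Monotone.directed_le fun a b hab => compl_subset_compl.2 (Yset_anti P Q e (by omega)))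
  refine ⟨n, fun j y hy hyK => ?_⟩
  by_contra hc
  exact hn hyK (Yset_anti P Q e (by omega) hy)

theorem preconn_annulus {R R' : ℝ} (hR : 0 ≤ R) :
    IsPreconnected {z : E2 | R < ‖z‖ ∧ ‖z‖ < R'} := by
  have h1 : IsPreconnected (Ioo R R' ×ˢ sphere (0 : E2) 1) :=
    isPreconnected_Ioo.prod (isPreconnected_sphere rank_E2 0 1)
  have h2 := h1.image (fun p : ℝ × E2 => p.1 • p.2) (by fun_prop)
  have h3 : (fun p : ℝ × E2 => p.1 • p.2) '' (Ioo R R' ×ˢ sphere (0 : E2) 1) =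
      {z : E2 | R < ‖z‖ ∧ ‖z‖ < R'} := by
    ext z
    constructor
    · rintro ⟨⟨r, v⟩, ⟨hr, hv⟩, rfl⟩
      have hv' : ‖v‖ = 1 := by simpa using hv
      have hr0 : 0 ≤ r := hR.trans hr.1.le
      simp only [mem_ofPred_eq, norm_smul, hv', mul_one, Real.norm_eq_abs, abs_of_nonneg hr0]
      exact hr
    · intro hz
      have hz0 : 0 < ‖z‖ := hR.trans_lt hz.1
      refine ⟨(‖z‖, ‖z‖⁻¹ • z), ⟨hz, ?_⟩, ?_⟩
      · simp [norm_smul, hz0.ne']
      · simp [smul_smul, hz0.ne']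
  rwa [h3] at h2

theorem step {P Q : Pic} {e : E2 → E2} (hP : P.Valid) (hQ : Q.Valid) (h : Ext P Q e)
    (g : E2 ≃ₜ E2) {R : ℝ} (hR : 0 ≤ R) (hI : ∀ x ∈ P.H 1, ‖g x‖ ≠ R)
    {C : Set E2} (hC : IsCompact C) {T : Set E2} {k : ℕ}
    (hT : ∀ K, IsCompact K → ∃ x ∈ T, x ∉ e '' K ∧ x ∉ Yset P Q e (k + 1))
    {O₁ O₂ : Set E2} (hO₁ : IsOpen O₁) (hO₂ : IsOpen O₂)
    (h1 : ∃ z ∈ O₁, R < ‖z‖ ∧ ‖z‖ < R + 3) (h2 : ∃ z ∈ O₂, R < ‖z‖ ∧ ‖z‖ < R + 3) :
    ∃ (g' : E2 ≃ₜ E2) (R' : ℝ) (n : ℕ), R + 3 ≤ R' ∧ (∀ x, ‖g x‖ ≤ R → g' (e x) = g x) ∧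
      (∀ x ∈ C, ‖g' x‖ < R') ∧ (∀ x ∈ Q.H 1, ‖g' x‖ ≠ R') ∧
      (∃ x ∈ T, g' x ∈ O₂ ∧ ‖g' x‖ < R') ∧
      (∀ y ∈ Yset P Q e 1, R < ‖g' y‖ → ‖g' y‖ ≤ R' →
        g' y ∈ O₁ ∨ (g' y ∈ O₂ ∧ y ∉ Yset P Q e (k + 1))) ∧
      ∀ j, ∀ y ∈ Yset P Q e j, ‖g' y‖ ≤ R' → j ≤ n := by
  classical
  have he := h.loc.emb
  let K := g ⁻¹' closedBall 0 R
  have hK : IsCompact K := g.isCompact_preimage.2 (isCompact_closedBall 0 R)
  have hKm : ∀ x, x ∈ K ↔ ‖g x‖ ≤ R := fun x => mem_closedBall_zero_iff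
  obtain ⟨hh, hhe⟩ := h.loc K hK
  let g1 := hh.symm.trans g
  have hg1 : ∀ x ∈ K, g1 (e x) = g x := fun x hx => by simp [g1, hhe hx]
  have hg1' : ∀ y, ‖g1 y‖ ≤ R → y ∈ e '' K := fun y hy =>
    ⟨hh.symm y, (hKm _).2 hy, by rw [hhe ((hKm (hh.symm y)).2 hy), hh.apply_symm_apply]⟩
  obtain ⟨x0, hx0T, hx0K, hx0Y⟩ := hT K hK
  obtain ⟨K1, hK1, hK1e⟩ := h.bd 1 le_rfl
  let C0 := insert x0 (e '' K ∪ K1 ∪ C)
  have hC0 : IsCompact C0 := (((hK.image he.continuous).union hK1).union hC).insert x0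
  have hI0 := hQ.lf.finite_nonempty_inter_compact hC0
  have hC1 : IsCompact (C0 ∪ ⋃ i ∈ {i | (Q.D i ∩ C0).Nonempty}, Q.D i) :=
    hC0.union (hI0.isCompact_biUnion fun i _ => (hQ.cell i).cpt)
  obtain ⟨R', hR', hR'C⟩ := (hC1.image g1.continuous).isBounded.subset_ball_lt (R + 3) 0
  have hC1n : ∀ x ∈ C0 ∪ ⋃ i ∈ {i | (Q.D i ∩ C0).Nonempty}, Q.D i, ‖g1 x‖ < R' := fun x hx =>
    mem_ball_zero_iff.1 (hR'C ⟨x, hx, rfl⟩)
  let S := g1 ⁻¹' sphere 0 R'
  have hS : IsCompact S := g1.isCompact_preimage.2 (isCompact_sphere 0 R')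
  have hSm : ∀ x, x ∈ S ↔ ‖g1 x‖ = R' := fun x => mem_sphere_zero_iff_norm
  have hSd : Dense Sᶜ := by
    have : Dense (sphere (0 : E2) R')ᶜ :=
      interior_eq_empty_iff_dense_compl.1 (interior_sphere 0 (by linarith))
    exact this.preimage g1.isOpenMap
  have hI1 := hQ.lf.finite_nonempty_inter_compact hS
  let I := hI1.toFinset
  have hIm : ∀ i, i ∈ I ↔ (Q.D i ∩ S).Nonempty := fun i => hI1.mem_toFinset
  obtain ⟨s, hs, hs2⟩ := shrink_many I Q.D (fun _ => Sᶜ) (fun i _ => hQ.cell i)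
    (fun _ _ => hS.isClosed.isOpen_compl)
    (fun i hi => by
      obtain ⟨x, hx, -⟩ := (hIm i).1 hi
      exact ⟨x, hSd x, hx⟩)
    (fun i _ j _ hij => hQ.disj i j hij) (C0ᶜ \ {x | ∃ i, i ∉ I ∧ x ∈ Q.D i})
    (hC0.isClosed.isOpen_compl.sdiff (hQ.closed_union _))
    (fun i hi x hx => by
      refine ⟨fun hc => ?_, ?_⟩
      · obtain ⟨y, hy, hyS⟩ := (hIm i).1 hi
        exact (hC1n y (Or.inr (mem_iUnion₂.2 ⟨i, ⟨x, hx, hc⟩, hy⟩))).ne ((hSm y).1 hyS)
      · rintro ⟨j, hj, hxj⟩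
        exact disjoint_left.1 (hQ.disj i j (by rintro rfl; exact hj hi)) hx hxj)
  let g2 := s.trans g1
  have hg2 : ∀ x ∈ C0, g2 x = g1 x := fun x hx => by
    simp only [g2, Homeomorph.trans_apply, hs.fix (fun hc => hc.1 hx)]
  have hg2D : ∀ i, ∀ x ∈ Q.D i, ‖g2 x‖ ≠ R' := by
    intro i x hx hn
    by_cases hi : i ∈ I
    · exact hs2 i hi hx ((hSm _).2 hn)
    · simp only [g2, Homeomorph.trans_apply, hs.fix (fun hc => hc.2 ⟨i, hi, hx⟩)] at hn
      exact hi ((hIm i).2 ⟨x, hx, (hSm _).2 hn⟩)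
  have heK : e '' K ⊆ C0 := fun y hy => Or.inr (Or.inl (Or.inl hy))
  have hg2' : ∀ y, ‖g2 y‖ ≤ R → y ∈ e '' K := by
    intro y hy
    have h3 := hg1' (s y) hy
    have h4 := hs.fix (x := s y) fun hc => hc.1 (heK h3)
    rwa [s.injective h4] at h3
  have hYR' : ∀ y ∈ Yset P Q e 1, ‖g2 y‖ ≠ R' := by
    rintro y (hy | hy)
    · rcases hK1e hy with ⟨i, -, h3⟩ | h3
      · exact hg2D i y h3
      · have h4 : y ∈ C0 := Or.inr (Or.inl (Or.inr h3))
        rw [hg2 y h4]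
        exact (hC1n y (Or.inl h4)).ne
    · obtain ⟨i, -, h3⟩ := hQ.mem_H le_rfl hy
      exact hg2D i y h3
  have hYR : ∀ y ∈ Yset P Q e 1, ‖g2 y‖ ≠ R := by
    intro y hy hn
    obtain ⟨x, hx, rfl⟩ := hg2' y hn.le
    rw [hg2 _ (heK ⟨x, hx, rfl⟩), hg1 x hx] at hn
    exact hI x (Yset_mem hP h le_rfl hy) hn
  let A : Set E2 := {z : E2 | R < ‖z‖ ∧ ‖z‖ < R'}
  have hAo : IsOpen A :=
    (isOpen_lt continuous_const continuous_norm).inter (isOpen_lt continuous_norm continuous_const)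
  have hAcl : closure A ⊆ {z : E2 | R ≤ ‖z‖ ∧ ‖z‖ ≤ R'} :=
    closure_minimal (fun z hz => ⟨hz.1.le, hz.2.le⟩)
      ((isClosed_le continuous_const continuous_norm).inter
        (isClosed_le continuous_norm continuous_const))
  let V := g2 ⁻¹' A
  have hVcl : closure V = g2 ⁻¹' closure A := (g2.preimage_closure A).symm
  let D : CI → Set E2 := fun i => e '' (if 1 ≤ P.t i then P.D i else ∅)
  have hDsub : ∀ i, D i ⊆ e '' P.D i := fun i => image_mono (by split_ifs <;> simp)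
  have hDm : ∀ i x, e x ∈ D i ↔ 1 ≤ P.t i ∧ x ∈ P.D i := by
    intro i x
    simp only [D, he.injective.mem_set_image]
    split_ifs with hi <;> simp [hi]
  obtain ⟨u, hu, hua, hu2⟩ := sort_cells (V := V) (F := {y | 1 ≤ Q.lv y}) (Y := Yset P Q e 1)
    (Y' := Yset P Q e (k + 1)) (O₁ := g2 ⁻¹' O₁) (O₂ := g2 ⁻¹' O₂) (D := D) (a := x0)
    (hAo.preimage g2.continuous) (g2.isPreconnected_preimage.2 (preconn_annulus hR))
    (by
      rw [hVcl]
      refine g2.isCompact_preimage.2 ((isCompact_closedBall (0 : E2) R').of_isClosed_subset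
        isClosed_closure fun z hz => mem_closedBall_zero_iff.2 (hAcl hz).2))
    hQ.cnt
    (fun i => Cell.image (by split_ifs; exacts [hP.cell i, Cell.empty]) he)
    (fun i j hij => ((disjoint_image_iff he.injective).2 (hP.disj i j hij)).mono
      (hDsub i) (hDsub j))
    (fun y hy => by
      by_cases hr : y ∈ range e
      · obtain ⟨x, rfl⟩ := hr
        obtain ⟨N, hN, hf⟩ := hP.lf x
        refine ⟨e '' N, he.isOpenMap.image_mem_nhds hN, hf.subset ?_⟩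
        rintro i ⟨_, h3, z, hz, rfl⟩
        exact ⟨z, ((hDm i z).1 h3).2, hz⟩
      · have h3 := h.new 1 le_rfl y hr (not_le.1 hy)
        refine ⟨_, isClosed_closure.isOpen_compl.mem_nhds h3, finite_empty.subset ?_⟩
        rintro i ⟨z, h4, h5⟩
        obtain ⟨x, -, rfl⟩ := hDsub i h4
        exact h5 (subset_closure ⟨x, ⟨i, (hDm i x).1 h4⟩, rfl⟩))
    (by
      rw [Yset, union_comm]
      refine congrArg _ (Subset.antisymm ?_ (iUnion_subset fun i y hy => ?_))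
      · rintro _ ⟨x, ⟨i, hi, hx⟩, rfl⟩
        exact mem_iUnion.2 ⟨i, (hDm i x).2 ⟨hi, hx⟩⟩
      · obtain ⟨x, -, rfl⟩ := hDsub i hy
        exact ⟨x, ⟨i, (hDm i x).1 hy⟩, rfl⟩)
    (Yset_closed hP hQ h le_rfl)
    (fun i => by
      refine ⟨e '' {x | ∃ j, j ≠ i ∧ x ∈ P.D j}ᶜ,
        he.isOpenMap _ (hP.closed_union _).isOpen_compl, fun y hy => ?_, ?_⟩
      · obtain ⟨x, hx, rfl⟩ := hDsub i hy
        exact ⟨x, fun ⟨j, hj, hxj⟩ => disjoint_left.1 (hP.disj j i hj) hxj hx, rfl⟩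
      · rintro _ ⟨⟨x, hx, rfl⟩, hy⟩
        obtain ⟨j, hj, hxj⟩ := Yset_mem hP h le_rfl hy
        have : j = i := by
          by_contra hc
          exact hx ⟨j, hc, hxj⟩
        subst this
        exact (hDm j x).2 ⟨hj, hxj⟩)
    (fun y hy hyV => by
      rw [hVcl] at hyV
      have := hAcl hyV
      exact ⟨lt_of_le_of_ne this.1 (hYR y hy).symm, lt_of_le_of_ne this.2 (hYR' y hy)⟩)
    (Yset_closed hP hQ h (by omega))
    (fun i ⟨y, hy, hyY⟩ => by
      obtain ⟨x, hx, rfl⟩ := hDsub i hy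
      obtain ⟨j, hj, hxj⟩ := Yset_mem hP h (by omega) hyY
      have : j = i := by
        by_contra hc
        exact disjoint_left.1 (hP.disj j i hc) hxj hx
      subst this
      intro z hz
      obtain ⟨w, hw, rfl⟩ := hDsub j hz
      exact Or.inl ⟨w, ⟨j, hj, hw⟩, rfl⟩)
    (by
      refine ⟨not_le.1 fun hc => hx0K (hg2' _ hc), ?_⟩
      rw [hg2 x0 (mem_insert _ _)]
      exact hC1n x0 (Or.inl (mem_insert _ _)))
    hx0Y (hO₁.preimage g2.continuous) (hO₂.preimage g2.continuous)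
    (by
      obtain ⟨z, hz, h3, h4⟩ := h1
      exact ⟨g2.symm z, by simpa using hz, by simpa [V, A] using ⟨h3, by linarith⟩⟩)
    (by
      obtain ⟨z, hz, h3, h4⟩ := h2
      exact ⟨g2.symm z, by simpa using hz, by simpa [V, A] using ⟨h3, by linarith⟩⟩)
  let g' := u.trans g2
  have hout : ∀ y, y ∉ V → g' y = g2 y := fun y hy => by
    simp only [g', Homeomorph.trans_apply, hu.fix hy]
  have hin : ∀ y, y ∈ V ↔ g' y ∈ A := fun y => hu.mem_iff.symm
  obtain ⟨n, hn⟩ := Yset_bound hP hQ h (g'.isCompact_preimage.2 (isCompact_closedBall 0 R'))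
  refine ⟨g', R', n, hR'.le, fun x hx => ?_, fun x hx => ?_, fun x hx hn => ?_,
    ⟨x0, hx0T, hua, ?_⟩, fun y hy h3 h4 => ?_,
    fun j y hy h3 => hn j y hy (mem_closedBall_zero_iff.2 h3)⟩
  · have h3 : g2 (e x) = g x := by
      rw [hg2 _ (heK ⟨x, (hKm x).2 hx, rfl⟩), hg1 x ((hKm x).2 hx)]
    rw [hout, h3]
    intro hc
    have : R < ‖g2 (e x)‖ := hc.1
    rw [h3] at this
    linarith
  · by_cases hV : x ∈ V
    · exact ((hin x).1 hV).2
    · have h4 : x ∈ C0 := Or.inr (Or.inr hx)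
      rw [hout x hV, hg2 x h4]
      exact hC1n x (Or.inl h4)
  · have hV : x ∉ V := fun hc => ((hin x).1 hc).2.ne hn
    rw [hout x hV] at hn
    obtain ⟨i, -, h3⟩ := hx
    exact hg2D i x h3 hn
  · refine ((hin x0).1 ⟨not_le.1 fun hc => hx0K (hg2' _ hc), ?_⟩).2
    rw [hg2 x0 (mem_insert _ _)]
    exact hC1n x0 (Or.inl (mem_insert _ _))
  · have hV : y ∈ V := by
      by_contra hV
      rcases h4.lt_or_eq with h5 | h5
      · exact hV ((hin y).2 ⟨h3, h5⟩)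
      · rw [hout y hV] at h5
        exact hYR' y hy h5
    exact hu2 y hy hV

end Pool.Agent.Lib.MP_db8568_gt
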